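import Pool.Agent.H61.Adm.Defs

/-!
# Counting the survivors (Cnt.lean)
-/

set_option autoImplicit false

namespace Pool.Agent.H61.Adm

open Finset

namespace Cnt

theorem pi_eq (n : ℕ) : Nat.primeCounting n = ((Finset.range (n + 1)).filter Nat.Prime).card := by
  unfold Nat.primeCounting Nat.primeCounting'
  rw [Nat.count_eq_card_filter_range]

theorem pi_le_add (z n : ℕ) :
    Nat.primeCounting n ≤ Nat.primeCounting z + ((Finset.Ioc z n).filter Nat.Prime).card := by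
  rw [pi_eq, pi_eq]
  refine le_trans (card_le_card ?_) (card_union_le _ _)
  intro p hp
  rw [mem_filter, mem_range] at hp
  rw [mem_union, mem_filter, mem_filter, mem_range, mem_Ioc]
  rcases lt_or_ge p (z + 1) with h | h
  · exact Or.inl ⟨h, hp.2⟩
  · exact Or.inr ⟨⟨h, by omega⟩, hp.2⟩

theorem mem_Sm {K X s : ℕ} : s ∈ Sm K X ↔ 1 ≤ s ∧ s ≤ X ∧ ∀ p : ℕ, p.Prime → p ∣ s → p ≤ K := by
  unfold Sm
  rw [mem_filter, mem_Icc]
  constructor
  · rintro ⟨⟨h1, h2⟩, h3⟩
    exact ⟨h1, h2, fun p hp hd => h3 p (Nat.mem_primeFactors.mpr ⟨hp, hd, by omega⟩)⟩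
  · rintro ⟨h1, h2, h3⟩
    exact ⟨⟨h1, h2⟩, fun p hp => h3 p (Nat.prime_of_mem_primeFactors hp)
      (Nat.dvd_of_mem_primeFactors hp)⟩

/-- The pairs `(s, q)`. -/
noncomputable def TT (K z H X : ℕ) : Finset (Σ _ : ℕ, ℕ) :=
  (Sm K X).sigma (fun s => (Finset.Ioc z (H / s)).filter Nat.Prime)

theorem mem_TT {K z H X : ℕ} {t : Σ _ : ℕ, ℕ} : t ∈ TT K z H X ↔
    t.1 ∈ Sm K X ∧ z < t.2 ∧ t.2 ≤ H / t.1 ∧ t.2.Prime := by
  unfold TT
  rw [mem_sigma, mem_filter, mem_Ioc]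
  tauto

theorem TT_inj {K z H X : ℕ} (hKz : K ≤ z) {t t' : Σ _ : ℕ, ℕ} (ht : t ∈ TT K z H X)
    (ht' : t' ∈ TT K z H X) (h : t.1 * t.2 = t'.1 * t'.2) : t = t' := by
  obtain ⟨s, q⟩ := t
  obtain ⟨s', q'⟩ := t'
  rw [mem_TT] at ht ht'
  obtain ⟨h1, h2, -, h4⟩ := ht
  obtain ⟨h1', h2', -, h4'⟩ := ht'
  dsimp only at h h1 h2 h4 h1' h2' h4'
  have hq : q ∣ s' * q' := h ▸ Dvd.intro_left s rfl
  rcases (Nat.Prime.dvd_mul h4).mp hq with hd | hd
  · have := (mem_Sm.mp h1').2.2 q h4 hd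
    omega
  · have hqq : q = q' := (Nat.prime_dvd_prime_iff_eq h4 h4').mp hd
    subst hqq
    have := Nat.eq_of_mul_eq_mul_right h4.pos h
    subst this
    rfl

theorem TT_pos {K z H X : ℕ} {t : Σ _ : ℕ, ℕ} (ht : t ∈ TT K z H X) : 1 ≤ t.1 * t.2 := by
  rw [mem_TT] at ht
  have h1 := (mem_Sm.mp ht.1).1
  have h2 := ht.2.2.2.pos
  exact Nat.mul_pos h1 h2

theorem TT_le {K z H X : ℕ} {t : Σ _ : ℕ, ℕ} (ht : t ∈ TT K z H X) : t.1 * t.2 ≤ H := by
  rw [mem_TT] at ht
  calc t.1 * t.2 ≤ t.1 * (H / t.1) := Nat.mul_le_mul_left _ ht.2.2.1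
    _ ≤ H := Nat.mul_div_le H t.1

theorem TT_dvd {K z H X : ℕ} {t : Σ _ : ℕ, ℕ} (ht : t ∈ TT K z H X) {p : ℕ}
    (hp : p ∈ Finset.Ioc K z) (hpp : p.Prime) : ¬ p ∣ t.1 * t.2 := by
  rw [mem_TT] at ht
  rw [mem_Ioc] at hp
  intro hd
  rcases (Nat.Prime.dvd_mul hpp).mp hd with hd | hd
  · have := (mem_Sm.mp ht.1).2.2 p hpp hd
    omega
  · have : p = t.2 := (Nat.prime_dvd_prime_iff_eq hpp ht.2.2.2).mp hd
    omega

theorem two_TT {K z H X : ℕ} (hKz : K ≤ z) : 2 * (TT K z H X).card ≤ (BB K z H).card := by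
  classical
  set P : Finset ℤ := (TT K z H X).image (fun t => ((t.1 * t.2 : ℕ) : ℤ)) with hP
  set N : Finset ℤ := (TT K z H X).image (fun t => -((t.1 * t.2 : ℕ) : ℤ)) with hN
  have hcP : P.card = (TT K z H X).card := by
    rw [hP, card_image_of_injOn]
    intro t ht t' ht' h
    dsimp only at h
    exact TT_inj hKz ht ht' (by exact_mod_cast h)
  have hcN : N.card = (TT K z H X).card := by
    rw [hN, card_image_of_injOn]
    intro t ht t' ht' h
    apply TT_inj hKz ht ht'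
    dsimp only at h
    have := neg_injective h
    exact_mod_cast this
  have hdisj : Disjoint P N := by
    rw [disjoint_left]
    intro x hx hx'
    obtain ⟨t, ht, rfl⟩ := mem_image.mp hx
    obtain ⟨t', ht', h⟩ := mem_image.mp hx'
    have h1 := TT_pos ht
    have h2 := TT_pos ht'
    have h1' : (1 : ℤ) ≤ ((t.1 * t.2 : ℕ) : ℤ) := by exact_mod_cast h1
    have h2' : (1 : ℤ) ≤ ((t'.1 * t'.2 : ℕ) : ℤ) := by exact_mod_cast h2
    linarith
  have hsub : P ∪ N ⊆ BB K z H := by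
    intro x hx
    have : ∃ t ∈ TT K z H X, x = ((t.1 * t.2 : ℕ) : ℤ) ∨ x = -((t.1 * t.2 : ℕ) : ℤ) := by
      rcases mem_union.mp hx with hx | hx
      · obtain ⟨t, ht, rfl⟩ := mem_image.mp hx
        exact ⟨t, ht, Or.inl rfl⟩
      · obtain ⟨t, ht, rfl⟩ := mem_image.mp hx
        exact ⟨t, ht, Or.inr rfl⟩
    obtain ⟨t, ht, h⟩ := this
    have h1 := TT_pos ht
    have h2 := TT_le ht
    have h1' : (1 : ℤ) ≤ ((t.1 * t.2 : ℕ) : ℤ) := by exact_mod_cast h1
    have h2' : ((t.1 * t.2 : ℕ) : ℤ) ≤ (H : ℤ) := by exact_mod_cast h2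
    unfold BB
    rw [mem_filter, mem_Icc]
    refine ⟨?_, ?_⟩
    · rcases h with h | h <;> rw [h] <;> constructor <;> linarith
    · intro p hp hpp hd
      apply TT_dvd ht hp hpp
      rcases h with h | h
      · rw [h] at hd
        exact_mod_cast hd
      · rw [h, dvd_neg] at hd
        exact_mod_cast hd
  calc 2 * (TT K z H X).card = (P ∪ N).card := by
        rw [card_union_of_disjoint hdisj, hcP, hcN]; ring
    _ ≤ (BB K z H).card := card_le_card hsub

end Cnt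

theorem bbLower : BBLowerSt := by
  intro K z H X hKz
  have h1 : ∑ s ∈ Sm K X, ((Nat.primeCounting (H / s) : ℝ) - Nat.primeCounting z) ≤
      ((Cnt.TT K z H X).card : ℝ) := by
    unfold Cnt.TT
    rw [card_sigma]
    push_cast
    apply sum_le_sum
    intro s _
    have := Cnt.pi_le_add z (H / s)
    have h2 : (Nat.primeCounting (H / s) : ℝ) ≤ Nat.primeCounting z +
        (((Finset.Ioc z (H / s)).filter Nat.Prime).card : ℝ) := by exact_mod_cast this
    linarith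
  have h2 : (2 * (Cnt.TT K z H X).card : ℝ) ≤ ((BB K z H).card : ℝ) := by
    exact_mod_cast Cnt.two_TT hKz
  linarith

namespace Cnt

/-- The positive part of `BB`. -/
noncomputable def PB (a b N : ℕ) : Finset ℕ :=
  (Finset.Icc 1 N).filter (fun n => ∀ p ∈ Finset.Ioc a b, p.Prime → ¬ p ∣ n)

theorem BB_le (a b N : ℕ) : (BB a b N).card ≤ 2 * (PB a b N).card + 1 := by
  classical
  have hsub : BB a b N ⊆ ((PB a b N).image (fun n : ℕ => (n : ℤ)) ∪
      (PB a b N).image (fun n : ℕ => -(n : ℤ))) ∪ {0} := by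
    intro x hx
    unfold BB at hx
    rw [mem_filter, mem_Icc] at hx
    obtain ⟨⟨h1, h2⟩, h3⟩ := hx
    rw [mem_union, mem_union, mem_image, mem_image, mem_singleton]
    rcases lt_trichotomy x 0 with h | h | h
    · left; right
      refine ⟨x.natAbs, ?_, by omega⟩
      unfold PB
      rw [mem_filter, mem_Icc]
      refine ⟨by omega, ?_⟩
      intro p hp hpp hd
      exact h3 p hp hpp (Int.natCast_dvd.mpr hd)
    · right; exact h
    · left; left
      refine ⟨x.natAbs, ?_, by omega⟩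
      unfold PB
      rw [mem_filter, mem_Icc]
      refine ⟨by omega, ?_⟩
      intro p hp hpp hd
      exact h3 p hp hpp (Int.natCast_dvd.mpr hd)
  refine (card_le_card hsub).trans ?_
  refine (card_union_le _ _).trans ?_
  have h1 := card_union_le ((PB a b N).image (fun n : ℕ => (n : ℤ)))
    ((PB a b N).image (fun n : ℕ => -(n : ℤ)))
  have h2 := card_image_le (s := PB a b N) (f := fun n : ℕ => (n : ℤ))
  have h3 := card_image_le (s := PB a b N) (f := fun n : ℕ => -(n : ℤ))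
  rw [card_singleton]
  omega

theorem PB_sub {a b N : ℕ} (hb : 1 ≤ b) (hN : N < (b + 1) ^ 2) :
    PB a b N ⊆ Sm a N ∪ (TT a 0 N (N / b)).image (fun t => t.1 * t.2) := by
  classical
  intro n hn
  unfold PB at hn
  rw [mem_filter, mem_Icc] at hn
  obtain ⟨⟨h1, h2⟩, h3⟩ := hn
  rw [mem_union, mem_image]
  by_cases h : ∀ p : ℕ, p.Prime → p ∣ n → p ≤ a
  · exact Or.inl (mem_Sm.mpr ⟨h1, h2, h⟩)
  right
  push Not at h
  obtain ⟨q, hq, hqn, hqa⟩ := h
  have hqb : b < q := by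
    by_contra hc
    exact h3 q (mem_Ioc.mpr ⟨hqa, by omega⟩) hq hqn
  obtain ⟨s, hs⟩ := hqn
  have hs' : s * q = n := by rw [hs]; ring
  have hs1 : 1 ≤ s := by
    rcases Nat.eq_zero_or_pos s with h0 | h0
    · rw [h0] at hs
      omega
    · exact h0
  refine ⟨⟨s, q⟩, ?_, hs'⟩
  rw [mem_TT]
  refine ⟨mem_Sm.mpr ⟨hs1, ?_, ?_⟩, hq.pos, ?_, hq⟩
  · rw [Nat.le_div_iff_mul_le (by omega)]
    calc s * b ≤ s * q := Nat.mul_le_mul_left _ hqb.le
      _ ≤ N := by omega
  · intro p hp hps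
    by_contra hc
    have hpn : p ∣ n := by rw [← hs']; exact Dvd.dvd.mul_right hps q
    have hpb : b < p := by
      by_contra hc'
      exact h3 p (mem_Ioc.mpr ⟨by omega, by omega⟩) hp hpn
    have hps' : p ≤ s := Nat.le_of_dvd hs1 hps
    have : (b + 1) * (b + 1) ≤ s * q := Nat.mul_le_mul (by omega) (by omega)
    have h5 : (b + 1) ^ 2 = (b + 1) * (b + 1) := by ring
    omega
  · dsimp only
    rw [Nat.le_div_iff_mul_le (by omega)]
    calc q * s = n := by rw [← hs']; ring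
      _ ≤ N := h2

end Cnt

theorem bbUpper : BBUpperSt := by
  intro a b N hb hN
  classical
  have h1 := Cnt.BB_le a b N
  have h2 : (Cnt.PB a b N).card ≤ (Sm a N).card +
      ∑ s ∈ Sm a (N / b), Nat.primeCounting (N / s) := by
    refine (card_le_card (Cnt.PB_sub hb hN)).trans ((card_union_le _ _).trans ?_)
    apply Nat.add_le_add_left
    refine card_image_le.trans ?_
    unfold Cnt.TT
    rw [card_sigma]
    apply sum_le_sum
    intro s _
    rw [Cnt.pi_eq]
    apply card_le_card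
    intro p hp
    rw [mem_filter, mem_Ioc] at hp
    rw [mem_filter, mem_range]
    exact ⟨by omega, hp.2⟩
  have h3 : (BB a b N).card ≤ 2 * ∑ s ∈ Sm a (N / b), Nat.primeCounting (N / s) +
      2 * (Sm a N).card + 1 := by omega
  exact_mod_cast h3

end Pool.Agent.H61.Adm
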