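import Pool.Agent.H61.Adm.Defs

/-!
# Residue classes realised by a window (MP_cbf366_nt, module Crt)
-/

set_option autoImplicit false

namespace Pool.Agent.H61.Adm

open Finset

namespace Crt

/-- A natural number with prescribed residues modulo the primes up to `k`. -/
theorem exists_nat (k : ℕ) (b : ℕ → ℤ) :
    ∃ m : ℕ, ∀ p ∈ Finset.Icc 1 k, p.Prime → (p : ℤ) ∣ (m : ℤ) - b p := by
  classical
  set t : Finset ℕ := (Finset.Icc 1 k).filter Nat.Prime with ht
  have hs : ∀ i ∈ t, (fun p : ℕ => p) i ≠ 0 := by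
    intro i hi
    exact (Finset.mem_filter.mp hi).2.ne_zero
  have pp : Set.Pairwise (t : Set ℕ) (Function.onFun Nat.Coprime (fun p : ℕ => p)) := by
    intro i hi j hj hij
    have hi' := (Finset.mem_filter.mp (Finset.mem_coe.mp hi)).2
    have hj' := (Finset.mem_filter.mp (Finset.mem_coe.mp hj)).2
    exact (Nat.coprime_primes hi' hj').mpr hij
  obtain ⟨m, hm⟩ := Nat.chineseRemainderOfFinset (fun p : ℕ => (b p % (p : ℤ)).toNat)
    (fun p : ℕ => p) t hs pp
  refine ⟨m, fun p hp hpp => ?_⟩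
  have h1 := hm p (Finset.mem_filter.mpr ⟨hp, hpp⟩)
  have hp0 : (0 : ℤ) < p := by exact_mod_cast hpp.pos
  have h2 : ((b p % (p : ℤ)).toNat : ℤ) = b p % (p : ℤ) :=
    Int.toNat_of_nonneg (Int.emod_nonneg _ hp0.ne')
  have h3 : (m : ℤ) ≡ ((b p % (p : ℤ)).toNat : ℤ) [ZMOD (p : ℤ)] :=
    (Int.natCast_modEq_iff).mpr h1
  rw [h2] at h3
  have h4 : (m : ℤ) ≡ b p [ZMOD (p : ℤ)] := h3.trans (Int.mod_modEq _ _)
  exact (Int.modEq_iff_dvd.mp h4.symm)

end Crt

/-- Residue classes `a p` for all primes `p ≤ k` are realised by a window `(m, m+k]`. -/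
theorem crt : CrtSt := by
  classical
  intro k u a
  obtain ⟨m, hm⟩ := Crt.exists_nat k (fun p => u - a p)
  refine ⟨m, ?_⟩
  unfold hh
  refine Finset.card_le_card_of_injOn (fun n : ℤ => (n - u + m).toNat) ?_ ?_
  · intro n hn
    rw [Finset.mem_coe, Finset.mem_filter, Finset.mem_Ioc] at hn
    obtain ⟨⟨h1, h2⟩, h3⟩ := hn
    have hnn : (0 : ℤ) ≤ n - u + m := by
      have : (0 : ℤ) ≤ (m : ℤ) := Int.natCast_nonneg m
      linarith
    have hcast : (((n - u + m).toNat : ℕ) : ℤ) = n - u + m := Int.toNat_of_nonneg hnn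
    rw [Finset.mem_coe, Finset.mem_filter, Finset.mem_Ioc]
    refine ⟨⟨?_, ?_⟩, ?_⟩
    · have : (m : ℤ) < (((n - u + m).toNat : ℕ) : ℤ) := by rw [hcast]; linarith
      exact_mod_cast this
    · have : (((n - u + m).toNat : ℕ) : ℤ) ≤ ((m + k : ℕ) : ℤ) := by
        rw [hcast]; push_cast; linarith
      exact_mod_cast this
    · unfold primorial
      refine Nat.Coprime.prod_right ?_
      intro p hp
      rw [Finset.mem_filter, Finset.mem_range] at hp
      obtain ⟨hpk, hpp⟩ := hp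
      have hp1 : p ∈ Finset.Icc 1 k := Finset.mem_Icc.mpr ⟨hpp.one_le, by omega⟩
      refine Nat.Coprime.symm ((Nat.Prime.coprime_iff_not_dvd hpp).mpr ?_)
      intro hd
      have hd' : (p : ℤ) ∣ n - u + m := by
        rw [← hcast]
        exact_mod_cast hd
      have h4 := hm p hp1 hpp
      apply h3 p hp1 hpp
      have h5 := dvd_sub hd' h4
      have h6 : n - u + (m : ℤ) - ((m : ℤ) - (u - a p)) = n - a p := by ring
      rwa [h6] at h5
  · intro n hn n' hn' h
    rw [Finset.mem_coe, Finset.mem_filter, Finset.mem_Ioc] at hn hn'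
    have h0 : (0 : ℤ) ≤ (m : ℤ) := Int.natCast_nonneg m
    have hnn : (0 : ℤ) ≤ n - u + m := by linarith [hn.1.1]
    have hnn' : (0 : ℤ) ≤ n' - u + m := by linarith [hn'.1.1]
    have e1 : (((n - u + m).toNat : ℕ) : ℤ) = n - u + m := Int.toNat_of_nonneg hnn
    have e2 : (((n' - u + m).toNat : ℕ) : ℤ) = n' - u + m := Int.toNat_of_nonneg hnn'
    have h' : (n - u + m).toNat = (n' - u + m).toNat := h
    rw [h', e2] at e1
    linarith

end Pool.Agent.H61.Adm
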