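import Pool.Agent.H61.Adm.Defs

/-!
# A residue class with few survivors (module Good of MP_cbf366_nt)
-/

set_option autoImplicit false

namespace Pool.Agent.H61.Adm

open Finset

namespace Good

/-- The product of the primes in `(a, b]`. -/
noncomputable def QQ (a b : ℕ) : ℕ := ∏ p ∈ (Finset.Ioc a b).filter Nat.Prime, p

theorem QQ_pos (a b : ℕ) : 0 < QQ a b :=
  Finset.prod_pos fun _ hp => (mem_filter.mp hp).2.pos

theorem dvd_QQ {a b r : ℕ} (hr : r.Prime) (h1 : a < r) (h2 : r ≤ b) : r ∣ QQ a b :=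
  Finset.dvd_prod_of_mem _ (mem_filter.mpr ⟨mem_Ioc.mpr ⟨h1, h2⟩, hr⟩)

theorem of_dvd_QQ {a b r : ℕ} (hr : r.Prime) (h : r ∣ QQ a b) : a < r ∧ r ≤ b := by
  obtain ⟨q, hq, hrq⟩ := (Prime.dvd_finsetProd_iff hr.prime _).mp h
  obtain ⟨hq1, hq2⟩ := mem_filter.mp hq
  rw [(Nat.prime_dvd_prime_iff_eq hr hq2).mp hrq]
  exact mem_Ioc.mp hq1

theorem QQ_mul {K w R : ℕ} (h1 : K ≤ w) (h2 : w ≤ R) : QQ K R = QQ K w * QQ w R := by
  unfold QQ
  rw [← Finset.prod_union]
  · congr 1
    ext x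
    simp only [mem_union, mem_filter, mem_Ioc]
    constructor
    · rintro ⟨⟨h3, h4⟩, h5⟩
      by_cases h6 : x ≤ w
      · exact Or.inl ⟨⟨h3, h6⟩, h5⟩
      · exact Or.inr ⟨⟨by omega, h4⟩, h5⟩
    · rintro (⟨⟨h3, h4⟩, h5⟩ | ⟨⟨h3, h4⟩, h5⟩)
      · exact ⟨⟨h3, by omega⟩, h5⟩
      · exact ⟨⟨by omega, h4⟩, h5⟩
  · rw [Finset.disjoint_left]
    intro x hx hx'
    simp only [mem_filter, mem_Ioc] at hx hx'
    omega

theorem QQ_cop (K w R : ℕ) : Nat.Coprime (QQ K w) (QQ w R) := by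
  apply Nat.Coprime.symm
  apply Nat.coprime_of_dvd
  intro r hr h1 h2
  have h3 := of_dvd_QQ hr h1
  have h4 := of_dvd_QQ hr h2
  omega

theorem QQ_le (K R : ℕ) : QQ K R ≤ 4 ^ R := by
  refine le_trans ?_ (primorial_le_four_pow R)
  unfold QQ primorial
  apply Finset.prod_le_prod_of_subset_of_one_le'
  · intro x hx
    simp only [mem_filter, mem_Ioc, mem_range] at hx ⊢
    exact ⟨by omega, hx.2⟩
  · intro x hx _
    exact (mem_filter.mp hx).2.one_lt.le

/-- The initial term of the progression. -/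
theorem exists_a0 (K w R p : ℕ) (c : ℤ) (h1 : K ≤ w) (h2 : w ≤ R) :
    ∃ a0 : ℤ, 0 ≤ a0 ∧ a0 < QQ K R ∧ ((QQ K w : ℕ) : ℤ) ∣ a0 + p * c ∧ ((QQ w R : ℕ) : ℤ) ∣ a0 := by
  obtain ⟨u, v, huv⟩ := (Nat.isCoprime_iff_coprime.mpr (QQ_cop K w R))
  have hQ : (0 : ℤ) < (QQ K R : ℕ) := by exact_mod_cast QQ_pos K R
  have hm : ((QQ K R : ℕ) : ℤ) = (QQ K w : ℕ) * (QQ w R : ℕ) := by
    exact_mod_cast QQ_mul h1 h2
  obtain ⟨x, hx⟩ : ∃ x : ℤ, x = -(p * c) * (v * (QQ w R : ℕ)) := ⟨_, rfl⟩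
  have h3 := Int.emod_add_mul_ediv x (QQ K R : ℕ)
  have h0 := Int.emod_nonneg x hQ.ne'
  have h0' := Int.emod_lt_of_pos x hQ
  generalize x / ((QQ K R : ℕ) : ℤ) = k at h3
  refine ⟨x % (QQ K R : ℕ), h0, h0', ?_, ?_⟩
  · refine ⟨p * c * u - (QQ w R : ℕ) * k, ?_⟩
    have h5 : x % (QQ K R : ℕ) = x - (QQ K R : ℕ) * k := by linarith
    rw [h5, hx, hm]
    linear_combination (-(p * c)) * huv
  · refine ⟨-(p * c) * v - (QQ K w : ℕ) * k, ?_⟩
    have h5 : x % (QQ K R : ℕ) = x - (QQ K R : ℕ) * k := by linarith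
    rw [h5, hx, hm]
    ring

end Good

open Good in
theorem good (S : ShiftSt) (V : SieveSt) : GoodSt := by
  classical
  intro K w R R₁ z H M p J hR hR₁ hKw hwR hRp hRz hR₁z hR₁p hp hM hJ hJp
  obtain ⟨⟨c, hc⟩, -⟩ := S (BB w R M) K w
  set U := (BB w R M).filter (fun t => ∀ r ∈ Finset.Ioc K w, r.Prime → ¬ (r : ℤ) ∣ t - c) with hU
  obtain ⟨a0, ha0, ha0', hd1, hd2⟩ := exists_a0 K w R p c hKw hwR
  set Q := QQ K R with hQ
  have hQpos : 0 < Q := QQ_pos K R
  have hQle : Q ≤ 4 ^ R := QQ_le K R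
  have hQJ : Q * J ≤ p := by
    calc Q * J ≤ 4 ^ R * J := Nat.mul_le_mul_right J hQle
      _ = J * 4 ^ R := Nat.mul_comm _ _
      _ ≤ p := hJp
  have hpp : (0 : ℤ) < p := by exact_mod_cast hp.pos
  -- the counting of a class
  have hcount : ∀ j ∈ Finset.Icc 1 J,
      ((BB K z H).filter (fun n => (p : ℤ) ∣ n - (a0 + (Q : ℤ) * (j : ℤ)))).card ≤
        (U.filter (fun t => ∀ r ∈ Finset.Ioc R R₁, r.Prime →
          ¬ (r : ℤ) ∣ (a0 + p * t) + (Q : ℤ) * (j : ℤ))).card := by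
    intro j hj
    rw [mem_Icc] at hj
    apply Finset.card_le_card_of_injOn (fun n => (n - (a0 + (Q : ℤ) * (j : ℤ))) / p)
    · intro n hn
      rw [mem_coe, mem_filter] at hn
      obtain ⟨hn1, t, ht⟩ := hn
      unfold BB at hn1
      rw [mem_filter, mem_Icc] at hn1
      obtain ⟨⟨hn2, hn3⟩, hn4⟩ := hn1
      have h1 : (n - (a0 + (Q : ℤ) * (j : ℤ))) / p = t := by
        rw [ht]
        exact Int.mul_ediv_cancel_left t hpp.ne'
      have hn5 : n = (a0 + p * t) + (Q : ℤ) * (j : ℤ) := by linarith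
      have hQj : (Q : ℤ) * (j : ℤ) ≤ p := by
        have h2 : Q * j ≤ p := (Nat.mul_le_mul_left Q hj.2).trans hQJ
        exact_mod_cast h2
      have hQj0 : 0 ≤ (Q : ℤ) * (j : ℤ) := by positivity
      have ha0p : a0 ≤ p := by
        have h2 : Q * 1 ≤ p := (Nat.mul_le_mul_left Q hJ).trans hQJ
        have h3 : (Q : ℤ) ≤ p := by
          have : Q ≤ p := by omega
          exact_mod_cast this
        linarith
      simp only
      rw [h1, mem_coe, mem_filter]
      have hnotdvd : ∀ r : ℕ, r.Prime → K < r → r ≤ z → ¬ (r : ℤ) ∣ n := by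
        intro r hr hr1 hr2
        exact hn4 r (mem_Ioc.mpr ⟨hr1, hr2⟩) hr
      refine ⟨?_, ?_⟩
      · rw [hU, mem_filter]
        refine ⟨?_, ?_⟩
        · unfold BB
          rw [mem_filter, mem_Icc]
          refine ⟨?_, ?_⟩
          · -- |t| ≤ M
            have hdm := Nat.div_add_mod H p
            have hml := Nat.mod_lt H hp.pos
            have h6 : H < p * (H / p + 1) := by
              have : p * (H / p + 1) = p * (H / p) + p := by ring
              omega
            have h7 : (H : ℤ) < p * ((H / p : ℕ) + 1 : ℤ) := by exact_mod_cast h6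
            have h8 : ((H / p : ℕ) : ℤ) + 2 ≤ M := by exact_mod_cast hM
            have h9 : (p : ℤ) * t ≤ H := by linarith
            have h10 : -(H : ℤ) - 2 * p ≤ p * t := by linarith
            constructor
            · by_contra hlt
              push Not at hlt
              have h11 : t ≤ -(M : ℤ) - 1 := by omega
              have h12 : t ≤ -((H / p : ℕ) : ℤ) - 3 := by linarith
              have h13 : (p : ℤ) * t ≤ p * (-((H / p : ℕ) : ℤ) - 3) :=
                mul_le_mul_of_nonneg_left h12 hpp.le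
              nlinarith
            · by_contra hlt
              push Not at hlt
              have h12 : ((H / p : ℕ) : ℤ) + 3 ≤ t := by linarith
              have h13 : (p : ℤ) * (((H / p : ℕ) : ℤ) + 3) ≤ p * t :=
                mul_le_mul_of_nonneg_left h12 hpp.le
              nlinarith
          · intro r hr hrp hrt
            rw [mem_Ioc] at hr
            apply hnotdvd r hrp (by omega) (by omega)
            rw [hn5]
            have e1 : (r : ℤ) ∣ a0 :=
              (Int.natCast_dvd_natCast.mpr (dvd_QQ hrp hr.1 hr.2)).trans hd2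
            have e2 : (r : ℤ) ∣ (Q : ℤ) :=
              Int.natCast_dvd_natCast.mpr (dvd_QQ hrp (by omega) hr.2)
            exact dvd_add (dvd_add e1 (hrt.mul_left _)) (e2.mul_right _)
        · intro r hr hrp hrt
          rw [mem_Ioc] at hr
          apply hnotdvd r hrp hr.1 (by omega)
          have e1 : (r : ℤ) ∣ a0 + p * c :=
            (Int.natCast_dvd_natCast.mpr (dvd_QQ hrp hr.1 hr.2)).trans hd1
          have e2 : (r : ℤ) ∣ (Q : ℤ) :=
            Int.natCast_dvd_natCast.mpr (dvd_QQ hrp hr.1 (by omega))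
          have e3 : n = (a0 + p * c) + p * (t - c) + (Q : ℤ) * (j : ℤ) := by
            rw [hn5]; ring
          rw [e3]
          exact dvd_add (dvd_add e1 (hrt.mul_left _)) (e2.mul_right _)
      · intro r hr hrp
        rw [mem_Ioc] at hr
        rw [← hn5]
        exact hnotdvd r hrp (by omega) (by omega)
    · intro n hn n' hn' hnn
      rw [mem_coe, mem_filter] at hn hn'
      obtain ⟨-, t, ht⟩ := hn
      obtain ⟨-, t', ht'⟩ := hn'
      simp only at hnn
      rw [ht, ht', Int.mul_ediv_cancel_left t hpp.ne', Int.mul_ediv_cancel_left t' hpp.ne'] at hnn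
      rw [hnn] at ht
      linarith
  -- the sieve bound
  set B : ℝ := J / (VV 0 R * Real.log R₁) + (R₁ : ℝ) ^ 6 with hB
  have hsum : ∑ j ∈ Finset.Icc 1 J,
      (((BB K z H).filter (fun n => (p : ℤ) ∣ n - (a0 + (Q : ℤ) * (j : ℤ)))).card : ℝ) ≤
      U.card * B := by
    calc ∑ j ∈ Finset.Icc 1 J,
        (((BB K z H).filter (fun n => (p : ℤ) ∣ n - (a0 + (Q : ℤ) * (j : ℤ)))).card : ℝ)
        ≤ ∑ j ∈ Finset.Icc 1 J, ((U.filter (fun t => ∀ r ∈ Finset.Ioc R R₁, r.Prime →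
          ¬ (r : ℤ) ∣ (a0 + p * t) + (Q : ℤ) * (j : ℤ))).card : ℝ) := by
          apply Finset.sum_le_sum
          intro j hj
          exact_mod_cast hcount j hj
      _ = ∑ t ∈ U, (((Finset.Icc 1 J).filter (fun j : ℕ => ∀ r ∈ Finset.Ioc R R₁, r.Prime →
          ¬ (r : ℤ) ∣ (a0 + p * t) + (Q : ℤ) * (j : ℤ))).card : ℝ) := by
          simp only [Finset.card_filter]
          push_cast
          rw [Finset.sum_comm]
      _ ≤ ∑ _t ∈ U, B := by
          apply Finset.sum_le_sum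
          intro t _
          exact V R R₁ J Q (a0 + p * t) hR hR₁ (fun r hr h1 _ h3 => by
            have := of_dvd_QQ hr h3
            omega)
      _ = U.card * B := by rw [Finset.sum_const, nsmul_eq_mul]
  have hJ0 : (0 : ℝ) < J := by exact_mod_cast hJ
  have hne : (Finset.Icc 1 J).Nonempty := ⟨1, mem_Icc.mpr ⟨le_rfl, hJ⟩⟩
  have hsum2 : ∑ j ∈ Finset.Icc 1 J,
      (((BB K z H).filter (fun n => (p : ℤ) ∣ n - (a0 + (Q : ℤ) * (j : ℤ)))).card : ℝ) ≤
      ∑ _j ∈ Finset.Icc 1 J, (U.card : ℝ) * (B / J) := by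
    rw [Finset.sum_const, Nat.card_Icc, nsmul_eq_mul, Nat.add_sub_cancel]
    refine hsum.trans (le_of_eq ?_)
    field_simp
  obtain ⟨j, -, hj⟩ := Finset.exists_le_of_sum_le hne hsum2
  refine ⟨a0 + (Q : ℤ) * (j : ℤ), hj.trans ?_⟩
  have hB0 : 0 ≤ B / J := by
    have h1 : 0 ≤ VV 0 R := by
      unfold VV
      apply Finset.prod_nonneg
      intro q hq
      have h3 : (1 : ℝ) < q := by exact_mod_cast (mem_filter.mp hq).2.one_lt
      rw [sub_nonneg, div_le_one (by linarith)]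
      exact h3.le
    have h2 : 0 ≤ Real.log R₁ := Real.log_nonneg (by exact_mod_cast (by omega : 1 ≤ R₁))
    rw [hB]
    positivity
  have hfin : B / J = 1 / (VV 0 R * Real.log R₁) + (R₁ : ℝ) ^ 6 / J := by
    rw [hB, add_div]
    congr 1
    rw [div_div, mul_comm, ← div_div, div_self hJ0.ne']
  rw [← hfin]
  exact mul_le_mul_of_nonneg_right hc hB0

end Pool.Agent.H61.Adm
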