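import Pool.Agent.H61.Adm.Defs

/-!
# From the sieve of an interval to a long admissible set
-/

set_option autoImplicit false

namespace Pool.Agent.H61.Adm

open Finset

/-- The lower bound for `h_m(k)` from the sieve of `[-H, H]`. -/
theorem greedy (S : ShiftSt) (C : CrtSt) : GreedySt := by
  classical
  intro K z H k η hK hz hH hη
  obtain ⟨c, hc⟩ := (S (BB K z H) 0 K).2
  set A : Finset ℤ := (BB K z H).filter
    (fun t => ∀ p ∈ Finset.Ioc 0 K, p.Prime → ¬ (p : ℤ) ∣ t - c) with hA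
  have hch : ∀ p : ℕ, ∃ a : ℤ, p ∈ (Finset.Ioc z k).filter Nat.Prime →
      (((BB K z H).filter (fun n => (p : ℤ) ∣ n - a)).card : ℝ) ≤ η p := by
    intro p
    by_cases hp : p ∈ (Finset.Ioc z k).filter Nat.Prime
    · rw [mem_filter] at hp
      obtain ⟨a, ha⟩ := hη p hp.1 hp.2
      exact ⟨a, fun _ => ha⟩
    · exact ⟨0, fun h => absurd h hp⟩
  choose f hf using hch
  obtain ⟨m, hm⟩ := C k (-(H : ℤ) - 1) (fun p => if p ≤ K then c else if p ≤ z then 0 else f p)
  refine ⟨m, ?_⟩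
  set U : Finset ℤ := ((Finset.Ioc z k).filter Nat.Prime).biUnion
    (fun p => (BB K z H).filter (fun n => (p : ℤ) ∣ n - f p)) with hU
  have hsub : A \ U ⊆ (Finset.Ioc (-(H : ℤ) - 1) (-(H : ℤ) - 1 + k)).filter
      (fun n => ∀ p ∈ Finset.Icc 1 k, p.Prime →
        ¬ (p : ℤ) ∣ n - (if p ≤ K then c else if p ≤ z then 0 else f p)) := by
    intro n hn
    rw [mem_sdiff] at hn
    obtain ⟨hnA, hnU⟩ := hn
    rw [hA, mem_filter] at hnA
    obtain ⟨hnB, hnc⟩ := hnA
    have hnB' := hnB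
    unfold BB at hnB'
    rw [mem_filter, mem_Icc] at hnB'
    obtain ⟨⟨h1, h2⟩, h3⟩ := hnB'
    rw [mem_filter, mem_Ioc]
    refine ⟨⟨by omega, by omega⟩, ?_⟩
    intro p hp hpp
    rw [mem_Icc] at hp
    by_cases hpK : p ≤ K
    · rw [if_pos hpK]
      exact hnc p (mem_Ioc.2 ⟨by omega, hpK⟩) hpp
    · rw [if_neg hpK]
      by_cases hpz : p ≤ z
      · rw [if_pos hpz, sub_zero]
        exact h3 p (mem_Ioc.2 ⟨by omega, hpz⟩) hpp
      · rw [if_neg hpz]
        intro hd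
        apply hnU
        rw [hU, mem_biUnion]
        exact ⟨p, mem_filter.2 ⟨mem_Ioc.2 ⟨by omega, hp.2⟩, hpp⟩, mem_filter.2 ⟨hnB, hd⟩⟩
  have h1 : (A \ U).card ≤ hh m k := (card_le_card hsub).trans hm
  have h2 : A.card ≤ (A \ U).card + U.card := by
    have := card_le_card_sdiff_add_card (s := A) (t := U)
    omega
  have h3 : (U.card : ℝ) ≤ ∑ p ∈ (Finset.Ioc z k).filter Nat.Prime, η p := by
    have h4 : U.card ≤ ∑ p ∈ (Finset.Ioc z k).filter Nat.Prime,
        ((BB K z H).filter (fun n => (p : ℤ) ∣ n - f p)).card := card_biUnion_le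
    calc (U.card : ℝ) ≤ ((∑ p ∈ (Finset.Ioc z k).filter Nat.Prime,
        ((BB K z H).filter (fun n => (p : ℤ) ∣ n - f p)).card : ℕ) : ℝ) := by exact_mod_cast h4
      _ = ∑ p ∈ (Finset.Ioc z k).filter Nat.Prime,
        (((BB K z H).filter (fun n => (p : ℤ) ∣ n - f p)).card : ℝ) := by push_cast; rfl
      _ ≤ _ := sum_le_sum fun p hp => hf p hp
  have h5 : (A.card : ℝ) ≤ (A \ U).card + U.card := by exact_mod_cast h2
  have h6 : ((A \ U).card : ℝ) ≤ hh m k := by exact_mod_cast h1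
  linarith

end Pool.Agent.H61.Adm
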