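import Pool.Agent.H61.Adm.LossA

/-!
# The loss estimate
-/

set_option autoImplicit false

namespace Pool.Agent.H61.Adm

open Finset Filter

namespace Loss

open LossA

/-- the class with few elements, for one prime -/
theorem one_prime {Cc cv : ℝ} (hCc : 0 < Cc) (hcv : 0 < cv)
    (hch : ∀ n : ℕ, 2 ≤ n → (Nat.primeCounting n : ℝ) ≤ Cc * n / Real.log n)
    (hv : ∀ R : ℕ, 2 ≤ R → cv / Real.log R ≤ VV 0 R)
    (hvu : ∀ R : ℕ, 2 ≤ R → VV 0 R ≤ 1 / Real.log R)
    (G : GoodSt) (S : SmoothSt) (U : BBUpperSt) {C1 c2 ε l C2 : ℝ} (E : Num C1 c2 ε l)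
    (hC2 : 1 ≤ C2) (K z H p : ℕ) (k : ℝ)
    (hk : k = Real.exp (Real.exp l)) (hK : 2 ≤ K) (hKl : (K : ℝ) ≤ l ^ (1 / 4 : ℝ))
    (hz1 : Real.exp (3 / 4 * Real.exp l) ≤ z)
    (hz2 : k / (Real.exp l * Real.exp (l ^ (1 / 3 : ℝ))) < z + 1)
    (hH : (H : ℝ) ≤ k / 2) (hp : p.Prime) (hzp : z < p)
    (hpP : (p : ℝ) ≤ C2 * (1 + Real.log l) * (k / Real.exp l)) :
    ∃ a : ℤ, (((BB K z H).filter (fun n => (p : ℤ) ∣ n - a)).card : ℝ) ≤
      (2 / cv * (8 * Cc + 3) * (48 / cv + 1) * (1 + 2 * C2)) * (1 + Real.log l) ^ 2 *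
        l ^ (-(1 / 2) : ℝ) * (k / Real.exp l) * (1 / p) := by
  have hl := E.n1
  have hl0 : 0 < l := by linarith
  have hL0 : 0 < Real.exp l := Real.exp_pos l
  have h7L : l + 1 ≤ Real.exp l := Real.add_one_le_exp l
  set L := Real.exp l with hL
  set c := l ^ (1 / 3 : ℝ) with hc
  have hc5 : 5 ≤ c := by
    have : (5 : ℝ) = 125 ^ (1 / 3 : ℝ) := by
      rw [show (125 : ℝ) = 5 ^ (3 : ℝ) by norm_num, ← Real.rpow_mul (by norm_num)]
      norm_num
    rw [hc, this]
    exact Real.rpow_le_rpow (by norm_num) hl (by norm_num)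
  have hlogl : 0 ≤ Real.log l := Real.log_nonneg (by linarith)
  set lam := 1 + Real.log l with hlam
  have hlam1 : 1 ≤ lam := by linarith
  have hk0 : 0 < k := by rw [hk]; exact Real.exp_pos _
  have hexpc : 1 ≤ Real.exp c := Real.one_le_exp (by linarith)
  -- powers of l
  have h56 : 4 ≤ l ^ (5 / 6 : ℝ) := by
    have h1 : c ≤ l ^ (5 / 6 : ℝ) := Real.rpow_le_rpow_of_exponent_le (by linarith) (by norm_num)
    linarith
  have h14 : l ^ (1 / 4 : ℝ) ≤ c := Real.rpow_le_rpow_of_exponent_le (by linarith) (by norm_num)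
  have h1456 : c ≤ l ^ (5 / 6 : ℝ) := Real.rpow_le_rpow_of_exponent_le (by linarith) (by norm_num)
  -- parameters
  set R := ⌊L / 8⌋₊ with hRd
  set R₁ := ⌊Real.exp (L / 24)⌋₊ with hR₁d
  set J := ⌊Real.exp (L / 2)⌋₊ with hJd
  set w := ⌊Real.exp (l ^ (5 / 6 : ℝ))⌋₊ with hwd
  set M := H / p + 2 + ⌈L⌉₊ with hMd
  have hp0 : (0 : ℝ) < p := by exact_mod_cast hp.pos
  have hLbig : 126 ≤ L := by linarith
  obtain ⟨w1, w2, w3, w4⟩ := floor_exp (x := l ^ (5 / 6 : ℝ)) (by linarith)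
  have hR8 : (R : ℝ) ≤ L / 8 := Nat.floor_le (by positivity)
  have hR8' : L / 8 < R + 1 := Nat.lt_floor_add_one _
  have hR16 : L / 16 ≤ R := by linarith
  have hL24 : 2 ≤ L / 24 := by linarith
  obtain ⟨r1, r2, r3, r4⟩ := floor_exp (x := L / 24) hL24
  obtain ⟨j1, j2, j3, j4⟩ := floor_exp (x := L / 2) (by linarith)
  have hR2 : 2 ≤ R := by
    have : (2 : ℝ) ≤ R := by linarith
    exact_mod_cast this
  have hR₁2 : 2 ≤ R₁ := by
    have h1 : L / 24 + 1 ≤ Real.exp (L / 24) := Real.add_one_le_exp _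
    exact Nat.le_floor (by push_cast; linarith)
  have hKw : K ≤ w := by
    have h1 : (K : ℝ) ≤ Real.exp (l ^ (5 / 6 : ℝ)) := by
      have := Real.add_one_le_exp (l ^ (5 / 6 : ℝ))
      linarith
    exact Nat.le_floor h1
  have hwR : w ≤ R := by
    have h1 : (w : ℝ) ≤ L / 16 := w3.trans E.n6
    have h2 : (w : ℝ) ≤ R := by linarith
    exact_mod_cast h2
  have hzbig : L + 1 ≤ z := by
    have := Real.quadratic_le_exp_of_nonneg (show 0 ≤ 3 / 4 * L by positivity)
    nlinarith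
  have hRz : R ≤ z := by
    have : (R : ℝ) ≤ z := by linarith
    exact_mod_cast this
  have hR₁z : R₁ ≤ z := by
    have h1 : Real.exp (L / 24) ≤ Real.exp (3 / 4 * L) := Real.exp_le_exp.2 (by linarith)
    have : (R₁ : ℝ) ≤ z := by linarith
    exact_mod_cast this
  have hJ1 : 1 ≤ J := Nat.le_floor (by push_cast; exact Real.one_le_exp (by positivity))
  have hzp' : (z : ℝ) + 1 ≤ p := by exact_mod_cast hzp
  have hJp : J * 4 ^ R ≤ p := by
    have h1 : (J : ℝ) * 4 ^ R ≤ p := by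
      have h2 : (4 : ℝ) ^ R ≤ Real.exp (L / 4) := by
        rw [← Real.rpow_natCast, Real.rpow_def_of_pos (by norm_num)]
        apply Real.exp_le_exp.2
        have h4 : Real.log 4 ≤ 2 := by
          rw [show (4 : ℝ) = 2 ^ 2 by norm_num, Real.log_pow]
          have := Real.log_two_lt_d9
          push_cast; linarith
        have h5 : 0 ≤ Real.log 4 := Real.log_nonneg (by norm_num)
        nlinarith
      have h3 : (J : ℝ) * 4 ^ R ≤ Real.exp (L / 2) * Real.exp (L / 4) := by gcongr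
      rw [← Real.exp_add] at h3
      have h4 : L / 2 + L / 4 = 3 / 4 * L := by ring
      rw [h4] at h3
      linarith
    exact_mod_cast h1
  -- bounds for M
  have hceil : (⌈L⌉₊ : ℝ) < L + 1 := Nat.ceil_lt_add_one hL0.le
  have hceil' : L ≤ (⌈L⌉₊ : ℝ) := Nat.le_ceil _
  have hMr : (M : ℝ) = ((H / p : ℕ) : ℝ) + 2 + (⌈L⌉₊ : ℝ) := by rw [hMd]; push_cast; ring
  have hHp0 : (0 : ℝ) ≤ ((H / p : ℕ) : ℝ) := Nat.cast_nonneg _
  have hHp : ((H / p : ℕ) : ℝ) ≤ k / 2 / p := by
    refine Nat.cast_div_le.trans ?_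
    gcongr
  have hM1 : L ≤ M := by linarith
  have hM2 : (M : ℝ) ≤ 2 * L * Real.exp c := by
    have h1 : k / 2 / p ≤ L * Real.exp c / 2 := by
      have h2 : k ≤ L * Real.exp c * p := by
        rw [div_lt_iff₀ (by positivity)] at hz2
        have h3 : ((z : ℝ) + 1) * (L * Real.exp c) ≤ p * (L * Real.exp c) :=
          mul_le_mul_of_nonneg_right hzp' (by positivity)
        linarith
      rw [div_le_iff₀ hp0]
      linarith
    have h4 : L * 1 ≤ L * Real.exp c := by gcongr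
    have h5 : 5 + 1 ≤ Real.exp c := by
      have := Real.add_one_le_exp c
      linarith
    have h6 : L * (5 + 1) ≤ L * Real.exp c := by gcongr
    linarith
  have hM3 : (M : ℝ) ≤ (1 + 2 * C2) * lam * (k / p) := by
    have h1 : L ≤ C2 * lam * (k / p) := by
      have h2 : p * L ≤ C2 * lam * k := by
        have h3 : C2 * lam * (k / L) * L = C2 * lam * k := by field_simp
        have h4 := mul_le_mul_of_nonneg_right hpP hL0.le
        rw [h3] at h4
        exact h4
      have h5 : C2 * lam * (k / p) = C2 * lam * k / p := by ring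
      rw [h5, le_div_iff₀ hp0]
      linarith
    have h6 : k / 2 / p ≤ lam * (k / p) / 2 := by
      have h7 : 1 * (k / p) ≤ lam * (k / p) := by gcongr
      have h8 : k / 2 / p = 1 * (k / p) / 2 := by ring
      rw [h8]; linarith
    have h9 : 0 ≤ lam * (k / p) := by positivity
    nlinarith
  -- the three factors
  have hw2 : 2 ≤ Real.log w := by linarith
  have hwM : w ≤ M := by
    have h1 : (w : ℝ) ≤ M := by
      have := w3.trans E.n6
      linarith
    exact_mod_cast h1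
  have f1 := VV_Kw hcv hv hvu (by linarith : (1 : ℝ) ≤ l) K w hK hKl hKw w2
  have f2 := window hCc hch S U E w R M hR16 hR8' hw2 w4 hwM hM1 hM2
  have hlR : Real.log R ≤ l := by
    have h1 : Real.log R ≤ Real.log L := Real.log_le_log (by linarith) (by linarith)
    rwa [hL, Real.log_exp] at h1
  have f3 := sfac hcv hv (by linarith : (1 : ℝ) ≤ l) hL0 R R₁ J hR2 hlR (by linarith) r3 j1 E.n9
  obtain ⟨a, ha⟩ := G K w R R₁ z H M p J hR2 hR₁2 hKw hwR (by omega) hRz hR₁z (by omega) hp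
    (by omega) hJ1 hJp
  refine ⟨a, ha.trans ?_⟩
  have g1 : 0 ≤ VV K w := Gain.VV_nonneg K w
  have g2 : (0 : ℝ) ≤ ((BB w R M).card : ℝ) := Nat.cast_nonneg _
  have g3 : 0 ≤ 1 / (VV 0 R * Real.log R₁) + (R₁ : ℝ) ^ 6 / J := by
    have := Gain.VV_nonneg 0 R
    have : 0 ≤ Real.log R₁ := Real.log_natCast_nonneg _
    positivity
  have hl1 : l ^ (-(5 / 6) : ℝ) * l ^ (-(2 / 3) : ℝ) * l = l ^ (-(1 / 2) : ℝ) := by
    rw [← Real.rpow_add hl0, ← Real.rpow_add_one hl0.ne']; norm_num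
  calc VV K w * ((BB w R M).card : ℝ) * (1 / (VV 0 R * Real.log R₁) + (R₁ : ℝ) ^ 6 / J)
      ≤ (2 / cv * lam * l ^ (-(5 / 6) : ℝ)) * ((8 * Cc + 3) * M * l ^ (-(2 / 3) : ℝ)) *
          ((48 / cv + 1) * (l / L)) := by gcongr
    _ ≤ (2 / cv * lam * l ^ (-(5 / 6) : ℝ)) * ((8 * Cc + 3) * ((1 + 2 * C2) * lam * (k / p)) *
          l ^ (-(2 / 3) : ℝ)) * ((48 / cv + 1) * (l / L)) := by gcongr
    _ = (2 / cv * (8 * Cc + 3) * (48 / cv + 1) * (1 + 2 * C2)) * lam ^ 2 *
        (l ^ (-(5 / 6) : ℝ) * l ^ (-(2 / 3) : ℝ) * l) * (k / L) * (1 / p) := by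
        field_simp
    _ = _ := by rw [hl1]

/-- the sum over the primes -/
theorem sum_primes {c2 C1 ε l C2 : ℝ} (E : Num C1 c2 ε l)
    (hm2 : ∀ m n : ℕ, 2 ≤ m → m ≤ n →
      |∑ p ∈ (Finset.Ioc m n).filter Nat.Prime, 1 / (p : ℝ) - Real.log (Real.log n / Real.log m)| ≤
        c2 / Real.log m) (hC2 : 1 ≤ C2) (hC12 : C2 ≤ C1) (z : ℕ) (k : ℝ)
    (hk : k = Real.exp (Real.exp l)) (hz1 : Real.exp (3 / 4 * Real.exp l) ≤ z)
    (hz2 : k / (Real.exp l * Real.exp (l ^ (1 / 3 : ℝ))) < z + 1) :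
    ∑ p ∈ (Finset.Ioc z ⌊C2 * (1 + Real.log l) * (k / Real.exp l)⌋₊).filter Nat.Prime, 1 / (p : ℝ) ≤
      5 * l ^ (1 / 3 : ℝ) / Real.exp l := by
  have hl := E.n1
  have hl0 : 0 < l := by linarith
  have hL0 : 0 < Real.exp l := Real.exp_pos l
  have h7L : l + 1 ≤ Real.exp l := Real.add_one_le_exp l
  set L := Real.exp l with hL
  set c := l ^ (1 / 3 : ℝ) with hc
  have hc0 : 0 ≤ c := by positivity
  have hlogl : 0 ≤ Real.log l := Real.log_nonneg (by linarith)
  set lam := 1 + Real.log l with hlam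
  have hlam1 : 1 ≤ lam := by linarith
  have hk0 : 0 < k := by rw [hk]; exact Real.exp_pos _
  have hC20 : 0 < C2 := by linarith
  have hlam0 : 0 < lam := by linarith
  set P := C2 * lam * (k / L) with hP
  have hP0 : 0 < P := by positivity
  set n := ⌊P⌋₊ with hn
  have hzbig : 3 ≤ (z : ℝ) := by
    have := Real.add_one_le_exp (3 / 4 * L)
    linarith
  have hz0 : (0 : ℝ) < z := by linarith
  have hz2' : 2 ≤ z := by
    have : (2 : ℝ) ≤ z := by linarith
    exact_mod_cast this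
  rcases le_or_gt z n with hzn | hzn
  swap
  · rw [Finset.Ioc_eq_empty (by omega), filter_empty, sum_empty]
    positivity
  have h1 := (abs_le.1 (hm2 z n hz2' hzn)).2
  have hlz : L / 2 ≤ Real.log z := by
    rw [Real.le_log_iff_exp_le hz0]
    refine le_trans (Real.exp_le_exp.2 ?_) hz1
    linarith
  have hlz0 : 0 < Real.log z := by linarith
  have hlogz : L - l - c - Real.log 2 ≤ Real.log z := by
    have h2 : k / (L * Real.exp c) / 2 ≤ z := by linarith
    have h3 : Real.log (k / (L * Real.exp c) / 2) ≤ Real.log z := Real.log_le_log (by positivity) h2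
    rw [Real.log_div (by positivity) (by norm_num), Real.log_div hk0.ne' (by positivity),
      Real.log_mul hL0.ne' (Real.exp_pos c).ne', Real.log_exp, hk, Real.log_exp, hL,
      Real.log_exp] at h3
    rw [hL]; linarith
  have hzn' : (z : ℝ) ≤ n := by exact_mod_cast hzn
  have hlogn : Real.log n ≤ Real.log C2 + Real.log lam + L - l := by
    have h2 : (n : ℝ) ≤ P := Nat.floor_le hP0.le
    have h3 : Real.log n ≤ Real.log P := Real.log_le_log (by linarith) h2
    rw [hP, Real.log_mul (by positivity) (by positivity), Real.log_mul (by positivity) (by positivity),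
      Real.log_div hk0.ne' hL0.ne', hk, Real.log_exp] at h3
    rw [hL, Real.log_exp] at h3
    rw [hL]; linarith
  have hlC : Real.log C2 ≤ Real.log C1 := Real.log_le_log (by linarith) hC12
  have hdiff : Real.log n - Real.log z ≤ 2 * c := by
    have := E.n11
    have h4 : Real.log (1 + Real.log l) = Real.log lam := by rw [hlam]
    rw [h4] at this
    have h5 : l ^ (1 / 3 : ℝ) = c := rfl
    rw [h5] at this
    linarith
  have hlogn0 : Real.log z ≤ Real.log n := Real.log_le_log hz0 hzn'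
  have h6 : Real.log (Real.log n / Real.log z) ≤ 4 * c / L := by
    have h7 := Real.log_le_sub_one_of_pos (show 0 < Real.log n / Real.log z from div_pos (by linarith) hlz0)
    have h8 : Real.log n / Real.log z - 1 = (Real.log n - Real.log z) / Real.log z := by
      field_simp
    rw [h8] at h7
    refine h7.trans ?_
    calc (Real.log n - Real.log z) / Real.log z ≤ 2 * c / (L / 2) := by
          apply div_le_div₀ (by positivity) hdiff (by positivity) hlz
      _ = _ := by ring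
  have h9 : c2 / Real.log z ≤ c / L := by
    have h10 := E.n13
    have h5 : l ^ (1 / 3 : ℝ) = c := rfl
    rw [h5] at h10
    rw [div_le_div_iff₀ hlz0 hL0]
    have : c * (L / 2) ≤ c * Real.log z := by gcongr
    nlinarith
  calc ∑ p ∈ (Finset.Ioc z n).filter Nat.Prime, 1 / (p : ℝ) ≤
        Real.log (Real.log n / Real.log z) + c2 / Real.log z := by linarith
    _ ≤ 4 * c / L + c / L := by linarith
    _ = _ := by ring

end Loss

/-- The loss estimate, from the numerical facts. -/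
theorem loss_of (hNum : ∀ C1 c2 ε : ℝ, 0 < C1 → 0 < ε → ∀ᶠ l : ℝ in atTop, LossA.Num C1 c2 ε l)
    (G : GoodSt) (U : BBUpperSt) (M : MertSt) (S : SmoothSt) : LossSt := by
  intro ε hε
  obtain ⟨Cc, hCc, hch⟩ := M.cheb
  obtain ⟨cv, hcv, hv⟩ := M.vlow
  obtain ⟨c2, -, hm2⟩ := M.m2
  have hvu := M.vup
  set C2 := 2 * Cc / cv + 1 with hC2d
  have hC2 : 1 ≤ C2 := by
    have : 0 < 2 * Cc / cv := by positivity
    linarith
  set C5 := 2 / cv * (8 * Cc + 3) * (48 / cv + 1) * (1 + 2 * C2) with hC5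
  have hC50 : 0 < C5 := by positivity
  set C1 := C2 + 5 * C5 with hC1
  have hev := Asym.tL2.eventually (hNum C1 c2 ε (by positivity) hε)
  obtain ⟨k₀, hk₀⟩ := eventually_atTop.1 hev
  refine ⟨k₀, fun k hk K hK hKl => ?_⟩
  have E := hk₀ k hk
  set l := L2 k with hl
  have hln := E.n1
  have hl0 : 0 < l := by linarith
  have hL0 : 0 < L1 k := by
    by_contra hc
    push Not at hc
    have h1 : l ≤ 0 := by
      rw [hl, L2]
      rcases le_or_gt 0 (Real.log k) with h2 | h2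
      · have h3 : Real.log k = 0 := le_antisymm hc h2
        rw [h3, Real.log_zero]
      · exact absurd (Real.log_natCast_nonneg k) (by linarith)
    linarith
  have hLl : L1 k = Real.exp l := by
    rw [hl, L2, Real.exp_log]
    · rfl
    · exact hL0
  have hk0 : (0 : ℝ) < k := by
    by_contra hc
    have : (k : ℝ) = 0 := le_antisymm (not_lt.1 hc) (Nat.cast_nonneg k)
    rw [L1, this, Real.log_zero] at hL0
    exact lt_irrefl _ hL0
  have hkexp : (k : ℝ) = Real.exp (Real.exp l) := by rw [← hLl, L1, Real.exp_log hk0]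
  set z := zz k with hz
  set H := (k - 1) / 2 with hH
  have hzdef : z = ⌊(k : ℝ) / (Real.exp l * Real.exp (l ^ (1 / 3 : ℝ)))⌋₊ := by
    rw [hz, zz, hLl]
  have hz2 : (k : ℝ) / (Real.exp l * Real.exp (l ^ (1 / 3 : ℝ))) < z + 1 := by
    rw [hzdef]; exact Nat.lt_floor_add_one _
  have hL := Real.exp_pos l
  have h7L : l + 1 ≤ Real.exp l := Real.add_one_le_exp l
  have hz1 : Real.exp (3 / 4 * Real.exp l) ≤ z := by
    have := E.n3
    rw [← hkexp] at this
    linarith
  have hkbig : Real.exp l + 1 ≤ (k : ℝ) := by rw [hkexp]; exact Real.add_one_le_exp _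
  have hHr : (H : ℝ) ≤ k / 2 := by
    have h1 : (((k - 1) / 2 : ℕ) : ℝ) ≤ ((k - 1 : ℕ) : ℝ) / ((2 : ℕ) : ℝ) := Nat.cast_div_le
    have h2 : ((k - 1 : ℕ) : ℝ) ≤ k := by exact_mod_cast Nat.sub_le k 1
    rw [hH]
    refine h1.trans ?_
    push_cast
    linarith
  have hH3 : 3 ≤ H := by
    have h1 : (10 : ℝ) ≤ k := by linarith
    have h2 : 10 ≤ k := by exact_mod_cast h1
    omega
  have hHz : H < (z + 1) ^ 2 := by
    have h1 : (H : ℝ) < ((z : ℝ) + 1) ^ 2 := by
      have h2 : Real.exp (3 / 4 * Real.exp l) ^ 2 ≤ ((z : ℝ) + 1) ^ 2 := by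
        apply pow_le_pow_left₀ (Real.exp_pos _).le; linarith
      have h3 : (k : ℝ) ≤ Real.exp (3 / 4 * Real.exp l) ^ 2 := by
        rw [hkexp, ← Real.exp_nat_mul]
        apply Real.exp_le_exp.2
        push_cast
        linarith
      linarith
    exact_mod_cast h1
  have hz1' : Real.exp (Real.exp l / 2) ≤ z := by
    refine le_trans (Real.exp_le_exp.2 ?_) hz1
    linarith
  have hT := LossA.total hCc hcv hch hv S U E K z H k hkexp hK hKl hz1' hHr hHz hH3
  set lam := 1 + Real.log l with hlam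
  have hlogl : 0 ≤ Real.log l := Real.log_nonneg (by linarith)
  set P := C2 * lam * ((k : ℝ) / Real.exp l) with hP
  have hP0 : 0 ≤ P := by positivity
  set D := C5 * lam ^ 2 * l ^ (-(1 / 2) : ℝ) * ((k : ℝ) / Real.exp l) with hD
  have hD0 : 0 ≤ D := by positivity
  refine ⟨fun p => if (p : ℝ) ≤ P then D * (1 / p) else 0, fun p hp hpp => ?_, ?_⟩
  · rw [Finset.mem_Ioc] at hp
    by_cases hpP : (p : ℝ) ≤ P
    · simp only [hpP, if_true]
      exact Loss.one_prime hCc hcv hch hv hvu G S U E hC2 K z H p k hkexp hK hKl hz1 hz2 hHr hpp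
        hp.1 hpP
    · simp only [hpP, if_false]
      have h1 : (BB K z H).card < p := by
        have : ((BB K z H).card : ℝ) < p := by
          push Not at hpP
          exact lt_of_le_of_lt hT hpP
        exact_mod_cast this
      obtain ⟨a, ha⟩ := LossA.empty_class (BB K z H) p h1
      exact ⟨a, by rw [ha]; simp⟩
  · have hsum := Loss.sum_primes E hm2 hC2 (by rw [hC1]; linarith) z k hkexp hz1 hz2
    rw [← sum_filter]
    have h1 : ∑ p ∈ ((Finset.Ioc z k).filter Nat.Prime).filter (fun p : ℕ => (p : ℝ) ≤ P), D * (1 / (p : ℝ)) ≤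
        ∑ p ∈ (Finset.Ioc z ⌊P⌋₊).filter Nat.Prime, D * (1 / (p : ℝ)) := by
      refine sum_le_sum_of_subset_of_nonneg ?_ fun p _ _ => by positivity
      intro p hp
      rw [mem_filter, mem_filter, Finset.mem_Ioc] at hp
      rw [mem_filter, Finset.mem_Ioc]
      exact ⟨⟨hp.1.1.1, Nat.le_floor hp.2⟩, hp.1.2⟩
    refine h1.trans ?_
    rw [← mul_sum]
    refine (mul_le_mul_of_nonneg_left hsum hD0).trans ?_
    rw [hLl]
    have h12 := E.n12
    have hpow : l ^ (-(1 / 2) : ℝ) * l ^ (1 / 3 : ℝ) = l ^ (-(1 / 6) : ℝ) := by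
      rw [← Real.rpow_add hl0]; norm_num
    have h2 : D * (5 * l ^ (1 / 3 : ℝ) / Real.exp l) =
        5 * C5 * lam ^ 2 * (l ^ (-(1 / 2) : ℝ) * l ^ (1 / 3 : ℝ)) * k / Real.exp l ^ 2 := by
      rw [hD]; field_simp
    rw [h2, hpow]
    have h3 : 5 * C5 * lam ^ 2 * l ^ (-(1 / 6) : ℝ) ≤ ε := by
      refine le_trans ?_ h12
      have : 5 * C5 ≤ C1 := by rw [hC1]; linarith
      gcongr
    have h4 : 5 * C5 * lam ^ 2 * l ^ (-(1 / 6) : ℝ) * k / Real.exp l ^ 2 =
        (5 * C5 * lam ^ 2 * l ^ (-(1 / 6) : ℝ)) * (k / Real.exp l ^ 2) := by ring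
    rw [h4, mul_div_assoc]
    gcongr

end Pool.Agent.H61.Adm
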