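import Pool.Agent.H61.Adm.LossA

/-!
# The numerical facts of the loss estimate hold eventually
-/

set_option autoImplicit false

namespace Pool.Agent.H61.Adm.LossN

open Filter

theorem loglog (A : ℝ) : ∀ᶠ l : ℝ in atTop,
    A + Real.log (1 + Real.log l) + Real.log 2 ≤ l ^ (1 / 3 : ℝ) := by
  filter_upwards [Asym.rpow_log (show (0 : ℝ) < 1 / 3 by norm_num) (by norm_num) 1 (by norm_num)
    (A + Real.log 2) 1, eventually_ge_atTop 1] with l h1 h2
  rw [Real.rpow_zero, one_mul, one_mul, one_mul] at h1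
  have h3 : 0 ≤ Real.log l := Real.log_nonneg h2
  have h4 : Real.log (1 + Real.log l) ≤ Real.log l := by
    have := Real.log_le_sub_one_of_pos (show 0 < 1 + Real.log l by linarith)
    linarith
  have h5 : Real.log l ≤ Real.log (12 * l) := Real.log_le_log (by linarith) (by linarith)
  linarith

theorem l5 : ∀ᶠ l : ℝ in atTop,
    Real.log 3 + l ^ (1 / 4 : ℝ) * (Real.log 6 + l) ≤ Real.exp l / 2 := by
  filter_upwards [eventually_ge_atTop 24] with l hl
  have h0 : 0 < l := by linarith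
  have h1 : l ^ (1 / 4 : ℝ) ≤ l := by
    conv_rhs => rw [← Real.rpow_one l]
    exact Real.rpow_le_rpow_of_exponent_le (by linarith) (by norm_num)
  have h3 : Real.log 6 ≤ 5 := by
    have := Real.log_le_sub_one_of_pos (show (0 : ℝ) < 6 by norm_num)
    linarith
  have h4 : Real.log 3 ≤ 2 := by
    have := Real.log_le_sub_one_of_pos (show (0 : ℝ) < 3 by norm_num)
    linarith
  have h6 : 0 ≤ Real.log 6 := Real.log_nonneg (by norm_num)
  have h5 : l ^ (1 / 4 : ℝ) * (Real.log 6 + l) ≤ l * (5 + l) := by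
    apply mul_le_mul h1 (by linarith) (by positivity) h0.le
  have h7 : l ^ 3 / 6 ≤ Real.exp l := by
    have := Real.pow_div_factorial_le_exp l h0.le 3
    norm_num [Nat.factorial] at this
    linarith
  have h8 : 24 * (l * l) ≤ l ^ 3 := by
    have : l ^ 3 = l * (l * l) := by ring
    rw [this]
    exact mul_le_mul_of_nonneg_right hl (by positivity)
  have h9 : 24 * l ≤ l * l := mul_le_mul_of_nonneg_right hl h0.le
  have h10 : l * (5 + l) = 5 * l + l * l := by ring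
  linarith

theorem l6 : ∀ᶠ l : ℝ in atTop, Real.exp (l ^ (5 / 6 : ℝ)) ≤ Real.exp l / 16 := by
  filter_upwards [Asym.rpow_log (show (5 / 6 : ℝ) < 1 by norm_num) (by norm_num) 1 (by norm_num)
    (Real.log 16) 1, eventually_ge_atTop 1] with l h1 h2
  rw [Real.rpow_one, one_mul, one_mul] at h1
  have h3 : 1 ≤ Real.log (12 * l) := by
    rw [Real.le_log_iff_exp_le (by positivity)]
    have := Real.exp_one_lt_d9
    linarith
  have h4 : l ^ (5 / 6 : ℝ) ≤ l ^ (5 / 6 : ℝ) * Real.log (12 * l) :=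
    le_mul_of_one_le_right (by positivity) h3
  rw [le_div_iff₀ (by norm_num)]
  have h5 : Real.exp (l ^ (5 / 6 : ℝ)) * 16 = Real.exp (l ^ (5 / 6 : ℝ) + Real.log 16) := by
    rw [Real.exp_add, Real.exp_log (by norm_num)]
  rw [h5]
  exact Real.exp_le_exp.2 (by linarith)

theorem l7 : ∀ᶠ l : ℝ in atTop,
    Real.exp (-(l ^ (1 / 6 : ℝ))) * (1 + l ^ (5 / 6 : ℝ)) ^ 36 ≤ l ^ (-(2 / 3) : ℝ) := by
  filter_upwards [Asym.rpow_log (show (0 : ℝ) < 1 / 6 by norm_num) (by norm_num) 1 (by norm_num)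
    (36 * Real.log 2) 31, eventually_ge_atTop 1] with l h1 h2
  have h0 : 0 < l := by linarith
  rw [Real.rpow_zero, one_mul, one_mul] at h1
  have h3 : 0 ≤ Real.log l := Real.log_nonneg h2
  have h5 : Real.log l ≤ Real.log (12 * l) := Real.log_le_log (by linarith) (by linarith)
  have h6 : 1 + l ^ (5 / 6 : ℝ) ≤ 2 * l ^ (5 / 6 : ℝ) := by
    have := Real.one_le_rpow h2 (show (0 : ℝ) ≤ 5 / 6 by norm_num)
    linarith
  have h7 : (1 + l ^ (5 / 6 : ℝ)) ^ 36 ≤ (2 * l ^ (5 / 6 : ℝ)) ^ 36 :=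
    pow_le_pow_left₀ (by positivity) h6 _
  have h8 : (2 * l ^ (5 / 6 : ℝ)) ^ 36 = Real.exp (36 * Real.log 2 + 30 * Real.log l) := by
    rw [mul_pow, ← Real.rpow_natCast (l ^ (5 / 6 : ℝ)) 36, ← Real.rpow_mul h0.le, Real.exp_add]
    congr 1
    · rw [mul_comm, Real.exp_mul, Real.exp_log (by norm_num)]; norm_num
    · rw [Real.rpow_def_of_pos h0]; congr 1; push_cast; ring
  have h9 : l ^ (-(2 / 3) : ℝ) = Real.exp (-(2 / 3) * Real.log l) := by
    rw [Real.rpow_def_of_pos h0]; congr 1; ring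
  rw [h9]
  calc Real.exp (-(l ^ (1 / 6 : ℝ))) * (1 + l ^ (5 / 6 : ℝ)) ^ 36
      ≤ Real.exp (-(l ^ (1 / 6 : ℝ))) * Real.exp (36 * Real.log 2 + 30 * Real.log l) := by
        rw [← h8]; gcongr
    _ = Real.exp (-(l ^ (1 / 6 : ℝ)) + (36 * Real.log 2 + 30 * Real.log l)) := by
        rw [← Real.exp_add]
    _ ≤ _ := Real.exp_le_exp.2 (by linarith)

theorem l8 : ∀ᶠ l : ℝ in atTop, l ^ (2 / 3 : ℝ) ≤ Real.exp l := by
  filter_upwards [eventually_ge_atTop 1] with l h2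
  have h1 : l ^ (2 / 3 : ℝ) ≤ l := by
    conv_rhs => rw [← Real.rpow_one l]
    exact Real.rpow_le_rpow_of_exponent_le (by linarith) (by norm_num)
  have := Real.add_one_le_exp l
  linarith

theorem l10 : ∀ᶠ l : ℝ in atTop, 128 * Real.exp (l ^ (1 / 3 : ℝ)) < Real.exp l := by
  filter_upwards [Asym.cube_le (Real.log 129)] with l h1
  have h2 : 129 * Real.exp (l ^ (1 / 3 : ℝ)) = Real.exp (Real.log 129 + l ^ (1 / 3 : ℝ)) := by
    rw [Real.exp_add, Real.exp_log (by norm_num)]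
  have h3 := Real.exp_le_exp.2 h1
  rw [← h2] at h3
  have := Real.exp_pos (l ^ (1 / 3 : ℝ))
  linarith

theorem l12 (C1 ε : ℝ) (hC1 : 0 < C1) (hε : 0 < ε) : ∀ᶠ l : ℝ in atTop,
    C1 * (1 + Real.log l) ^ 2 * l ^ (-(1 / 6) : ℝ) ≤ ε := by
  set d := Real.sqrt (ε / C1) with hd
  have hd0 : 0 < d := Real.sqrt_pos.2 (by positivity)
  filter_upwards [Asym.rpow_log (show (0 : ℝ) < 1 / 12 by norm_num) (by norm_num) d hd0
    1 1, eventually_ge_atTop 1] with l h1 h2
  have h0 : 0 < l := by linarith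
  rw [Real.rpow_zero, one_mul, one_mul] at h1
  have h3 : 0 ≤ Real.log l := Real.log_nonneg h2
  have h5 : Real.log l ≤ Real.log (12 * l) := Real.log_le_log (by linarith) (by linarith)
  have h6 : (1 + Real.log l) ^ 2 ≤ (d * l ^ (1 / 12 : ℝ)) ^ 2 :=
    pow_le_pow_left₀ (by linarith) (by linarith) _
  have h7 : (d * l ^ (1 / 12 : ℝ)) ^ 2 = ε / C1 * l ^ (1 / 6 : ℝ) := by
    rw [mul_pow, hd, Real.sq_sqrt (by positivity), ← Real.rpow_natCast (l ^ (1 / 12 : ℝ)) 2,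
      ← Real.rpow_mul h0.le]
    norm_num
  rw [h7] at h6
  calc C1 * (1 + Real.log l) ^ 2 * l ^ (-(1 / 6) : ℝ) ≤
        C1 * (ε / C1 * l ^ (1 / 6 : ℝ)) * l ^ (-(1 / 6) : ℝ) := by gcongr
    _ = ε * (l ^ (1 / 6 : ℝ) * l ^ (-(1 / 6) : ℝ)) := by field_simp
    _ = ε := by rw [← Real.rpow_add h0]; norm_num

theorem L_facts : ∀ᶠ L : ℝ in atTop, Real.exp (3 / 4 * L) + 2 ≤ Real.exp L / (L * L) ∧
    2 * Real.exp (L / 2) + 1 ≤ Real.exp L / L ∧ 2 * Real.exp (-(L / 4)) ≤ 1 / L := by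
  have h2 : Tendsto (fun L : ℝ => Real.exp (L / 4) / (L / 4) ^ 2) atTop atTop :=
    (Real.tendsto_exp_div_pow_atTop 2).comp
      (tendsto_id.atTop_div_const (show (0 : ℝ) < 4 by norm_num))
  filter_upwards [eventually_ge_atTop 4, h2.eventually_ge_atTop 48] with L hL h4
  have hL0 : 0 < L := by linarith
  rw [le_div_iff₀ (by positivity)] at h4
  have h5 : 3 * (L * L) ≤ Real.exp (L / 4) := by nlinarith
  have h34 : Real.exp L = Real.exp (3 / 4 * L) * Real.exp (L / 4) := by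
    rw [← Real.exp_add]; ring_nf
  have h12 : Real.exp (L / 2) ≤ Real.exp (3 / 4 * L) := Real.exp_le_exp.2 (by linarith)
  have h1 : 1 ≤ Real.exp (3 / 4 * L) := Real.one_le_exp (by positivity)
  have hE := Real.exp_pos (3 / 4 * L)
  refine ⟨?_, ?_, ?_⟩
  · rw [le_div_iff₀ (by positivity), h34]
    have : (Real.exp (3 / 4 * L) + 2) * (L * L) ≤ Real.exp (3 / 4 * L) * (3 * (L * L)) := by
      nlinarith [mul_pos hL0 hL0]
    refine this.trans ?_
    gcongr
  · rw [le_div_iff₀ (by positivity), h34]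
    have h6 : (2 * Real.exp (L / 2) + 1) * L ≤ Real.exp (3 / 4 * L) * (3 * L) := by nlinarith
    have h7 : 3 * L ≤ Real.exp (L / 4) := by nlinarith
    refine h6.trans ?_
    gcongr
  · rw [Real.exp_neg, le_div_iff₀ hL0]
    have h8 : 2 * L ≤ Real.exp (L / 4) := by nlinarith
    have h9 : 0 < Real.exp (L / 4) := Real.exp_pos _
    calc 2 * (Real.exp (L / 4))⁻¹ * L = (2 * L) * (Real.exp (L / 4))⁻¹ := by ring
      _ ≤ Real.exp (L / 4) * (Real.exp (L / 4))⁻¹ := by gcongr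
      _ = 1 := mul_inv_cancel₀ h9.ne'

theorem num (C1 c2 ε : ℝ) (hC1 : 0 < C1) (hε : 0 < ε) :
    ∀ᶠ l : ℝ in atTop, LossA.Num C1 c2 ε l := by
  filter_upwards [eventually_ge_atTop 125, Asym.cube_le 0, Real.tendsto_exp_atTop.eventually L_facts,
    l5, l6, l7, l8, l10, loglog (Real.log C1), l12 C1 ε hC1 hε,
    Asym.cube_tendsto.eventually_ge_atTop (2 * c2)] with l h1 h2 h3 h5 h6 h7 h8 h10 h11 h12 h13
  obtain ⟨a1, a2, a3⟩ := h3
  have hL0 := Real.exp_pos l
  have h2' : l ^ (1 / 3 : ℝ) ≤ l := by linarith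
  refine ⟨h1, h2', ?_, a2, h5, h6, h7, h8, ?_, h10, h11, h12, h13⟩
  · refine a1.trans ?_
    have : Real.exp (l ^ (1 / 3 : ℝ)) ≤ Real.exp l := Real.exp_le_exp.2 h2'
    gcongr
  · refine a3.trans ?_
    gcongr
    linarith

end Pool.Agent.H61.Adm.LossN
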