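import Pool.Agent.H61.Adm.Asym

/-!
# The lower bound for `max h_m(k)` through primes (MP_cbf366_nt, module Lower)
-/

set_option autoImplicit false

namespace Pool.Agent.H61.Adm

open Finset Filter

namespace Lower

theorem VV_nonneg (a b : ℕ) : 0 ≤ VV a b := by
  unfold VV
  refine prod_nonneg (fun p hp => ?_)
  rw [mem_filter] at hp
  have h2 : (2 : ℝ) ≤ p := by exact_mod_cast hp.2.two_le
  have : 1 / (p : ℝ) ≤ 1 := by
    rw [div_le_one (by linarith)]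
    linarith
  linarith

theorem VV_le_one (a b : ℕ) : VV a b ≤ 1 := by
  unfold VV
  refine prod_le_one (fun p hp => ?_) (fun p hp => ?_)
  · rw [mem_filter] at hp
    have h2 : (2 : ℝ) ≤ p := by exact_mod_cast hp.2.two_le
    have : 1 / (p : ℝ) ≤ 1 := by
      rw [div_le_one (by linarith)]
      linarith
    linarith
  · have : 0 ≤ 1 / (p : ℝ) := by positivity
    linarith

/-- the eventual inequalities -/
structure Ev (ε C : ℝ) (k : ℕ) : Prop where
  k1 : 1 ≤ k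
  L4 : 4 ≤ L1 k
  zk : zz k ≤ k
  Kz : ∀ K : ℕ, (K : ℝ) ≤ L2 k ^ (1 / 4 : ℝ) → K ≤ zz k
  z2 : 2 ≤ zz k
  zlog : L1 k / 2 ≤ Real.log (zz k)
  zup : (zz k : ℝ) ≤ (k : ℝ) / (L1 k * Real.exp (L2 k ^ (1 / 3 : ℝ)))
  X3 : 3 ≤ XX k
  cardS : ∀ K : ℕ, 2 ≤ K → (K : ℝ) ≤ L2 k ^ (1 / 4 : ℝ) →
    3 * (6 * Real.log (XX k)) ^ (K - 1) ≤ Real.exp (L2 k ^ (1 / 3 : ℝ) / 2)
  fin : 8 * C ≤ ε * Real.exp (L2 k ^ (1 / 3 : ℝ) / 2)

theorem ev_l (ε C : ℝ) (hε : 0 < ε) : ∀ᶠ l : ℝ in atTop, 16 ≤ l ∧ l ^ (1 / 3 : ℝ) ≤ l ∧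
    l ^ (1 / 4 : ℝ) ≤ l ∧ l + 1 ≤ Real.exp l ∧
    8 * C ≤ ε * Real.exp (l ^ (1 / 3 : ℝ) / 2) ∧
    (∀ (K X : ℕ), 2 ≤ K → (K : ℝ) ≤ l ^ (1 / 4 : ℝ) → 1 ≤ X →
    Real.log X ≤ 2 * l → 3 * (6 * Real.log X) ^ (K - 1) ≤ Real.exp (l ^ (1 / 3 : ℝ) / 2)) := by
  have h1 : ∀ᶠ c : ℝ in atTop, 8 * C ≤ ε * Real.exp (c / 2) := by
    filter_upwards [eventually_ge_atTop (16 * C / ε)] with c hc
    rw [div_le_iff₀ hε] at hc
    have h2 := Real.add_one_le_exp (c / 2)
    have h3 : ε * (c / 2 + 1) ≤ ε * Real.exp (c / 2) := mul_le_mul_of_nonneg_left h2 hε.le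
    nlinarith
  filter_upwards [eventually_ge_atTop 16, Asym.cube_le 0, Asym.cube_tendsto.eventually h1,
    Asym.smooth_le] with l hl h3 h4 h5
  have h6 : l ^ (1 / 4 : ℝ) ≤ l ^ (1 / 3 : ℝ) :=
    Real.rpow_le_rpow_of_exponent_le (by linarith) (by norm_num)
  exact ⟨hl, by linarith, by linarith, Real.add_one_le_exp l, h4, h5⟩

theorem ev_L : ∀ᶠ L : ℝ in atTop, 4 ≤ L ∧ Real.exp (L / 2) + 1 ≤ Real.exp L / L ^ 2 ∧
    L ≤ Real.exp (L / 2) := by
  have h2 : Tendsto (fun L : ℝ => Real.exp (L / 2) / (L / 2) ^ 2) atTop atTop :=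
    (Real.tendsto_exp_div_pow_atTop 2).comp
      (tendsto_id.atTop_div_const (show (0 : ℝ) < 2 by norm_num))
  filter_upwards [eventually_ge_atTop 4, h2.eventually_ge_atTop 8] with L hL h4
  have hL0 : 0 < L := by linarith
  rw [le_div_iff₀ (by positivity)] at h4
  have h5 : Real.exp L = Real.exp (L / 2) * Real.exp (L / 2) := by
    rw [← Real.exp_add]; ring_nf
  have h6 : 2 * L ^ 2 ≤ Real.exp (L / 2) := by linarith
  have h7 : 4 ≤ Real.exp (L / 2) := by nlinarith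
  refine ⟨hL, ?_, by nlinarith⟩
  rw [le_div_iff₀ (by positivity), h5]
  nlinarith

theorem ev (ε C : ℝ) (hε : 0 < ε) : ∀ᶠ k : ℕ in atTop, Ev ε C k := by
  filter_upwards [Asym.tL2.eventually (ev_l ε C hε), Asym.tL1.eventually ev_L] with k h1 h2
  obtain ⟨a1, a2, a3, a4, a5, a6⟩ := h1
  obtain ⟨b1, b2, b3⟩ := h2
  set l := L2 k with hl
  set L := L1 k with hLd
  have hL0 : 0 < L := by linarith
  have hLl : L = Real.exp l := by
    rw [hl, L2, Real.exp_log]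
    · rfl
    · exact hL0
  have hk0 : (0 : ℝ) < k := by
    by_contra hc
    have : (k : ℝ) = 0 := le_antisymm (not_lt.1 hc) (Nat.cast_nonneg k)
    rw [hLd, L1, this, Real.log_zero] at hL0
    exact lt_irrefl _ hL0
  have hkexp : (k : ℝ) = Real.exp L := by rw [hLd, L1, Real.exp_log hk0]
  set c := l ^ (1 / 3 : ℝ) with hc
  have hc0 : 0 ≤ c := by positivity
  have hexp1 : 1 ≤ Real.exp c := Real.one_le_exp hc0
  have hexpc : Real.exp c ≤ L := by rw [hLl]; exact Real.exp_le_exp.2 a2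
  have hden0 : 0 < L * Real.exp c := by positivity
  have hden1 : 1 ≤ L * Real.exp c := by nlinarith
  have hden2 : L * Real.exp c ≤ L ^ 2 := by nlinarith
  have hzup : (zz k : ℝ) ≤ (k : ℝ) / (L * Real.exp c) := Nat.floor_le (by positivity)
  have hzlow : (k : ℝ) / (L * Real.exp c) < zz k + 1 := Nat.lt_floor_add_one _
  have hz1 : Real.exp (L / 2) ≤ zz k := by
    have h3 : Real.exp L / L ^ 2 ≤ (k : ℝ) / (L * Real.exp c) := by
      rw [hkexp]
      exact div_le_div_of_nonneg_left (Real.exp_pos _).le hden0 hden2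
    linarith
  have hzL : L ≤ zz k := b3.trans hz1
  have hXle : (XX k : ℝ) ≤ L * Real.exp c := Nat.floor_le (by positivity)
  have hX3 : 3 ≤ XX k := by
    refine Nat.le_floor ?_
    push_cast
    have : L * 1 ≤ L * Real.exp c := mul_le_mul_of_nonneg_left hexp1 hL0.le
    show (3 : ℝ) ≤ L * Real.exp c
    linarith
  have hX1 : (1 : ℝ) ≤ XX k := by
    have : (3 : ℝ) ≤ XX k := by exact_mod_cast hX3
    linarith
  have hlogX : Real.log (XX k) ≤ 2 * l := by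
    calc Real.log (XX k) ≤ Real.log (L * Real.exp c) := Real.log_le_log (by linarith) hXle
      _ = l + c := by
        rw [Real.log_mul hL0.ne' (Real.exp_pos _).ne', Real.log_exp, hLl, Real.log_exp]
      _ ≤ 2 * l := by linarith
  have hk1 : 1 ≤ k := by
    have : 0 < k := by exact_mod_cast hk0
    omega
  refine ⟨hk1, b1, ?_, ?_, ?_, ?_, hzup, hX3, ?_, a5⟩
  · have : (zz k : ℝ) ≤ k := hzup.trans (div_le_self hk0.le hden1)
    exact_mod_cast this
  · intro K hK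
    have : (K : ℝ) ≤ zz k := by
      have h3 : l ≤ L := by rw [hLl]; linarith
      linarith
    exact_mod_cast this
  · have : (2 : ℝ) ≤ zz k := by linarith
    exact_mod_cast this
  · rw [Real.le_log_iff_exp_le (by linarith)]
    exact hz1
  · intro K hK hKl
    exact a6 K (XX k) hK hKl (by omega) hlogX

end Lower

/-- The lower bound for `max h_m(k)` through primes. -/
theorem lower (G : GreedySt) (B : BBLowerSt) (L : LossSt) (M : MertSt) (S : SmoothSt) :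
    LowerSt := by
  intro ε hε
  obtain ⟨C, hC, hcheb⟩ := M.cheb
  obtain ⟨k₁, hk₁⟩ := L (ε / 2) (by linarith)
  obtain ⟨k₂, hk₂⟩ := eventually_atTop.1 (Lower.ev ε C hε)
  refine ⟨max k₁ k₂, fun k hk K hK hKl => ?_⟩
  have E := hk₂ k (le_trans (le_max_right _ _) hk)
  obtain ⟨η, hη1, hη2⟩ := hk₁ k (le_trans (le_max_left _ _) hk) K hK hKl
  have hk1 := E.k1
  obtain ⟨m, hm⟩ := G K (zz k) ((k - 1) / 2) k η (E.Kz K hKl) E.zk (by omega) hη1
  refine ⟨m, ?_⟩
  have hB := B K (zz k) ((k - 1) / 2) (XX k) (E.Kz K hKl)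
  have hV := Lower.VV_nonneg 0 K
  have hV1 := Lower.VV_le_one 0 K
  have h1 := mul_le_mul_of_nonneg_left hB hV
  have hL0 : 0 < L1 k := by have := E.L4; linarith
  have hcard := S.card K (XX k) hK E.X3
  have hcS := E.cardS K hK hKl
  set c := L2 k ^ (1 / 3 : ℝ) with hc
  have hcard' : ((Sm K (XX k)).card : ℝ) ≤ Real.exp (c / 2) := hcard.trans hcS
  have hpi0 : (Nat.primeCounting (zz k) : ℝ) ≤ C * zz k / Real.log (zz k) := hcheb _ E.z2
  have hpi : (Nat.primeCounting (zz k) : ℝ) ≤ 2 * C * (k / L1 k ^ 2) / Real.exp c := by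
    refine hpi0.trans ?_
    calc C * zz k / Real.log (zz k) ≤ C * (k / (L1 k * Real.exp c)) / (L1 k / 2) := by
          have := E.zup
          have h2 := E.zlog
          gcongr
      _ = 2 * C * (k / L1 k ^ 2) / Real.exp c := by
          field_simp
  have hexp : Real.exp c = Real.exp (c / 2) * Real.exp (c / 2) := by
    rw [← Real.exp_add]; ring_nf
  have hpiS : 2 * ((Sm K (XX k)).card * (Nat.primeCounting (zz k) : ℝ)) ≤
      ε / 2 * (k / L1 k ^ 2) := by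
    have h2 : ((Sm K (XX k)).card : ℝ) * (Nat.primeCounting (zz k) : ℝ) ≤
        Real.exp (c / 2) * (2 * C * (k / L1 k ^ 2) / Real.exp c) :=
      mul_le_mul hcard' hpi (Nat.cast_nonneg _) (Real.exp_pos _).le
    have h3 : Real.exp (c / 2) * (2 * C * (k / L1 k ^ 2) / Real.exp c) =
        2 * C * (k / L1 k ^ 2) / Real.exp (c / 2) := by
      rw [hexp]
      field_simp
    have h4 : 2 * C * ((k : ℝ) / L1 k ^ 2) / Real.exp (c / 2) ≤ ε / 4 * (k / L1 k ^ 2) := by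
      rw [div_le_iff₀ (Real.exp_pos _)]
      have h5 := mul_le_mul_of_nonneg_right E.fin (show 0 ≤ (k : ℝ) / L1 k ^ 2 by positivity)
      nlinarith
    linarith
  have hsum : ∑ s ∈ Sm K (XX k), ((Nat.primeCounting ((k - 1) / 2 / s) : ℝ) -
      Nat.primeCounting (zz k)) = ∑ s ∈ Sm K (XX k), (Nat.primeCounting ((k - 1) / 2 / s) : ℝ) -
        (Sm K (XX k)).card * (Nat.primeCounting (zz k) : ℝ) := by
    rw [sum_sub_distrib, sum_const, nsmul_eq_mul]
  rw [hsum] at h1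
  have h6 : VV 0 K * (2 * ((Sm K (XX k)).card * (Nat.primeCounting (zz k) : ℝ))) ≤
      1 * (ε / 2 * (k / L1 k ^ 2)) :=
    mul_le_mul hV1 hpiS (by positivity) (by norm_num)
  have h7 : ε / 2 * (k : ℝ) / L1 k ^ 2 = ε / 2 * (k / L1 k ^ 2) := by ring
  have h8 : ε * (k : ℝ) / L1 k ^ 2 = ε / 2 * (k / L1 k ^ 2) + ε / 2 * (k / L1 k ^ 2) := by ring
  rw [h7] at hη2
  rw [h8]
  have h9 : 2 * VV 0 K * ∑ s ∈ Sm K (XX k), (Nat.primeCounting ((k - 1) / 2 / s) : ℝ) =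
      VV 0 K * (2 * (∑ s ∈ Sm K (XX k), (Nat.primeCounting ((k - 1) / 2 / s) : ℝ) -
        (Sm K (XX k)).card * (Nat.primeCounting (zz k) : ℝ))) +
      VV 0 K * (2 * ((Sm K (XX k)).card * (Nat.primeCounting (zz k) : ℝ))) := by
    ring
  rw [h9]
  linarith

end Pool.Agent.H61.Adm
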