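import Pool.Agent.H61.Adm.Defs
import Pool.Agent.H15.Rud.Mertens
import Pool.Agent.H27.AP.Mert

/-!
# Chebyshev and Mertens for the module list of MP_cbf366_nt
-/

set_option autoImplicit false

namespace Pool.Agent.H61.Adm

open Finset

namespace Mert

open Pool.Agent.H38.ET Pool.Agent.H15.Rud

theorem log_four_le : Real.log 4 ≤ 2 := by
  have := Real.log_two_lt_d9
  have h : (4 : ℝ) = 2 ^ 2 := by norm_num
  rw [h, Real.log_pow]; push_cast; linarith

theorem cheb (n : ℕ) (hn : 2 ≤ n) : (Nat.primeCounting n : ℝ) ≤ 6 * n / Real.log n := by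
  have hn1 : (1 : ℝ) < n := by exact_mod_cast (by omega : 1 < n)
  have hn0 : (0 : ℝ) < n := by linarith
  have h := Chebyshev.pi_le_log4_mul_div hn1
  rw [Nat.floor_natCast] at h
  have hl : 0 < Real.log n := Real.log_pos hn1
  have hs : 0 < Real.sqrt n := Real.sqrt_pos.2 hn0
  have h1 : Real.log (Real.sqrt n) = Real.log n / 2 := by
    rw [Real.sqrt_eq_rpow, Real.log_rpow hn0]; ring
  have h2 : Real.log n ≤ 2 * Real.sqrt n := by
    have := Real.log_le_sub_one_of_pos hs
    rw [h1] at this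
    linarith
  have h3 : Real.sqrt n * Real.sqrt n = n := Real.mul_self_sqrt hn0.le
  have h4 : Real.sqrt n ≤ 2 * n / Real.log n := by
    rw [le_div_iff₀ hl]
    nlinarith
  have h5 : Real.log 4 * n / Real.log (Real.sqrt n) ≤ 4 * n / Real.log n := by
    rw [h1, div_div_eq_mul_div]
    apply div_le_div_of_nonneg_right _ hl.le
    have := log_four_le
    nlinarith
  have h6 : 6 * (n : ℝ) / Real.log n = 4 * n / Real.log n + 2 * n / Real.log n := by ring
  linarith

theorem rs_ge (m : ℕ) (hm : 2 ≤ m) (n : ℕ) (hn : m ≤ n) :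
    Real.log (Real.log n / Real.log m) - 6 / Real.log m ≤ rs m n := by
  have hlm : 0 < Real.log (m : ℝ) := Real.log_pos (by exact_mod_cast (by omega : 1 < m))
  have hln : 0 < Real.log (n : ℝ) := Real.log_pos (by exact_mod_cast (by omega : 1 < n))
  have hA : ∀ k : ℕ, 1 ≤ k → Am k ≤ Real.log k + Real.log 4 := fun k hk => sum_log_div_le k hk
  have hB : ∀ k : ℕ, 1 ≤ k → Real.log k - 3 ≤ Am k := fun k hk => le_sum_log_div k hk
  have key : ∀ n : ℕ, m ≤ n → Real.log (Real.log n) - Real.log (Real.log m) -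
      4 * (1 / Real.log m - 1 / Real.log n) ≤
      ∑ k ∈ Finset.Ico m n, Am k * (1 / Real.log k - 1 / Real.log ((k + 1 : ℕ) : ℝ)) := by
    intro n hn
    induction n, hn using Nat.le_induction with
    | base => simp
    | succ n hn ih =>
      rw [Finset.sum_Ico_succ_top hn]
      have hn0 : (0 : ℝ) < n := by exact_mod_cast (by omega : 0 < n)
      have hn2 : (1 : ℝ) ≤ n := by exact_mod_cast (by omega : 1 ≤ n)
      have h1 : (0 : ℝ) < Real.log (n : ℝ) := Real.log_pos (by exact_mod_cast (by omega : 1 < n))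
      have h2 : (0 : ℝ) < Real.log ((n + 1 : ℕ) : ℝ) :=
        Real.log_pos (by exact_mod_cast (by omega : 1 < n + 1))
      have h12 : Real.log (n : ℝ) ≤ Real.log ((n + 1 : ℕ) : ℝ) :=
        Real.log_le_log hn0 (by push_cast; linarith)
      have h3 : 0 ≤ 1 / Real.log (n : ℝ) - 1 / Real.log ((n + 1 : ℕ) : ℝ) := by
        rw [sub_nonneg]; exact one_div_le_one_div_of_le h1 h12
      have h4 : (Real.log n - 3) * (1 / Real.log (n : ℝ) - 1 / Real.log ((n + 1 : ℕ) : ℝ))
          ≤ Am n * (1 / Real.log (n : ℝ) - 1 / Real.log ((n + 1 : ℕ) : ℝ)) :=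
        mul_le_mul_of_nonneg_right (hB n (by omega)) h3
      -- the step of the logarithm is at most one
      have hstep : Real.log ((n + 1 : ℕ) : ℝ) - Real.log (n : ℝ) ≤ 1 := by
        have h5 : Real.log ((n + 1 : ℕ) : ℝ) - Real.log (n : ℝ) =
            Real.log (((n + 1 : ℕ) : ℝ) / n) := by
          rw [Real.log_div (by positivity) hn0.ne']
        rw [h5]
        have h6 := Real.log_le_sub_one_of_pos (show (0 : ℝ) < ((n + 1 : ℕ) : ℝ) / n by positivity)
        have h7 : ((n + 1 : ℕ) : ℝ) / n - 1 = 1 / n := by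
          push_cast; field_simp; ring
        rw [h7] at h6
        have h8 : 1 / (n : ℝ) ≤ 1 := by
          rw [div_le_one hn0]; exact hn2
        linarith
      have h5 : Real.log (Real.log ((n + 1 : ℕ) : ℝ)) - Real.log (Real.log (n : ℝ)) ≤
          Real.log ((n + 1 : ℕ) : ℝ) / Real.log (n : ℝ) - 1 := by
        rw [← Real.log_div h2.ne' h1.ne']
        exact Real.log_le_sub_one_of_pos (by positivity)
      have h6 : Real.log ((n + 1 : ℕ) : ℝ) / Real.log (n : ℝ) - 1 =
          Real.log (n : ℝ) * (1 / Real.log (n : ℝ) - 1 / Real.log ((n + 1 : ℕ) : ℝ)) +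
          (Real.log ((n + 1 : ℕ) : ℝ) - Real.log (n : ℝ)) *
            (1 / Real.log (n : ℝ) - 1 / Real.log ((n + 1 : ℕ) : ℝ)) := by
        field_simp
        ring
      have h7 : (Real.log ((n + 1 : ℕ) : ℝ) - Real.log (n : ℝ)) *
            (1 / Real.log (n : ℝ) - 1 / Real.log ((n + 1 : ℕ) : ℝ)) ≤
            1 * (1 / Real.log (n : ℝ) - 1 / Real.log ((n + 1 : ℕ) : ℝ)) :=
        mul_le_mul_of_nonneg_right hstep h3
      have h8 : (Real.log n - 3) * (1 / Real.log (n : ℝ) - 1 / Real.log ((n + 1 : ℕ) : ℝ))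
          = Real.log (n : ℝ) * (1 / Real.log (n : ℝ) - 1 / Real.log ((n + 1 : ℕ) : ℝ))
            - 3 * (1 / Real.log (n : ℝ) - 1 / Real.log ((n + 1 : ℕ) : ℝ)) := by ring
      linarith
  rw [rs_eq m hm n hn, Real.log_div hln.ne' hlm.ne']
  have h1 : 1 - 3 / Real.log n ≤ Am n / Real.log n := by
    have : (Real.log n - 3) / Real.log n = 1 - 3 / Real.log n := by field_simp
    rw [← this]
    exact div_le_div_of_nonneg_right (hB n (by omega)) hln.le
  have h2 : Am m / Real.log m ≤ 1 + Real.log 4 / Real.log m := by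
    have : (Real.log m + Real.log 4) / Real.log m = 1 + Real.log 4 / Real.log m := by field_simp
    rw [← this]
    exact div_le_div_of_nonneg_right (hA m (by omega)) hlm.le
  have h3 := key n hn
  have h6 : Real.log 4 / Real.log (m : ℝ) ≤ 2 / Real.log m :=
    div_le_div_of_nonneg_right log_four_le hlm.le
  have h7 : (6 : ℝ) / Real.log m = 4 * (1 / Real.log m) + 2 / Real.log m := by ring
  have h8 : (3 : ℝ) / Real.log n = 3 * (1 / Real.log n) := by ring
  have h9 : 0 ≤ 1 / Real.log (n : ℝ) := by positivity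
  linarith

theorem sum_inv_le (R : ℕ) (hR : 1 ≤ R) :
    ∑ m ∈ Finset.Icc 2 R, 1 / ((m : ℝ) * (m - 1)) ≤ 1 - 1 / R := by
  induction R, hR using Nat.le_induction with
  | base => simp
  | succ R hR ih =>
    have hR0 : (0 : ℝ) < R := by exact_mod_cast hR
    have h1 : Finset.Icc 2 (R + 1) = insert (R + 1) (Finset.Icc 2 R) := by
      ext k; simp only [mem_Icc, mem_insert]; omega
    rw [h1, sum_insert (by simp)]
    have h2 : 1 / (((R + 1 : ℕ) : ℝ) * (((R + 1 : ℕ) : ℝ) - 1)) = 1 / R - 1 / ((R + 1 : ℕ) : ℝ) := by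
      push_cast
      have : (R : ℝ) + 1 - 1 = R := by ring
      rw [this]
      field_simp
      ring
    rw [h2]
    linarith

theorem vlow (R : ℕ) (hR : 2 ≤ R) :
    Real.log 2 * Real.exp (-(3 / 2 + 5 / Real.log 2)) / Real.log R ≤ VV 0 R := by
  have hlR : 0 < Real.log (R : ℝ) := Real.log_pos (by exact_mod_cast (by omega : 1 < R))
  have hl2 : 0 < Real.log (2 : ℝ) := Real.log_pos (by norm_num)
  have hpos : ∀ p ∈ (Finset.Ioc 0 R).filter Nat.Prime, 0 < 1 - 1 / (p : ℝ) := by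
    intro p hp
    have hp2 : (2 : ℝ) ≤ p := by exact_mod_cast (mem_filter.1 hp).2.two_le
    have : 1 / (p : ℝ) ≤ 1 / 2 := one_div_le_one_div_of_le (by norm_num) hp2
    linarith
  have hV : 0 < VV 0 R := prod_pos hpos
  have h1 : Real.log (VV 0 R) = ∑ p ∈ (Finset.Ioc 0 R).filter Nat.Prime, Real.log (1 - 1 / (p : ℝ)) := by
    unfold VV
    rw [Real.log_prod]
    intro p hp
    exact (hpos p hp).ne'
  have h2 : ∀ p ∈ (Finset.Ioc 0 R).filter Nat.Prime,
      -(1 / (p : ℝ) + 1 / ((p : ℝ) * (p - 1))) ≤ Real.log (1 - 1 / (p : ℝ)) := by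
    intro p hp
    have hp2 : (2 : ℝ) ≤ p := by exact_mod_cast (mem_filter.1 hp).2.two_le
    have h3 := hpos p hp
    have h4 := Real.one_sub_inv_le_log_of_pos h3
    refine le_trans (le_of_eq ?_) h4
    have h5 : (p : ℝ) - 1 ≠ 0 := by linarith
    have h6 : (p : ℝ) ≠ 0 := by linarith
    have h7 : 1 - 1 / (p : ℝ) = (p - 1) / p := by field_simp
    rw [h7, inv_div]
    field_simp
    ring
  have h3 : ∑ p ∈ (Finset.Ioc 0 R).filter Nat.Prime, 1 / ((p : ℝ) * (p - 1)) ≤ 1 := by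
    have h4 : ∑ p ∈ (Finset.Ioc 0 R).filter Nat.Prime, 1 / ((p : ℝ) * (p - 1)) ≤
        ∑ m ∈ Finset.Icc 2 R, 1 / ((m : ℝ) * (m - 1)) := by
      apply sum_le_sum_of_subset_of_nonneg
      · intro p hp
        rw [mem_filter, mem_Ioc] at hp
        rw [mem_Icc]
        exact ⟨hp.2.two_le, hp.1.2⟩
      · intro m hm _
        rw [mem_Icc] at hm
        have : (2 : ℝ) ≤ m := by exact_mod_cast hm.1
        have h5 : 0 ≤ (m : ℝ) * (m - 1) := by nlinarith
        positivity
    have h5 := sum_inv_le R (by omega)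
    have h6 : (0 : ℝ) ≤ 1 / R := by positivity
    linarith
  have h4 : ∑ p ∈ (Finset.Ioc 0 R).filter Nat.Prime, 1 / (p : ℝ) = 1 / 2 + rs 2 R := by
    have h5 : (Finset.Ioc 0 R).filter Nat.Prime = insert 2 ((Finset.Ioc 2 R).filter Nat.Prime) := by
      ext p
      simp only [mem_filter, mem_Ioc, mem_insert]
      constructor
      · rintro ⟨⟨h6, h7⟩, h8⟩
        have := h8.two_le
        by_cases h9 : p = 2
        · exact Or.inl h9
        · exact Or.inr ⟨⟨by omega, h7⟩, h8⟩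
      · rintro (h6 | ⟨⟨h6, h7⟩, h8⟩)
        · subst h6; exact ⟨⟨by omega, hR⟩, Nat.prime_two⟩
        · exact ⟨⟨by omega, h7⟩, h8⟩
    rw [h5, sum_insert (by simp)]
    rfl
  have h5 := rs_le 2 le_rfl R hR
  have h6 : -(3 / 2 + 5 / Real.log 2 + Real.log (Real.log R / Real.log 2)) ≤ Real.log (VV 0 R) := by
    rw [h1]
    refine le_trans ?_ (sum_le_sum h2)
    rw [sum_neg_distrib, sum_add_distrib, h4]
    push_cast at h5
    linarith
  rw [Real.log_div hlR.ne' hl2.ne'] at h6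
  rw [← Real.exp_log hV]
  have h7 : Real.log 2 * Real.exp (-(3 / 2 + 5 / Real.log 2)) / Real.log R =
      Real.exp (-(3 / 2 + 5 / Real.log 2 + (Real.log (Real.log R) - Real.log (Real.log 2)))) := by
    have h8 : -(3 / 2 + 5 / Real.log 2 + (Real.log (Real.log R) - Real.log (Real.log 2))) =
        Real.log (Real.log 2) + -(3 / 2 + 5 / Real.log 2) - Real.log (Real.log R) := by ring
    rw [h8, Real.exp_sub, Real.exp_add, Real.exp_log hl2, Real.exp_log hlR]
  rw [h7]
  exact Real.exp_le_exp.2 h6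

theorem vup (R : ℕ) (hR : 2 ≤ R) : VV 0 R ≤ 1 / Real.log R := by
  have h := Pool.Agent.H27.AP.m2 (R : ℝ) (by exact_mod_cast hR)
  have h1 : Pool.Agent.H27.AP.PZ (R : ℝ) = (Finset.Ioc 0 R).filter Nat.Prime := by
    unfold Pool.Agent.H27.AP.PZ
    rw [Nat.floor_natCast]
    ext p
    simp only [mem_filter, mem_Icc, mem_Ioc]
    constructor
    · rintro ⟨⟨h1, h2⟩, h3⟩; exact ⟨⟨by omega, h2⟩, h3⟩
    · rintro ⟨⟨h1, h2⟩, h3⟩; exact ⟨⟨by omega, h2⟩, h3⟩
  rw [h1] at h
  exact h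

theorem m1 (y : ℕ) (hy : 1 ≤ y) :
    |∑ p ∈ (Finset.Icc 1 y).filter Nat.Prime, Real.log p / p - Real.log y| ≤ 3 := by
  have h1 : (Finset.Icc 1 y).filter Nat.Prime = pr y := by
    ext p
    rw [mem_pr, mem_filter, mem_Icc]
    constructor
    · rintro ⟨⟨-, h⟩, h'⟩; exact ⟨h, h'⟩
    · rintro ⟨h, h'⟩; exact ⟨⟨h'.one_lt.le, h⟩, h'⟩
  rw [h1, abs_le]
  have h2 := le_sum_log_div y hy
  have h3 := sum_log_div_le y hy
  have h4 := log_four_le
  constructor <;> linarith

theorem m2 (m n : ℕ) (hm : 2 ≤ m) (hn : m ≤ n) :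
    |∑ p ∈ (Finset.Ioc m n).filter Nat.Prime, 1 / (p : ℝ) - Real.log (Real.log n / Real.log m)| ≤
      6 / Real.log m := by
  have h1 := rs_le m hm n hn
  have h2 := rs_ge m hm n hn
  have hlm : 0 < Real.log (m : ℝ) := Real.log_pos (by exact_mod_cast (by omega : 1 < m))
  have h3 : 5 / Real.log (m : ℝ) ≤ 6 / Real.log m := div_le_div_of_nonneg_right (by norm_num) hlm.le
  unfold rs at h1 h2
  rw [abs_le]
  constructor <;> linarith

end Mert

/-- Chebyshev and Mertens. -/
theorem mert : MertSt where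
  cheb := ⟨6, by norm_num, Mert.cheb⟩
  vlow := ⟨Real.log 2 * Real.exp (-(3 / 2 + 5 / Real.log 2)),
    mul_pos (Real.log_pos (by norm_num)) (Real.exp_pos _), Mert.vlow⟩
  vup := Mert.vup
  m1 := ⟨3, by norm_num, Mert.m1⟩
  m2 := ⟨6, by norm_num, Mert.m2⟩

end Pool.Agent.H61.Adm
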