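import Pool.Agent.H61.Adm.Defs
import Pool.Agent.H99.ADS.Sieve

/-!
# Selberg's sieve for an arithmetic progression (module SieveAP of MP_cbf366_nt)
-/

set_option autoImplicit false

namespace Pool.Agent.H61.Adm

open Finset

namespace SieveAP

open Pool.Agent.H99.ADS

/-- The indicator of the primes outside `T`. -/
noncomputable def ff (T : Finset ℕ) (r : ℕ) : ℝ := if r ∈ T then 0 else 1

theorem Fm_ff_nonneg (T : Finset ℕ) (m : ℕ) : 0 ≤ Fm (ff T) m := by
  unfold Fm
  apply List.prod_nonneg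
  intro a ha
  rw [List.mem_map] at ha
  obtain ⟨r, -, rfl⟩ := ha
  unfold ff
  split_ifs <;> norm_num

theorem Ds_ff_mono (T : Finset ℕ) {Y Z : ℕ} (h : Y ≤ Z) : Ds (ff T) Y ≤ Ds (ff T) Z := by
  unfold Ds
  apply Finset.sum_le_sum_of_subset_of_nonneg (Finset.Icc_subset_Icc_right h)
  intro m _ _
  exact div_nonneg (Fm_ff_nonneg T m) (Nat.cast_nonneg m)

theorem key (T : Finset ℕ) (hT : ∀ q ∈ T, q.Prime) (Y : ℕ) :
    (∏ p ∈ T, (1 - 1 / (p : ℝ))) * Ds (ff ∅) Y ≤ Ds (ff T) Y := by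
  induction T using Finset.induction_on with
  | empty => simp
  | insert q T hqT ih =>
    have hq : q.Prime := hT q (mem_insert_self q T)
    have ih' := ih (fun r hr => hT r (mem_insert_of_mem hr))
    have h1 := Ds_insert (ff T) hq Y
    have h2 : Ds (fun r => if r = q then 0 else ff T r) Y = Ds (ff (insert q T)) Y := by
      congr 1
      funext r
      unfold ff
      by_cases hr : r = q
      · simp [hr]
      · by_cases hrT : r ∈ T
        · simp [hr, hrT]
        · simp [hr, hrT]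
    have h3 : ff T q = 1 := by simp [ff, hqT]
    rw [h2, h3] at h1
    have h4 : Ds (ff T) (Y / q) ≤ Ds (ff T) Y := Ds_ff_mono T (Nat.div_le_self _ _)
    have hq0 : (0 : ℝ) < q := by exact_mod_cast hq.pos
    have hq1 : (1 : ℝ) < q := by exact_mod_cast hq.one_lt
    have h5 : 1 / (q : ℝ) * Ds (ff T) (Y / q) ≤ 1 / (q : ℝ) * Ds (ff T) Y :=
      mul_le_mul_of_nonneg_left h4 (by positivity)
    have h6 : 0 ≤ 1 - 1 / (q : ℝ) := by
      rw [sub_nonneg, div_le_one hq0]
      exact hq1.le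
    rw [Finset.prod_insert hqT]
    have h7 := mul_le_mul_of_nonneg_left ih' h6
    calc (1 - 1 / (q : ℝ)) * (∏ p ∈ T, (1 - 1 / (p : ℝ))) * Ds (ff ∅) Y
        = (1 - 1 / (q : ℝ)) * ((∏ p ∈ T, (1 - 1 / (p : ℝ))) * Ds (ff ∅) Y) := by ring
      _ ≤ (1 - 1 / (q : ℝ)) * Ds (ff T) Y := h7
      _ ≤ Ds (ff (insert q T)) Y := by linarith

theorem Ds_empty (Y : ℕ) : Real.log Y ≤ Ds (ff ∅) Y := by
  have h1 : Ds (ff ∅) Y = ((harmonic Y : ℚ) : ℝ) := by
    unfold Ds
    rw [harmonic_eq_sum_Icc]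
    push_cast
    apply Finset.sum_congr rfl
    intro m _
    have h2 : Fm (ff ∅) m = 1 := by
      unfold Fm
      have h3 : List.map (ff ∅) m.primeFactorsList = List.map (fun _ => (1 : ℝ)) m.primeFactorsList := by
        apply List.map_congr_left
        intro r _
        simp [ff]
      rw [h3]
      simp
    rw [h2, one_div]
  rw [h1]
  have h2 := log_add_one_le_harmonic Y
  refine le_trans ?_ h2
  rcases Nat.eq_zero_or_pos Y with h | h
  · subst h; simp
  · apply Real.log_le_log (by exact_mod_cast h)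
    push_cast
    linarith

/-- The set of sieving primes. -/
def ps (R R₁ : ℕ) : Finset ℕ := (Finset.Ioc R R₁).filter Nat.Prime

theorem Ds_lower (R R₁ : ℕ) :
    VV 0 R * Real.log R₁ ≤ Ds (fun q => if q ∈ ps R R₁ then ((1 : ℕ) : ℝ) else 0) R₁ := by
  have h1 := key ((Finset.Ioc 0 R).filter Nat.Prime) (fun q hq => (mem_filter.mp hq).2) R₁
  have h2 : 0 ≤ VV 0 R := by
    unfold VV
    apply Finset.prod_nonneg
    intro q hq
    have h3 : (1 : ℝ) < q := by exact_mod_cast (mem_filter.mp hq).2.one_lt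
    rw [sub_nonneg, div_le_one (by linarith)]
    exact h3.le
  have h3 := mul_le_mul_of_nonneg_left (Ds_empty R₁) h2
  refine h3.trans (h1.trans (le_of_eq ?_))
  apply Ds_congr
  intro r hr hrR
  unfold ff ps
  by_cases h4 : r ≤ R
  · have h5 : r ∈ (Finset.Ioc 0 R).filter Nat.Prime := by
      rw [mem_filter, mem_Ioc]
      exact ⟨⟨hr.pos, h4⟩, hr⟩
    have h6 : r ∉ (Finset.Ioc R R₁).filter Nat.Prime := by
      rw [mem_filter, mem_Ioc]
      omega
    rw [if_pos h5, if_neg h6]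
  · have h5 : r ∉ (Finset.Ioc 0 R).filter Nat.Prime := by
      rw [mem_filter, mem_Ioc]
      omega
    have h6 : r ∈ (Finset.Ioc R R₁).filter Nat.Prime := by
      rw [mem_filter, mem_Ioc]
      exact ⟨⟨by omega, hrR⟩, hr⟩
    rw [if_neg h5, if_pos h6]
    simp

/-- The bad residues. -/
def bad (α : ℤ) (Q : ℕ) (q j : ℕ) : Prop := (q : ℤ) ∣ α + (Q : ℤ) * (j : ℤ)

theorem classes {R R₁ Q : ℕ} {α : ℤ} (hQ : ∀ p : ℕ, p.Prime → R < p → p ≤ R₁ → ¬ p ∣ Q) :
    Classes (ps R R₁) (bad α Q) (fun _ => 1) where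
  prime := fun q hq => (mem_filter.mp hq).2
  per := by
    intro q _ m
    unfold bad
    have h1 : ((m % q : ℕ) : ℤ) = (m : ℤ) - q * ((m / q : ℕ) : ℤ) := by
      have h2 := Nat.mod_add_div m q
      have h3 : ((m % q : ℕ) : ℤ) + q * ((m / q : ℕ) : ℤ) = m := by exact_mod_cast h2
      linarith
    rw [h1]
    have h4 : α + (Q : ℤ) * ((m : ℤ) - q * ((m / q : ℕ) : ℤ)) =
        (α + (Q : ℤ) * (m : ℤ)) - q * (Q * ((m / q : ℕ) : ℤ)) := by ring
    rw [h4]
    exact dvd_sub_left (Dvd.intro _ rfl)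
  card := by
    intro q hq
    obtain ⟨hq1, hq2⟩ := mem_filter.mp hq
    rw [mem_Ioc] at hq1
    haveI : Fact q.Prime := ⟨hq2⟩
    have hQq : (Q : ZMod q) ≠ 0 := by
      rw [Ne, ZMod.natCast_eq_zero_iff]
      exact hQ q hq2 hq1.1 hq1.2
    have hiff : ∀ r : ℕ, bad α Q q r ↔ (r : ZMod q) = -(α : ZMod q) * (Q : ZMod q)⁻¹ := by
      intro r
      unfold bad
      rw [← ZMod.intCast_zmod_eq_zero_iff_dvd]
      push_cast
      constructor
      · intro h
        field_simp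
        linear_combination h
      · intro h
        rw [h]
        field_simp
        ring
    rw [Set.ncard_eq_one]
    refine ⟨(-(α : ZMod q) * (Q : ZMod q)⁻¹).val, ?_⟩
    ext r
    simp only [Set.mem_setOf_eq, Set.mem_singleton_iff]
    rw [hiff]
    constructor
    · rintro ⟨h1, h2⟩
      rw [← h2, ZMod.val_natCast, Nat.mod_eq_of_lt h1]
    · rintro rfl
      exact ⟨ZMod.val_lt _, by simp⟩

end SieveAP

open SieveAP in
theorem sieveAP : SieveSt := by
  classical
  intro R R₁ J Q α hR hR₁ hQ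
  have h := classes (α := α) hQ
  have h1 := Pool.Agent.H99.ADS.sieve_bound h (fun _ _ => le_refl 1)
    (fun q hq => (h.prime q hq).one_lt) J (R := R₁) (by omega)
  have h2 : ((Finset.Icc 1 J).filter (fun j : ℕ => ∀ p ∈ Finset.Ioc R R₁, p.Prime →
      ¬ (p : ℤ) ∣ α + (Q : ℤ) * (j : ℤ))).card ≤
      ((Icc 1 J).filter (fun m => ∀ q ∈ ps R R₁, ¬ bad α Q q m)).card := by
    apply Finset.card_le_card
    intro j hj
    rw [mem_filter] at hj ⊢
    refine ⟨hj.1, fun q hq => ?_⟩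
    obtain ⟨hq1, hq2⟩ := mem_filter.mp hq
    exact hj.2 q hq1 hq2
  have h3 := Ds_lower R R₁
  have h4 : 0 < VV 0 R := by
    unfold VV
    apply Finset.prod_pos
    intro q hq
    have h3 : (1 : ℝ) < q := by exact_mod_cast (mem_filter.mp hq).2.one_lt
    rw [sub_pos, div_lt_one (by linarith)]
    exact h3
  have h5 : 0 < Real.log R₁ := Real.log_pos (by exact_mod_cast (by omega : 1 < R₁))
  have h6 : (J : ℝ) / Pool.Agent.H99.ADS.Ds
      (fun q => if q ∈ ps R R₁ then ((1 : ℕ) : ℝ) else 0) R₁ ≤ J / (VV 0 R * Real.log R₁) :=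
    div_le_div_of_nonneg_left (Nat.cast_nonneg J) (mul_pos h4 h5) h3
  calc (((Finset.Icc 1 J).filter (fun j : ℕ => ∀ p ∈ Finset.Ioc R R₁, p.Prime →
        ¬ (p : ℤ) ∣ α + (Q : ℤ) * (j : ℤ))).card : ℝ)
      ≤ (((Icc 1 J).filter (fun m => ∀ q ∈ ps R R₁, ¬ bad α Q q m)).card : ℝ) := by
        exact_mod_cast h2
    _ ≤ _ := h1
    _ ≤ J / (VV 0 R * Real.log R₁) + (R₁ : ℝ) ^ 6 := by
        have := add_le_add_left h6 ((R₁ : ℝ) ^ 6)
        linarith

end Pool.Agent.H61.Adm
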