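import Pool.Agent.H61.Adm.Defs
import Pool.Agent.H27.AP.Mert

/-!
# Rankin bounds for smooth numbers
-/

set_option autoImplicit false

namespace Pool.Agent.H61.Adm

open Finset

namespace Smooth

open Pool.Agent.H27.AP (pw pw_apply pw_nonneg pw_one pw_lt_one hasSum_pw)

/-- `∏ (1 - p^(-s))⁻¹` over the primes `p ≤ K` -/
noncomputable def PP (K : ℕ) (s : ℝ) : ℝ := ∏ p ∈ (K + 1).primesBelow, (1 - pw s p)⁻¹

theorem primes_eq (K : ℕ) : (Finset.Ioc 0 K).filter Nat.Prime = (K + 1).primesBelow := by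
  ext p
  simp only [Nat.primesBelow, mem_filter, mem_Ioc, mem_range]
  constructor
  · rintro ⟨⟨_, h⟩, hp⟩; exact ⟨by omega, hp⟩
  · rintro ⟨h, hp⟩; exact ⟨⟨hp.pos, by omega⟩, hp⟩

theorem VV_mul_PP (K : ℕ) : VV 0 K * PP K 1 = 1 := by
  unfold VV PP
  rw [primes_eq, ← prod_mul_distrib]
  apply prod_eq_one
  intro p hp
  have hp' : p.Prime := (Nat.mem_primesBelow.1 hp).2
  have h1 := pw_lt_one (s := 1) one_pos hp'
  rw [pw_one] at h1 ⊢
  exact mul_inv_cancel₀ (by linarith)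

theorem VV_nonneg (K : ℕ) : 0 ≤ VV 0 K := by
  unfold VV
  apply prod_nonneg
  intro p hp
  have hp' : p.Prime := (mem_filter.1 hp).2
  have h1 := pw_lt_one (s := 1) one_pos hp'
  rw [pw_one] at h1
  linarith

theorem VV_le_one (K : ℕ) : VV 0 K ≤ 1 := by
  unfold VV
  apply prod_le_one
  · intro p hp
    have hp' : p.Prime := (mem_filter.1 hp).2
    have h1 := pw_lt_one (s := 1) one_pos hp'
    rw [pw_one] at h1
    linarith
  · intro p _
    have : (0 : ℝ) ≤ 1 / (p : ℝ) := by positivity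
    linarith

theorem mem_smooth {K X m : ℕ} (h : m ∈ Sm K X) : m ∈ (K + 1).smoothNumbers := by
  obtain ⟨h1, h2⟩ := mem_filter.1 h
  rw [Nat.mem_smoothNumbers]
  refine ⟨by have := (mem_Icc.1 h1).1; omega, ?_⟩
  intro p hp
  have := h2 p (List.mem_toFinset.2 hp)
  omega

theorem smooth_mem {K X m : ℕ} (h : m ∈ (K + 1).smoothNumbers) (hX : m ≤ X) : m ∈ Sm K X := by
  rw [Nat.mem_smoothNumbers] at h
  unfold Sm
  rw [mem_filter, mem_Icc]
  refine ⟨⟨Nat.pos_of_ne_zero h.1, hX⟩, ?_⟩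
  intro p hp
  have := h.2 p (List.mem_toFinset.1 hp)
  omega

theorem sum_le_PP {s : ℝ} (hs : 0 < s) (K X : ℕ) : ∑ m ∈ Sm K X, pw s m ≤ PP K s := by
  classical
  have h1 := hasSum_pw (s := s) hs (K + 1)
  have h2 := sum_le_hasSum ((Sm K X).subtype (fun m => m ∈ (K + 1).smoothNumbers))
      (fun i _ => pw_nonneg s _) h1
  refine le_trans ?_ h2
  rw [sum_subtype_eq_sum_filter (f := fun m => pw s m)]
  apply le_of_eq
  congr 1
  symm
  apply filter_true_of_mem
  intro m hm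
  exact mem_smooth hm

/-- Rankin's trick -/
theorem card_le {s : ℝ} (hs : 0 < s) (K X : ℕ) :
    ((Sm K X).card : ℝ) ≤ (X : ℝ) ^ s * PP K s := by
  have h1 : ((Sm K X).card : ℝ) ≤ (X : ℝ) ^ s * ∑ m ∈ Sm K X, pw s m := by
    rw [card_eq_sum_ones, Nat.cast_sum, mul_sum]
    apply sum_le_sum
    intro m hm
    obtain ⟨h1, h2⟩ := mem_Icc.1 (mem_filter.1 hm).1
    have hm0 : (0 : ℝ) < m := by exact_mod_cast h1
    have hmX : (m : ℝ) ≤ X := by exact_mod_cast h2
    rw [pw_apply, Real.rpow_neg hm0.le, ← div_eq_mul_inv, Nat.cast_one]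
    rw [one_le_div (by positivity)]
    exact Real.rpow_le_rpow hm0.le hmX hs.le
  refine h1.trans ?_
  exact mul_le_mul_of_nonneg_left (sum_le_PP hs K X) (by positivity)

/-- the number of primes up to `K` -/
theorem card_primes (K : ℕ) (hK : 2 ≤ K) : (K + 1).primesBelow.card ≤ K - 1 := by
  have : (K + 1).primesBelow ⊆ Finset.Icc 2 K := by
    intro p hp
    obtain ⟨h1, h2⟩ := Nat.mem_primesBelow.1 hp
    rw [mem_Icc]
    exact ⟨h2.two_le, by omega⟩
  refine (card_le_card this).trans ?_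
  rw [Nat.card_Icc]; omega

theorem log_three_gt {X : ℕ} (hX : 3 ≤ X) : 1 < Real.log X := by
  rw [Real.lt_log_iff_exp_lt (by positivity)]
  have h1 := Real.exp_one_lt_d9
  have h2 : (3 : ℝ) ≤ X := by exact_mod_cast hX
  linarith

theorem rpow_self {X : ℕ} (hX : 3 ≤ X) : (X : ℝ) ^ (1 / Real.log X) = Real.exp 1 := by
  have h0 : (0 : ℝ) < X := by positivity
  have h1 := log_three_gt hX
  rw [Real.rpow_def_of_pos h0]
  congr 1
  field_simp

theorem PP_le {K : ℕ} (hK : 2 ≤ K) {δ : ℝ} (h0 : 0 < δ) (h1 : δ ≤ 1) :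
    PP K δ ≤ (2 / δ) ^ (K - 1) := by
  have h3 : ∀ p ∈ (K + 1).primesBelow, (1 - pw δ p)⁻¹ ≤ 2 / δ := by
    intro p hp
    have hp' : p.Prime := (Nat.mem_primesBelow.1 hp).2
    have h4 : pw δ p ≤ 1 - δ / 2 := by
      rw [pw_apply]
      have h5 : (p : ℝ) ^ (-δ) ≤ (2 : ℝ) ^ (-δ) :=
        Real.rpow_le_rpow_of_nonpos (by norm_num) (by exact_mod_cast hp'.two_le) (by linarith)
      have h6 : (2 : ℝ) ^ (-δ) = (1 + (-(1 / 2))) ^ δ := by
        rw [Real.rpow_neg (by norm_num), ← Real.inv_rpow (by norm_num)]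
        norm_num
      have h7 := rpow_one_add_le_one_add_mul_self (s := (-(1 / 2) : ℝ)) (by norm_num) h0.le h1
      rw [← h6] at h7
      linarith
    have h8 : (2 / δ) = (δ / 2)⁻¹ := by rw [inv_div]
    rw [h8]
    exact inv_anti₀ (by linarith) (by linarith)
  have h9 : (1 : ℝ) ≤ 2 / δ := by
    rw [le_div_iff₀ h0]; linarith
  calc PP K δ ≤ ∏ _p ∈ (K + 1).primesBelow, (2 / δ) := by
        apply prod_le_prod _ h3
        intro p hp
        have hp' : p.Prime := (Nat.mem_primesBelow.1 hp).2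
        have := pw_lt_one h0 hp'
        exact inv_nonneg.2 (by linarith)
    _ = (2 / δ) ^ (K + 1).primesBelow.card := by rw [prod_const]
    _ ≤ (2 / δ) ^ (K - 1) := pow_le_pow_right₀ h9 (card_primes K hK)

theorem e_le : Real.exp 1 ≤ 3 := by
  have := Real.exp_one_lt_d9
  linarith

/-- the bound `X^δ P(δ) ≤ 3 (6 log X)^(K-1)` for `δ = 1/log X` -/
theorem key {K X : ℕ} (hK : 2 ≤ K) (hX : 3 ≤ X) :
    (X : ℝ) ^ (1 / Real.log X) * PP K (1 / Real.log X) ≤ 3 * (6 * Real.log X) ^ (K - 1) := by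
  have h1 := log_three_gt hX
  have h2 : 0 < 1 / Real.log X := by positivity
  have h3 : 1 / Real.log X ≤ 1 := by
    rw [div_le_one (by linarith)]; exact h1.le
  have h4 := PP_le hK h2 h3
  have h5 : 2 / (1 / Real.log X) = 2 * Real.log X := by field_simp
  rw [h5] at h4
  rw [rpow_self hX]
  calc Real.exp 1 * PP K (1 / Real.log X) ≤ Real.exp 1 * (2 * Real.log X) ^ (K - 1) :=
        mul_le_mul_of_nonneg_left h4 (Real.exp_pos 1).le
    _ ≤ 3 * (2 * Real.log X) ^ (K - 1) := mul_le_mul_of_nonneg_right e_le (by positivity)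
    _ ≤ 3 * (6 * Real.log X) ^ (K - 1) := by
        apply mul_le_mul_of_nonneg_left _ (by norm_num)
        apply pow_le_pow_left₀ (by positivity)
        nlinarith

theorem card (K X : ℕ) (hK : 2 ≤ K) (hX : 3 ≤ X) :
    ((Sm K X).card : ℝ) ≤ 3 * (6 * Real.log X) ^ (K - 1) := by
  have h1 := log_three_gt hX
  exact (card_le (by positivity) K X).trans (key hK hX)

theorem sum_one (K X : ℕ) : ∑ s ∈ Sm K X, 1 / (s : ℝ) = ∑ s ∈ Sm K X, pw 1 s := by
  apply sum_congr rfl
  intro s _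
  rw [pw_one]

theorem mass (K X : ℕ) : VV 0 K * ∑ s ∈ Sm K X, 1 / (s : ℝ) ≤ 1 := by
  rw [sum_one]
  calc VV 0 K * ∑ s ∈ Sm K X, pw 1 s ≤ VV 0 K * PP K 1 :=
        mul_le_mul_of_nonneg_left (sum_le_PP one_pos K X) (VV_nonneg K)
    _ = 1 := VV_mul_PP K

/-- the tail of the mass -/
theorem PP_one_le (K X : ℕ) (hX : 3 ≤ X) :
    PP K 1 ≤ ∑ s ∈ Sm K X, pw 1 s +
      (X : ℝ) ^ (1 / Real.log X) * PP K (1 / Real.log X) / X := by
  classical
  set δ : ℝ := 1 / Real.log X with hδ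
  have h1 := log_three_gt hX
  have h2 : 0 < δ := by rw [hδ]; positivity
  have h3 : δ ≤ 1 := by
    rw [hδ, div_le_one (by linarith)]; exact h1.le
  have hX0 : (0 : ℝ) < X := by positivity
  apply hasSum_le_of_sum_le (hasSum_pw one_pos (K + 1))
  intro t
  set T := t.image (fun m : (K + 1).smoothNumbers => (m : ℕ)) with hT
  have hTs : ∀ m ∈ T, m ∈ (K + 1).smoothNumbers := by
    intro m hm
    obtain ⟨a, -, rfl⟩ := mem_image.1 hm
    exact a.2
  have h4 : ∑ m ∈ t, pw 1 m = ∑ m ∈ T, pw 1 m := by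
    rw [hT, sum_image (fun a _ b _ h => Subtype.ext h)]
  have h4' : ∑ m ∈ t, pw δ m = ∑ m ∈ T, pw δ m := by
    rw [hT, sum_image (fun a _ b _ h => Subtype.ext h)]
  rw [h4, ← sum_filter_add_sum_filter_not T (fun m => m ≤ X)]
  apply add_le_add
  · apply sum_le_sum_of_subset_of_nonneg _ fun i _ _ => pw_nonneg 1 i
    intro m hm
    obtain ⟨h5, h6⟩ := mem_filter.1 hm
    exact smooth_mem (hTs m h5) h6
  · have h7 : ∑ m ∈ T.filter (fun m => ¬ m ≤ X), pw 1 m ≤
        ∑ m ∈ T.filter (fun m => ¬ m ≤ X), (X : ℝ) ^ δ * pw δ m / X := by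
      apply sum_le_sum
      intro m hm
      obtain ⟨h5, h6⟩ := mem_filter.1 hm
      have h7 : (X : ℝ) ≤ m := by
        have : X ≤ m := by omega
        exact_mod_cast this
      have hm0 : (0 : ℝ) < m := lt_of_lt_of_le hX0 h7
      rw [pw_apply, pw_apply, Real.rpow_neg hm0.le, Real.rpow_one, Real.rpow_neg hm0.le]
      have h8 : (X : ℝ) ^ (1 - δ) ≤ (m : ℝ) ^ (1 - δ) :=
        Real.rpow_le_rpow hX0.le h7 (by linarith)
      rw [Real.rpow_sub hX0, Real.rpow_sub hm0, Real.rpow_one, Real.rpow_one] at h8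
      have hXd : (0 : ℝ) < (X : ℝ) ^ δ := by positivity
      have hmd : (0 : ℝ) < (m : ℝ) ^ δ := by positivity
      rw [div_le_div_iff₀ hXd hmd] at h8
      rw [← div_eq_mul_inv, div_div, inv_eq_one_div, div_le_div_iff₀ hm0 (by positivity)]
      nlinarith
    refine h7.trans ?_
    have h9 : ∑ m ∈ T.filter (fun m => ¬ m ≤ X), (X : ℝ) ^ δ * pw δ m / X ≤
        ∑ m ∈ T, (X : ℝ) ^ δ * pw δ m / X := by
      apply sum_le_sum_of_subset_of_nonneg (filter_subset _ _)
      intro i _ _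
      have := pw_nonneg δ i
      positivity
    refine h9.trans ?_
    rw [← sum_div, ← mul_sum]
    apply div_le_div_of_nonneg_right _ hX0.le
    apply mul_le_mul_of_nonneg_left _ (by positivity)
    rw [← h4']
    exact sum_le_hasSum t (fun i _ => pw_nonneg δ _) (hasSum_pw h2 (K + 1))

theorem tail (K X : ℕ) (hK : 2 ≤ K) (hX : 3 ≤ X) :
    1 - 3 * (6 * Real.log X) ^ (K - 1) / X ≤ VV 0 K * ∑ s ∈ Sm K X, 1 / (s : ℝ) := by
  have hX0 : (0 : ℝ) < X := by positivity
  have h1 := PP_one_le K X hX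
  have h2 := key hK hX
  have h3 : PP K 1 ≤ ∑ s ∈ Sm K X, pw 1 s + 3 * (6 * Real.log X) ^ (K - 1) / X := by
    refine h1.trans ?_
    gcongr
  have h4 := mul_le_mul_of_nonneg_left h3 (VV_nonneg K)
  rw [VV_mul_PP, mul_add] at h4
  rw [sum_one]
  have hl := log_three_gt hX
  have h5 : VV 0 K * (3 * (6 * Real.log X) ^ (K - 1) / X) ≤
      1 * (3 * (6 * Real.log X) ^ (K - 1) / X) :=
    mul_le_mul_of_nonneg_right (VV_le_one K) (by positivity)
  linarith

theorem psi (w M : ℕ) (hw : 2 ≤ Real.log w) (hM : w ≤ M) :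
    ((Sm w M).card : ℝ) ≤ M * Real.exp (-(Real.log M / Real.log w)) * (1 + Real.log w) ^ 36 := by
  have hw0 : 0 < w := by
    rcases Nat.eq_zero_or_pos w with h | h
    · subst h; simp at hw; linarith
    · exact h
  have hw0' : (0 : ℝ) < w := by exact_mod_cast hw0
  have hl : 0 < Real.log w := by linarith
  have hM0 : (0 : ℝ) < M := by
    have : 0 < M := by omega
    exact_mod_cast this
  have hw2 : (2 : ℝ) ≤ w := by
    by_contra hc
    have h1 : Real.log w ≤ Real.log 2 := Real.log_le_log hw0' (by linarith)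
    have := Real.log_two_lt_d9
    linarith
  set σ : ℝ := 1 - 1 / Real.log w with hσ
  have hσ1 : 1 / Real.log w ≤ 1 / 2 := by
    apply one_div_le_one_div_of_le (by norm_num) hw
  have hσ0 : 1 / 2 ≤ σ := by linarith
  have h1 := card_le (s := σ) (by linarith) w M
  have h2 : (M : ℝ) ^ σ = M * Real.exp (-(Real.log M / Real.log w)) := by
    rw [hσ, Real.rpow_sub hM0, Real.rpow_one, Real.rpow_def_of_pos hM0, Real.exp_neg,
      div_eq_mul_inv]
    congr 3
    ring
  rw [h2] at h1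
  refine h1.trans ?_
  apply mul_le_mul_of_nonneg_left _ (by positivity)
  -- the product
  have hlt : ∀ p ∈ (w + 1).primesBelow, pw σ p ≤ 3 / 4 := by
    intro p hp
    have hp' : p.Prime := (Nat.mem_primesBelow.1 hp).2
    rw [pw_apply]
    have h5 : (p : ℝ) ^ (-σ) ≤ (2 : ℝ) ^ (-σ) :=
      Real.rpow_le_rpow_of_nonpos (by norm_num) (by exact_mod_cast hp'.two_le) (by linarith)
    have h6 : (2 : ℝ) ^ (-σ) ≤ (2 : ℝ) ^ (-(1 / 2 : ℝ)) :=
      Real.rpow_le_rpow_of_exponent_le (by norm_num) (by linarith)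
    have h7 : (2 : ℝ) ^ (-(1 / 2 : ℝ)) ≤ 3 / 4 := by
      rw [Real.rpow_neg (by norm_num), ← Real.sqrt_eq_rpow]
      rw [inv_le_comm₀ (by positivity) (by norm_num)]
      apply Real.le_sqrt_of_sq_le
      norm_num
    linarith
  have hpos : ∀ p ∈ (w + 1).primesBelow, 0 < (1 - pw σ p)⁻¹ := by
    intro p hp
    have := hlt p hp
    exact inv_pos.2 (by linarith)
  have hle : ∀ p ∈ (w + 1).primesBelow, Real.log ((1 - pw σ p)⁻¹) ≤ 12 * (1 / (p : ℝ)) := by
    intro p hp
    have hp' : p.Prime := (Nat.mem_primesBelow.1 hp).2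
    have hp0 : (0 : ℝ) < p := by exact_mod_cast hp'.pos
    have h3 := hlt p hp
    have h4 := Real.log_le_sub_one_of_pos (hpos p hp)
    have h5 : (1 - pw σ p)⁻¹ - 1 ≤ 4 * pw σ p := by
      have h6 := pw_nonneg σ p
      have h7 : (0 : ℝ) < 1 - pw σ p := by linarith
      rw [sub_le_iff_le_add, inv_le_iff_one_le_mul₀ h7]
      nlinarith
    have h8 : pw σ p ≤ 3 * (1 / (p : ℝ)) := by
      rw [pw_apply, hσ]
      have h9 : (p : ℝ) ^ (-(1 - 1 / Real.log w)) = Real.exp (Real.log p / Real.log w) * (1 / (p : ℝ)) := by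
        rw [Real.rpow_def_of_pos hp0]
        have h10 : Real.log p * -(1 - 1 / Real.log w) = Real.log p / Real.log w - Real.log p := by ring
        rw [h10, Real.exp_sub, Real.exp_log hp0]
        ring
      rw [h9]
      apply mul_le_mul_of_nonneg_right _ (by positivity)
      refine le_trans (Real.exp_le_exp.2 ?_) e_le
      rw [div_le_one hl]
      apply Real.log_le_log hp0
      have : p ≤ w := by
        have := (Nat.mem_primesBelow.1 hp).1
        omega
      exact_mod_cast this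
    linarith
  have hsum : Real.log (PP w σ) ≤ 36 * Real.log (1 + Real.log w) := by
    unfold PP
    rw [Real.log_prod (fun p hp => (hpos p hp).ne')]
    refine (sum_le_sum hle).trans ?_
    rw [← mul_sum]
    have h3 := Pool.Agent.H27.AP.m1 (w : ℝ) hw2
    rw [Pool.Agent.H27.AP.PZ_eq, Nat.floor_natCast] at h3
    linarith
  have hPP : 0 < PP w σ := prod_pos hpos
  rw [← Real.log_le_log_iff hPP (by positivity), Real.log_pow]
  push_cast
  exact hsum

end Smooth

theorem smooth : SmoothSt where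
  card := Smooth.card
  mass := Smooth.mass
  tail := Smooth.tail
  psi := Smooth.psi

end Pool.Agent.H61.Adm
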