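import Pool.Agent.H61.Adm.Defs

/-!
# Asymptotic inequalities for `log k`, `loglog k`
-/

set_option autoImplicit false

namespace Pool.Agent.H61.Adm.Asym

open Filter Real

theorem tL1 : Tendsto (fun k : ℕ => L1 k) atTop atTop :=
  Real.tendsto_log_atTop.comp tendsto_natCast_atTop_atTop

theorem tL2 : Tendsto (fun k : ℕ => L2 k) atTop atTop :=
  Real.tendsto_log_atTop.comp tL1

theorem tL3 : Tendsto (fun k : ℕ => Real.log (L2 k)) atTop atTop :=
  Real.tendsto_log_atTop.comp tL2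

/-- `x^a log x = o(x^b)` -/
theorem rpow_log {a b : ℝ} (hab : a < b) (hb : 0 < b) (c : ℝ) (hc : 0 < c) (A B : ℝ) :
    ∀ᶠ x : ℝ in atTop, A + B * (x ^ a * Real.log (12 * x)) ≤ c * x ^ b := by
  have h1 : (fun x : ℝ => x ^ a * Real.log (12 * x)) =o[atTop] (fun x : ℝ => x ^ b) := by
    have h2 : (fun x : ℝ => Real.log (12 * x)) =o[atTop] (fun x : ℝ => x ^ (b - a)) := by
      have h3 : (fun x : ℝ => Real.log (12 * x)) =ᶠ[atTop] fun x => Real.log 12 + Real.log x := by
        filter_upwards [eventually_gt_atTop 0] with x hx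
        rw [Real.log_mul (by norm_num) hx.ne']
      refine h3.trans_isLittleO ?_
      refine Asymptotics.IsLittleO.add ?_ (isLittleO_log_rpow_atTop (by linarith))
      exact Asymptotics.isLittleO_const_left.2 (Or.inr (by
        have := tendsto_rpow_atTop (show 0 < b - a by linarith)
        exact tendsto_norm_atTop_atTop.comp this))
    have h4 : (fun x : ℝ => x ^ b) =ᶠ[atTop] fun x => x ^ a * x ^ (b - a) := by
      filter_upwards [eventually_gt_atTop 0] with x hx
      rw [← Real.rpow_add hx]; congr 1; ring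
    exact ((Asymptotics.isBigO_refl _ _).mul_isLittleO h2).trans_eventuallyEq h4.symm
  have h5 : (fun x : ℝ => A + B * (x ^ a * Real.log (12 * x))) =o[atTop] (fun x : ℝ => x ^ b) := by
    refine Asymptotics.IsLittleO.add ?_ (h1.const_mul_left B)
    exact Asymptotics.isLittleO_const_left.2 (Or.inr
      (tendsto_norm_atTop_atTop.comp (tendsto_rpow_atTop hb)))
  filter_upwards [h5.def hc, eventually_gt_atTop 0] with x hx hx0
  have h6 := le_trans (le_abs_self _) hx
  rwa [Real.norm_of_nonneg (by positivity)] at h6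

/-- The number `3 (6 log X)^(K-1)` for `log X ≤ 2 l`, `K ≤ l^(1/4)`. -/
theorem smooth_le : ∀ᶠ l : ℝ in atTop, ∀ (K X : ℕ), 2 ≤ K → (K : ℝ) ≤ l ^ (1 / 4 : ℝ) → 1 ≤ X →
    Real.log X ≤ 2 * l → 3 * (6 * Real.log X) ^ (K - 1) ≤ Real.exp (l ^ (1 / 3 : ℝ) / 2) := by
  filter_upwards [rpow_log (show (1 / 4 : ℝ) < 1 / 3 by norm_num) (by norm_num) (1 / 2)
    (by norm_num) (Real.log 3) 1, eventually_ge_atTop 1] with l h1 hl K X hK hKl hX hlX
  have hX' : 0 ≤ Real.log X := Real.log_natCast_nonneg X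
  have h2 : (6 * Real.log X) ^ (K - 1) ≤ (12 * l) ^ (K - 1) :=
    pow_le_pow_left₀ (by positivity) (by linarith) _
  have h3 : ((K - 1 : ℕ) : ℝ) ≤ l ^ (1 / 4 : ℝ) := by
    have : ((K - 1 : ℕ) : ℝ) ≤ K := by exact_mod_cast Nat.sub_le K 1
    linarith
  have h4 : (12 * l) ^ (K - 1) = Real.exp (((K - 1 : ℕ) : ℝ) * Real.log (12 * l)) := by
    rw [← Real.rpow_natCast, Real.rpow_def_of_pos (by positivity)]
    congr 1; ring
  have hlog : 0 ≤ Real.log (12 * l) := Real.log_nonneg (by linarith)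
  have h5 : Real.exp (((K - 1 : ℕ) : ℝ) * Real.log (12 * l)) ≤
      Real.exp (l ^ (1 / 4 : ℝ) * Real.log (12 * l)) :=
    Real.exp_le_exp.2 (mul_le_mul_of_nonneg_right h3 hlog)
  have h6 : (3 : ℝ) = Real.exp (Real.log 3) := (Real.exp_log (by norm_num)).symm
  calc 3 * (6 * Real.log X) ^ (K - 1) ≤ 3 * Real.exp (l ^ (1 / 4 : ℝ) * Real.log (12 * l)) := by
        linarith [h2, h4.le, h5]
    _ = Real.exp (Real.log 3 + l ^ (1 / 4 : ℝ) * Real.log (12 * l)) := by
        rw [Real.exp_add, ← h6]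
    _ ≤ _ := Real.exp_le_exp.2 (by linarith)

/-- `A exp(x^(1/3)) ≤ exp x` etc. -/
theorem cube_le (A : ℝ) : ∀ᶠ x : ℝ in atTop, A + x ^ (1 / 3 : ℝ) ≤ x := by
  filter_upwards [rpow_log (show (1 / 3 : ℝ) < 1 by norm_num) (by norm_num) 1 (by norm_num) A 1,
    eventually_ge_atTop 1] with x hx h1
  rw [Real.rpow_one, one_mul, one_mul] at hx
  have h2 : 1 ≤ Real.log (12 * x) := by
    rw [Real.le_log_iff_exp_le (by positivity)]
    have := Real.exp_one_lt_d9
    linarith
  have h3 : x ^ (1 / 3 : ℝ) ≤ x ^ (1 / 3 : ℝ) * Real.log (12 * x) :=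
    le_mul_of_one_le_right (by positivity) h2
  linarith

theorem cube_tendsto : Tendsto (fun x : ℝ => x ^ (1 / 3 : ℝ)) atTop atTop :=
  tendsto_rpow_atTop (by norm_num)

end Pool.Agent.H61.Adm.Asym
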