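import Pool.Agent.H61.Adm.Gain
import Pool.Agent.H61.Adm.Asym

/-!
# From the lower bound and the prime number theorem to the main theorem for all large `k`
-/

set_option autoImplicit false

namespace Pool.Agent.H61.Adm

open Finset Filter

namespace Strong

/-- The term for one `s`. -/
theorem term {C L y a N : ℝ} (hC : 0 < C) (hL : 2 ≤ L) (hy : 2 < y)
    (hly : Real.log y = L - a) (hly1 : 1 ≤ L - a) (hN1 : y - 2 ≤ N) (hN2 : N ≤ y)
    (hN3 : L / 2 ≤ Real.log N) (hN : 2 ≤ N) (P : ℝ)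
    (hP : |P - N / Real.log N| ≤ C * N / Real.log N ^ 2) :
    y * (1 / L + (a - 4 * C) / L ^ 2) - 2 ≤ P := by
  have hL0 : 0 < L := by linarith
  have hlN0 : 0 < Real.log N := by linarith
  have hlN : Real.log N ≤ L - a := by
    rw [← hly]; exact Real.log_le_log (by linarith) hN2
  have h1 := (abs_le.1 hP).1
  have h2 : C * N / Real.log N ^ 2 ≤ 4 * C * y / L ^ 2 := by
    rw [div_le_div_iff₀ (by positivity) (by positivity)]
    have h3 : L ^ 2 ≤ 4 * Real.log N ^ 2 := by nlinarith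
    have h4 : C * N * L ^ 2 ≤ C * y * (4 * Real.log N ^ 2) := by gcongr
    linarith
  have h5 : (y - 2) / (L - a) ≤ N / Real.log N := by
    rw [div_le_div_iff₀ (by linarith) hlN0]
    have : (y - 2) * Real.log N ≤ N * (L - a) := by
      apply mul_le_mul hN1 hlN hlN0.le (by linarith)
    linarith
  have h6 : y / (L - a) - 2 ≤ (y - 2) / (L - a) := by
    rw [sub_div]
    have : 2 / (L - a) ≤ 2 := div_le_self (by norm_num) hly1
    linarith
  have h7 : y * (1 / L + a / L ^ 2) ≤ y / (L - a) := by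
    rw [le_div_iff₀ (by linarith)]
    have : (1 / L + a / L ^ 2) * (L - a) ≤ 1 := by
      have h8 : (1 / L + a / L ^ 2) * (L - a) = 1 - a ^ 2 / L ^ 2 := by
        field_simp; ring
      rw [h8]
      have : 0 ≤ a ^ 2 / L ^ 2 := by positivity
      linarith
    calc y * (1 / L + a / L ^ 2) * (L - a) = y * ((1 / L + a / L ^ 2) * (L - a)) := by ring
      _ ≤ y * 1 := by gcongr
      _ = y := mul_one y
  have h9 : y * (1 / L + (a - 4 * C) / L ^ 2) = y * (1 / L + a / L ^ 2) - 4 * C * y / L ^ 2 := by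
    ring
  linarith

/-- the eventual inequalities -/
structure Ev (C c1 : ℝ) (k K : ℕ) : Prop where
  K2 : 2 ≤ K
  KL : (K : ℝ) ≤ L2 k ^ (1 / 4 : ℝ)
  logK : 1 / 4 * Real.log (L2 k) - Real.log 2 ≤ Real.log K
  L4 : 4 ≤ L1 k
  X3 : ∀ p : ℕ, 1 ≤ p → p ≤ K → 3 ≤ XX k / p
  /-- `s ≤ XX k` -/
  s1 : ∀ s : ℕ, 1 ≤ s → s ≤ XX k → 1 ≤ L1 k - Real.log (2 * s)
  s2 : ∀ s : ℕ, 1 ≤ s → s ≤ XX k → 4 ≤ (k : ℝ) / (2 * s) ∧
    Real.exp (L1 k / 2) ≤ (k : ℝ) / (2 * s) - 2
  cardS : 4 * (3 * (6 * Real.log (XX k)) ^ (K - 1)) ≤ (k : ℝ) / L1 k ^ 2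
  tail : ∀ p : ℕ, 1 ≤ p → p ≤ K →
    3 * (6 * Real.log (XX k / p : ℕ)) ^ (K - 1) / (XX k / p : ℕ) ≤ 1 / L1 k
  lK : Real.log K ≤ L1 k
  fin : 5 * C + c1 + 6 ≤ 1 / 20 * Real.log (L2 k)

theorem gain_ge {c1 : ℝ} (S : SmoothSt)
    (hm : ∀ y : ℕ, 1 ≤ y → |∑ p ∈ (Finset.Icc 1 y).filter Nat.Prime, Real.log p / p - Real.log y| ≤ c1)
    {C : ℝ} {k K : ℕ} (E : Ev C c1 k K) :
    Real.log K - c1 - 1 ≤ VV 0 K * ∑ s ∈ Sm K (XX k), Real.log s / s := by
  have hL : 0 < L1 k := by have := E.L4; linarith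
  have hV := Gain.VV_nonneg 0 K
  have hK1 : 1 ≤ K := by have := E.K2; omega
  have h0 := (abs_le.1 (hm K hK1)).1
  have hlK : 0 ≤ Real.log K := Real.log_natCast_nonneg K
  have hc : 0 ≤ c1 := (abs_nonneg _).trans (hm K hK1)
  have h1 : ∀ p ∈ (Finset.Icc 1 K).filter Nat.Prime, Real.log p / p * (1 - 1 / L1 k) ≤
      Real.log p / p * (VV 0 K * ∑ t ∈ Sm K (XX k / p), 1 / (t : ℝ)) := by
    intro p hp
    rw [mem_filter, mem_Icc] at hp
    have h2 := S.tail K (XX k / p) E.K2 (E.X3 p hp.1.1 hp.1.2)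
    have h3 := E.tail p hp.1.1 hp.1.2
    have h4 : 0 ≤ Real.log (p : ℝ) / p := div_nonneg (Real.log_natCast_nonneg p) (Nat.cast_nonneg p)
    exact mul_le_mul_of_nonneg_left (by linarith) h4
  have h5 := sum_le_sum h1
  rw [← sum_mul] at h5
  have h6 : ∑ p ∈ (Finset.Icc 1 K).filter Nat.Prime,
      Real.log p / p * (VV 0 K * ∑ t ∈ Sm K (XX k / p), 1 / (t : ℝ)) ≤
      VV 0 K * ∑ s ∈ Sm K (XX k), Real.log s / s := by
    have h7 := mul_le_mul_of_nonneg_left (Gain.gain K (XX k)) hV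
    refine le_trans (le_of_eq ?_) h7
    rw [mul_sum]
    refine sum_congr rfl fun p _ => ?_
    ring
  have h8 : Real.log K - c1 - 1 ≤
      (∑ p ∈ (Finset.Icc 1 K).filter Nat.Prime, Real.log p / p) * (1 - 1 / L1 k) := by
    have h9 : 0 ≤ 1 - 1 / L1 k := by
      rw [sub_nonneg, div_le_one hL]; have := E.L4; linarith
    have h10 : (Real.log K - c1) * (1 - 1 / L1 k) ≤
        (∑ p ∈ (Finset.Icc 1 K).filter Nat.Prime, Real.log p / p) * (1 - 1 / L1 k) :=
      mul_le_mul_of_nonneg_right (by linarith) h9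
    have h11 : Real.log K * (1 / L1 k) ≤ 1 := by
      rw [mul_one_div, div_le_one hL]; exact E.lK
    have h12 : 0 ≤ c1 * (1 / L1 k) := by positivity
    nlinarith
  linarith

theorem main_ineq {C c1 : ℝ} (hC : 0 < C) (S : SmoothSt)
    (hm : ∀ y : ℕ, 1 ≤ y → |∑ p ∈ (Finset.Icc 1 y).filter Nat.Prime, Real.log p / p - Real.log y| ≤ c1)
    (hP : ∀ x : ℝ, 2 ≤ x →
      |(Nat.primeCounting ⌊x⌋₊ : ℝ) - x / Real.log x| ≤ C * x / Real.log x ^ 2)
    {k K : ℕ} (E : Ev C c1 k K) :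
    (Nat.primeCounting k : ℝ) + 1 / 5 * k * Real.log (L2 k) / L1 k ^ 2 ≤
      2 * VV 0 K * ∑ s ∈ Sm K (XX k), (Nat.primeCounting ((k - 1) / 2 / s) : ℝ) -
        1 * k / L1 k ^ 2 := by
  have hL4 := E.L4
  have hL : 0 < L1 k := by linarith
  have hV := Gain.VV_nonneg 0 K
  set L := L1 k with hLdef
  have hk0 : (0 : ℝ) < k := by
    by_contra hc
    have : (k : ℝ) = 0 := le_antisymm (not_lt.1 hc) (Nat.cast_nonneg k)
    rw [hLdef, L1, this, Real.log_zero] at hL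
    exact lt_irrefl _ hL
  have hkexp : (k : ℝ) = Real.exp L := by rw [hLdef, L1, Real.exp_log hk0]
  have hk2 : (2 : ℝ) ≤ k := by
    rw [hkexp]
    have := Real.add_one_le_exp L
    linarith
  -- the upper bound for `π(k)`
  have hup : (Nat.primeCounting k : ℝ) ≤ k / L + C * k / L ^ 2 := by
    have h1 := (abs_le.1 (hP k hk2)).2
    rw [Nat.floor_natCast] at h1
    have : Real.log k = L := rfl
    rw [this] at h1
    linarith
  -- the terms
  have hterm : ∀ s ∈ Sm K (XX k),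
      (k : ℝ) / (2 * s) * (1 / L + (Real.log (2 * s) - 4 * C) / L ^ 2) - 2 ≤
        (Nat.primeCounting ((k - 1) / 2 / s) : ℝ) := by
    intro s hs
    rw [Gain.mem_Sm] at hs
    obtain ⟨hs1, hs2, -⟩ := hs
    have hs0 : (1 : ℝ) ≤ s := by exact_mod_cast hs1
    obtain ⟨e1, e2⟩ := E.s2 s hs1 hs2
    have e3 := E.s1 s hs1 hs2
    set N : ℕ := (k - 1) / 2 / s with hN
    have hN' : N = (k - 1) / (2 * s) := by rw [hN, Nat.div_div_eq_div_mul]
    have hk1 : 1 ≤ k := by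
      have : (1 : ℝ) ≤ k := by linarith
      exact_mod_cast this
    have h2s : (0 : ℝ) < 2 * s := by linarith
    have hNup : (N : ℝ) ≤ (k : ℝ) / (2 * s) := by
      rw [hN']
      have h1 : (((k - 1) / (2 * s) : ℕ) : ℝ) ≤ ((k - 1 : ℕ) : ℝ) / ((2 * s : ℕ) : ℝ) := Nat.cast_div_le
      have h2 : ((k - 1 : ℕ) : ℝ) ≤ k := by exact_mod_cast Nat.sub_le k 1
      push_cast at h1
      refine h1.trans ?_
      gcongr
    have hNlow : (k : ℝ) / (2 * s) - 2 ≤ N := by
      rw [hN']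
      have h1 : (k - 1) < (2 * s) * ((k - 1) / (2 * s) + 1) := by
        exact Nat.lt_mul_div_succ (k - 1) (by omega)
      have h2 : ((k - 1 : ℕ) : ℝ) < (2 * s) * ((((k - 1) / (2 * s) : ℕ) : ℝ) + 1) := by
        exact_mod_cast h1
      rw [Nat.cast_sub hk1] at h2
      rw [sub_le_iff_le_add, div_le_iff₀ h2s]
      nlinarith
    have hexp : Real.exp (L / 2) ≤ N := e2.trans hNlow
    have hN2 : (2 : ℝ) ≤ N := by
      have := Real.add_one_le_exp (L / 2)
      linarith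
    have hP' := hP N hN2
    rw [Nat.floor_natCast] at hP'
    refine term hC (by linarith) (by linarith) ?_ e3 hNlow hNup ?_
      hN2 _ hP'
    · rw [Real.log_div hk0.ne' h2s.ne']; rfl
    · rw [Real.le_log_iff_exp_le (by linarith)]
      exact hexp
  have hsum := mul_le_mul_of_nonneg_left (sum_le_sum hterm) (show 0 ≤ 2 * VV 0 K by positivity)
  -- evaluate the left side
  have hG := gain_ge S hm E
  have hm1 := S.mass K (XX k)
  have hX3 := E.X3 1 le_rfl (by have := E.K2; omega)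
  rw [Nat.div_one] at hX3
  have hm2 := S.tail K (XX k) E.K2 hX3
  have hm3 := E.tail 1 le_rfl (by have := E.K2; omega)
  rw [Nat.div_one] at hm3
  have hcard := S.card K (XX k) E.K2 hX3
  have hcS := E.cardS
  set m1 := VV 0 K * ∑ s ∈ Sm K (XX k), 1 / (s : ℝ) with hm1def
  set G := VV 0 K * ∑ s ∈ Sm K (XX k), Real.log s / s with hGdef
  have hV1 : VV 0 K ≤ 1 := by
    unfold VV
    refine prod_le_one (fun p hp => ?_) (fun p hp => ?_)
    · rw [mem_filter] at hp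
      have h2 : (2 : ℝ) ≤ p := by exact_mod_cast hp.2.two_le
      have : 1 / (p : ℝ) ≤ 1 := by
        rw [div_le_one (by linarith)]
        linarith
      linarith
    · have : 0 ≤ 1 / (p : ℝ) := by positivity
      linarith
  have hlhs : k / L * m1 + k / L ^ 2 * (G - 4 * C * m1) - 4 * VV 0 K * (Sm K (XX k)).card ≤
      2 * VV 0 K * ∑ s ∈ Sm K (XX k), ((k : ℝ) / (2 * s) *
        (1 / L + (Real.log (2 * s) - 4 * C) / L ^ 2) - 2) := by
    rw [sum_sub_distrib, sum_const, nsmul_eq_mul]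
    have h1 : k / L * m1 + k / L ^ 2 * (G - 4 * C * m1) =
        2 * VV 0 K * ∑ s ∈ Sm K (XX k), ((k : ℝ) / (2 * s) *
          (1 / L + (Real.log s - 4 * C) / L ^ 2)) := by
      rw [hm1def, hGdef, mul_sum, mul_sum, mul_sum, mul_sum, mul_sum, ← sum_sub_distrib, mul_sum,
        ← sum_add_distrib]
      refine sum_congr rfl fun s hs => ?_
      rw [Gain.mem_Sm] at hs
      have hs0 : (0 : ℝ) < s := by exact_mod_cast hs.1
      field_simp
    have h2 : ∑ s ∈ Sm K (XX k), ((k : ℝ) / (2 * s) *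
          (1 / L + (Real.log s - 4 * C) / L ^ 2)) ≤ ∑ s ∈ Sm K (XX k), ((k : ℝ) / (2 * s) *
          (1 / L + (Real.log (2 * s) - 4 * C) / L ^ 2)) := by
      refine sum_le_sum fun s hs => ?_
      rw [Gain.mem_Sm] at hs
      have hs0 : (0 : ℝ) < s := by exact_mod_cast hs.1
      have hlog : Real.log s ≤ Real.log (2 * s) := Real.log_le_log hs0 (by linarith)
      gcongr
    have h3 := mul_le_mul_of_nonneg_left h2 (show 0 ≤ 2 * VV 0 K by positivity)
    rw [← h1] at h3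
    rw [mul_sub]
    linarith
  -- final estimate
  have hfin := E.fin
  have hlogK := E.logK
  have hl2 : Real.log 2 ≤ 1 := by have := Real.log_two_lt_d9; linarith
  have hkL : 0 < (k : ℝ) / L ^ 2 := by positivity
  have e1 : 4 * VV 0 K * (Sm K (XX k)).card ≤ k / L ^ 2 := by
    have h1 : VV 0 K * (Sm K (XX k)).card ≤ 1 * (Sm K (XX k)).card :=
      mul_le_mul_of_nonneg_right hV1 (Nat.cast_nonneg _)
    linarith
  have e2 : k / L - k / L ^ 2 ≤ k / L * m1 := by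
    have h1 : 1 - 1 / L ≤ m1 := by linarith
    have h2 : k / L * (1 - 1 / L) ≤ k / L * m1 := mul_le_mul_of_nonneg_left h1 (by positivity)
    have h3 : k / L * (1 - 1 / L) = k / L - k / L ^ 2 := by
      field_simp
    linarith
  have e3 : k / L ^ 2 * (G - 4 * C) ≤ k / L ^ 2 * (G - 4 * C * m1) := by
    apply mul_le_mul_of_nonneg_left _ hkL.le
    have : C * m1 ≤ C * 1 := mul_le_mul_of_nonneg_left hm1 hC.le
    linarith
  have e4 : 1 / 5 * Real.log (L2 k) + 5 * C + 3 ≤ G := by linarith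
  have e5 := mul_le_mul_of_nonneg_left e4 hkL.le
  have e6 : 1 / 5 * (k : ℝ) * Real.log (L2 k) / L ^ 2 = k / L ^ 2 * (1 / 5 * Real.log (L2 k)) := by
    ring
  have e7 : C * k / L ^ 2 = k / L ^ 2 * C := by ring
  rw [e6]
  rw [e7] at hup
  have e8 : 1 * (k : ℝ) / L ^ 2 = k / L ^ 2 * 1 := by ring
  rw [e8]
  nlinarith

/-- elementary facts on `l = loglog k`, `L = exp l` -/
theorem ev_l : ∀ᶠ l : ℝ in atTop, 16 ≤ l ∧ l ^ (1 / 3 : ℝ) ≤ l ∧
    2 * l ^ (1 / 4 : ℝ) ≤ Real.exp (l ^ (1 / 3 : ℝ) / 2) ∧ 3 * l ^ (1 / 4 : ℝ) ≤ Real.exp l ∧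
    Real.log 2 + 2 * l + 1 ≤ Real.exp l ∧
    (∀ (K X : ℕ), 2 ≤ K → (K : ℝ) ≤ l ^ (1 / 4 : ℝ) → 1 ≤ X →
    Real.log X ≤ 2 * l → 3 * (6 * Real.log X) ^ (K - 1) ≤ Real.exp (l ^ (1 / 3 : ℝ) / 2)) := by
  have h1 : ∀ᶠ c : ℝ in atTop, 2 * c ≤ Real.exp (c / 2) := by
    filter_upwards [eventually_ge_atTop 12] with c hc
    have := Real.quadratic_le_exp_of_nonneg (show 0 ≤ c / 2 by linarith)
    nlinarith
  filter_upwards [eventually_ge_atTop 16, Asym.cube_le 0, Asym.cube_tendsto.eventually h1,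
    Asym.smooth_le] with l hl h3 h4 h5
  have hl0 : 0 < l := by linarith
  have h6 : l ^ (1 / 4 : ℝ) ≤ l ^ (1 / 3 : ℝ) :=
    Real.rpow_le_rpow_of_exponent_le (by linarith) (by norm_num)
  have h7 : l ^ (1 / 3 : ℝ) ≤ l := by linarith
  have h8 : 1 + l + l ^ 2 / 2 ≤ Real.exp l := Real.quadratic_le_exp_of_nonneg hl0.le
  have h9 : Real.log 2 ≤ 1 := by have := Real.log_two_lt_d9; linarith
  refine ⟨hl, h7, by linarith, by nlinarith, by nlinarith, h5⟩

theorem ev_L : ∀ᶠ L : ℝ in atTop, 4 ≤ L ∧ Real.exp (L / 2) + 4 ≤ Real.exp L / (2 * L ^ 2) ∧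
    4 * L ≤ Real.exp L / L ^ 2 := by
  have h1 : Tendsto (fun L : ℝ => Real.exp L / L ^ 3) atTop atTop :=
    Real.tendsto_exp_div_pow_atTop 3
  have h2 : Tendsto (fun L : ℝ => Real.exp (L / 2) / (L / 2) ^ 2) atTop atTop :=
    (Real.tendsto_exp_div_pow_atTop 2).comp
      (tendsto_id.atTop_div_const (show (0 : ℝ) < 2 by norm_num))
  filter_upwards [eventually_ge_atTop 4, h1.eventually_ge_atTop 4, h2.eventually_ge_atTop 16]
    with L hL h3 h4
  have hL0 : 0 < L := by linarith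
  refine ⟨hL, ?_, ?_⟩
  · rw [le_div_iff₀ (by positivity)] at h4
    have h5 : Real.exp L = Real.exp (L / 2) * Real.exp (L / 2) := by
      rw [← Real.exp_add]; ring_nf
    rw [le_div_iff₀ (by positivity), h5]
    have h6 : 4 * L ^ 2 ≤ Real.exp (L / 2) := by linarith
    have h7 : 4 ≤ Real.exp (L / 2) := by nlinarith
    nlinarith
  · rw [le_div_iff₀ (by positivity)] at h3
    rw [le_div_iff₀ (by positivity)]
    linarith

theorem ev (C c1 : ℝ) : ∀ᶠ k : ℕ in atTop, Ev C c1 k ⌊L2 k ^ (1 / 4 : ℝ)⌋₊ := by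
  filter_upwards [Asym.tL2.eventually ev_l, Asym.tL1.eventually ev_L,
    Asym.tL3.eventually_ge_atTop (20 * (5 * C + c1 + 6))] with k h1 h2 h3
  obtain ⟨a1, a2, a3, a4, a5, a6⟩ := h1
  obtain ⟨b1, b2, b3⟩ := h2
  set l := L2 k with hl
  set L := L1 k with hLd
  have hL0 : 0 < L := by linarith
  have hLl : L = Real.exp l := by
    rw [hl, L2, Real.exp_log]
    · rfl
    · exact hL0
  have hk0 : (0 : ℝ) < k := by
    by_contra hc
    have : (k : ℝ) = 0 := le_antisymm (not_lt.1 hc) (Nat.cast_nonneg k)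
    rw [hLd, L1, this, Real.log_zero] at hL0
    exact lt_irrefl _ hL0
  have hkexp : (k : ℝ) = Real.exp L := by rw [hLd, L1, Real.exp_log hk0]
  set q := l ^ (1 / 4 : ℝ) with hq
  have hq2 : 2 ≤ q := by
    have : (2 : ℝ) = 16 ^ (1 / 4 : ℝ) := by
      rw [show (16 : ℝ) = 2 ^ (4 : ℝ) by norm_num, ← Real.rpow_mul (by norm_num)]
      norm_num
    rw [hq, this]
    exact Real.rpow_le_rpow (by norm_num) a1 (by norm_num)
  have hq0 : 0 ≤ q := by linarith
  set K := ⌊q⌋₊ with hK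
  have hKq : (K : ℝ) ≤ q := Nat.floor_le hq0
  have hKq' : q / 2 ≤ K := by
    have := Nat.lt_floor_add_one q
    linarith
  have hK2 : 2 ≤ K := Nat.le_floor (by exact_mod_cast hq2)
  set c := l ^ (1 / 3 : ℝ) with hc
  have hXle : (XX k : ℝ) ≤ L * Real.exp c := Nat.floor_le (by positivity)
  have hXlt : L * Real.exp c < XX k + 1 := Nat.lt_floor_add_one _
  have hX1 : (1 : ℝ) ≤ XX k := by
    have : 1 ≤ Real.exp c := Real.one_le_exp (by positivity)
    nlinarith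
  have hexpc : Real.exp c ≤ L := by rw [hLl]; exact Real.exp_le_exp.2 a2
  have hXL : (XX k : ℝ) ≤ L ^ 2 := by nlinarith
  have hlogX : Real.log (XX k) ≤ 2 * l := by
    calc Real.log (XX k) ≤ Real.log (L * Real.exp c) := Real.log_le_log (by linarith) hXle
      _ = l + c := by
        rw [Real.log_mul hL0.ne' (Real.exp_pos _).ne', Real.log_exp, hLl, Real.log_exp]
      _ ≤ 2 * l := by linarith
  have hdiv : ∀ p : ℕ, 1 ≤ p → p ≤ K → L * Real.exp (c / 2) ≤ ((XX k / p : ℕ) : ℝ) := by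
    intro p hp1 hp2
    have hp0 : (0 : ℝ) < p := by exact_mod_cast hp1
    have hpq : (p : ℝ) ≤ q := (by exact_mod_cast hp2 : (p : ℝ) ≤ K).trans hKq
    have h4 : XX k < p * (XX k / p + 1) := Nat.lt_mul_div_succ _ (by omega)
    have h5 : (XX k : ℝ) + 1 ≤ p * (((XX k / p : ℕ) : ℝ) + 1) := by exact_mod_cast h4
    have h6 : Real.exp c = Real.exp (c / 2) * Real.exp (c / 2) := by
      rw [← Real.exp_add]; ring_nf
    have h7 : L * (2 * q * Real.exp (c / 2)) ≤ L * Real.exp c := by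
      rw [h6]; gcongr
    have h8 : 2 * q * (L * Real.exp (c / 2)) < q * (((XX k / p : ℕ) : ℝ) + 1) := by
      have : (p : ℝ) * (((XX k / p : ℕ) : ℝ) + 1) ≤ q * (((XX k / p : ℕ) : ℝ) + 1) :=
        mul_le_mul_of_nonneg_right hpq (by positivity)
      nlinarith
    have h9 : 2 * (L * Real.exp (c / 2)) < ((XX k / p : ℕ) : ℝ) + 1 := by
      have : q * (2 * (L * Real.exp (c / 2))) < q * (((XX k / p : ℕ) : ℝ) + 1) := by linarith
      exact lt_of_mul_lt_mul_left this hq0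
    have h10 : 1 ≤ L * Real.exp (c / 2) := by
      have : 1 ≤ Real.exp (c / 2) := Real.one_le_exp (by positivity)
      nlinarith
    linarith
  have hXs : ∀ s : ℕ, 1 ≤ s → s ≤ XX k → Real.log (2 * s) ≤ Real.log 2 + 2 * l := by
    intro s hs1 hs2
    have hs0 : (0 : ℝ) < s := by exact_mod_cast hs1
    rw [Real.log_mul (by norm_num) hs0.ne']
    have : Real.log s ≤ Real.log (XX k) := Real.log_le_log hs0 (by exact_mod_cast hs2)
    linarith
  refine ⟨hK2, hKq, ?_, b1, ?_, ?_, ?_, ?_, ?_, ?_, by linarith⟩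
  · have h4 : Real.log (q / 2) ≤ Real.log K := Real.log_le_log (by linarith) hKq'
    rw [Real.log_div (by linarith) (by norm_num), hq, Real.log_rpow (by linarith)] at h4
    exact h4
  · intro p hp1 hp2
    have h4 := hdiv p hp1 hp2
    have h5 : 1 ≤ Real.exp (c / 2) := Real.one_le_exp (by positivity)
    have h6 : (3 : ℝ) ≤ ((XX k / p : ℕ) : ℝ) := by nlinarith
    exact_mod_cast h6
  · intro s hs1 hs2
    have := hXs s hs1 hs2
    linarith
  · intro s hs1 hs2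
    have hs0 : (0 : ℝ) < s := by exact_mod_cast hs1
    have h4 : (s : ℝ) ≤ L ^ 2 := (by exact_mod_cast hs2 : (s : ℝ) ≤ XX k).trans hXL
    have h5 : Real.exp L / (2 * L ^ 2) ≤ k / (2 * s) := by
      rw [hkexp]; gcongr
    have h6 := Real.exp_pos (L / 2)
    constructor <;> linarith
  · have h4 := a6 K (XX k) hK2 hKq (by exact_mod_cast hX1) hlogX
    have h5 : Real.exp (c / 2) ≤ L := by
      refine le_trans (Real.exp_le_exp.2 ?_) hexpc
      have : 0 ≤ c := by positivity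
      linarith
    rw [hkexp]
    linarith
  · intro p hp1 hp2
    have h4 := hdiv p hp1 hp2
    have h5 : 1 ≤ Real.exp (c / 2) := Real.one_le_exp (by positivity)
    have h6 : (1 : ℝ) ≤ ((XX k / p : ℕ) : ℝ) := by nlinarith
    have h7 : ((XX k / p : ℕ) : ℝ) ≤ XX k := by exact_mod_cast Nat.div_le_self _ _
    have h8 : Real.log ((XX k / p : ℕ) : ℝ) ≤ 2 * l :=
      (Real.log_le_log (by linarith) h7).trans hlogX
    have h9 := a6 K (XX k / p) hK2 hKq (by exact_mod_cast h6) h8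
    rw [div_le_div_iff₀ (by linarith) hL0, one_mul]
    calc 3 * (6 * Real.log ((XX k / p : ℕ) : ℝ)) ^ (K - 1) * L ≤ Real.exp (c / 2) * L := by gcongr
      _ = L * Real.exp (c / 2) := mul_comm _ _
      _ ≤ _ := h4
  · have h4 : Real.log K ≤ K := by
      have := Real.log_le_sub_one_of_pos (show (0 : ℝ) < K by exact_mod_cast (by omega : 0 < K))
      linarith
    have h5 : Real.log K ≤ L := by
      rw [hLl]
      linarith
    exact h5

end Strong

/-- From the lower bound to the main theorem for all large `k`. -/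
theorem strong (L : LowerSt) (M : MertSt) (S : SmoothSt) (P : PNTSt) :
    ∃ k₀ : ℕ, ∀ k ≥ k₀, ∃ m : ℕ,
      (Nat.primeCounting k : ℝ) + 1 / 5 * k * Real.log (L2 k) / L1 k ^ 2 ≤ hh m k := by
  obtain ⟨c1, hc1, hm⟩ := M.m1
  obtain ⟨C, hC, hP⟩ := P
  obtain ⟨k₁, hk₁⟩ := L 1 one_pos
  obtain ⟨k₂, hk₂⟩ := eventually_atTop.1 (Strong.ev C c1)
  refine ⟨max k₁ k₂, fun k hk => ?_⟩
  have hE := hk₂ k (le_trans (le_max_right _ _) hk)
  obtain ⟨m, hm'⟩ := hk₁ k (le_trans (le_max_left _ _) hk) _ hE.K2 hE.KL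
  exact ⟨m, (Strong.main_ineq hC S hm hP hE).trans hm'⟩

end Pool.Agent.H61.Adm
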