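import Pool.Agent.H61.Adm.Shift
import Pool.Agent.H61.Adm.Crt
import Pool.Agent.H61.Adm.Greedy
import Pool.Agent.H61.Adm.Cnt
import Pool.Agent.H61.Adm.Mert
import Pool.Agent.H61.Adm.Smooth
import Pool.Agent.H61.Adm.SieveAP
import Pool.Agent.H61.Adm.Good
import Pool.Agent.H61.Adm.Loss
import Pool.Agent.H61.Adm.LossN
import Pool.Agent.H61.Adm.Lower
import Pool.Agent.H61.Adm.Strong

/-!
# Assembly
-/

set_option autoImplicit false

namespace Pool.Agent.H61.Adm

theorem lossSt : LossSt :=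
  loss_of (fun C1 c2 ε h1 h2 => LossN.num C1 c2 ε h1 h2) (good shift sieveAP) bbUpper mert smooth

theorem lowerSt : LowerSt := lower (greedy shift crt) bbLower lossSt mert smooth

theorem strong_of_pnt (P : PNTSt) : ∃ k₀ : ℕ, ∀ k ≥ k₀, ∃ m : ℕ,
      (Nat.primeCounting k : ℝ) + 1 / 5 * k * Real.log (L2 k) / L1 k ^ 2 ≤ hh m k :=
  strong lowerSt mert smooth P

end Pool.Agent.H61.Adm
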