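import Mathlib

/-!
# Long admissible sets: definitions and statements of the modules (MP_cbf366_nt)
-/

set_option autoImplicit false

namespace Pool.Agent.H61.Adm

open Finset

/-- `h_m(k)`: the number of integers in `(m, m+k]` without prime factor `≤ k`. -/
noncomputable def hh (m k : ℕ) : ℕ :=
  ((Finset.Ioc m (m + k)).filter (fun x => Nat.Coprime x (primorial k))).card

/-- The integers of `[-N, N]` without prime factor in `(a, b]`. -/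
noncomputable def BB (a b N : ℕ) : Finset ℤ :=
  (Finset.Icc (-(N : ℤ)) N).filter (fun n => ∀ p ∈ Finset.Ioc a b, p.Prime → ¬ (p : ℤ) ∣ n)

/-- `∏ (1 - 1/p)` over the primes `a < p ≤ b`. -/
noncomputable def VV (a b : ℕ) : ℝ :=
  ∏ p ∈ (Finset.Ioc a b).filter Nat.Prime, (1 - 1 / (p : ℝ))

/-- The integers `1 ≤ s ≤ X` all of whose prime factors are `≤ K`. -/
noncomputable def Sm (K X : ℕ) : Finset ℕ := (Finset.Icc 1 X).filter (fun s => ∀ p ∈ s.primeFactors, p ≤ K)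

/-- `L k = log k`, `L2 k = loglog k` -/
noncomputable def L1 (k : ℕ) : ℝ := Real.log k

/-- `loglog k` -/
noncomputable def L2 (k : ℕ) : ℝ := Real.log (Real.log k)

/-- the sieving limit `k / (log k exp((loglog k)^(1/3)))` -/
noncomputable def zz (k : ℕ) : ℕ := ⌊(k : ℝ) / (L1 k * Real.exp (L2 k ^ (1 / 3 : ℝ)))⌋₊

/-- the bound for the smooth part, `log k exp((loglog k)^(1/3))` -/
noncomputable def XX (k : ℕ) : ℕ := ⌊L1 k * Real.exp (L2 k ^ (1 / 3 : ℝ))⌋₊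

/-! ### Shift.lean -/

/-- Averaging over the shifts. -/
def ShiftSt : Prop := ∀ (S : Finset ℤ) (a b : ℕ),
  (∃ c : ℤ, ((S.filter (fun t => ∀ p ∈ Finset.Ioc a b, p.Prime → ¬ (p : ℤ) ∣ t - c)).card : ℝ) ≤
    VV a b * S.card) ∧
  (∃ c : ℤ, VV a b * S.card ≤
    ((S.filter (fun t => ∀ p ∈ Finset.Ioc a b, p.Prime → ¬ (p : ℤ) ∣ t - c)).card : ℝ))

/-! ### Crt.lean -/

/-- Residue classes `a p` for all primes `p ≤ k` are realised by a window `(m, m+k]`. -/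
def CrtSt : Prop := ∀ (k : ℕ) (u : ℤ) (a : ℕ → ℤ), ∃ m : ℕ,
  ((Finset.Ioc u (u + k)).filter (fun n => ∀ p ∈ Finset.Icc 1 k, p.Prime → ¬ (p : ℤ) ∣ n - a p)).card
    ≤ hh m k

/-! ### Greedy.lean -/

/-- The lower bound for `h_m(k)` from the sieve of `[-H, H]`. -/
def GreedySt : Prop := ∀ (K z H k : ℕ) (η : ℕ → ℝ), K ≤ z → z ≤ k → 2 * H + 1 ≤ k →
  (∀ p ∈ Finset.Ioc z k, p.Prime → ∃ a : ℤ,
    (((BB K z H).filter (fun n => (p : ℤ) ∣ n - a)).card : ℝ) ≤ η p) →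
  ∃ m : ℕ, VV 0 K * (BB K z H).card - ∑ p ∈ (Finset.Ioc z k).filter Nat.Prime, η p ≤ hh m k

/-! ### Cnt.lean -/

/-- Lower bound for the number of survivors. -/
def BBLowerSt : Prop := ∀ K z H X : ℕ, K ≤ z →
  2 * ∑ s ∈ Sm K X, ((Nat.primeCounting (H / s) : ℝ) - Nat.primeCounting z) ≤ (BB K z H).card

/-- Upper bound for the number of survivors. -/
def BBUpperSt : Prop := ∀ a b N : ℕ, 1 ≤ b → N < (b + 1) ^ 2 →
  ((BB a b N).card : ℝ) ≤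
    2 * ∑ s ∈ Sm a (N / b), (Nat.primeCounting (N / s) : ℝ) + 2 * (Sm a N).card + 1

/-! ### Mert.lean -/

/-- Chebyshev and Mertens. -/
structure MertSt : Prop where
  cheb : ∃ C : ℝ, 0 < C ∧ ∀ n : ℕ, 2 ≤ n → (Nat.primeCounting n : ℝ) ≤ C * n / Real.log n
  vlow : ∃ c : ℝ, 0 < c ∧ ∀ R : ℕ, 2 ≤ R → c / Real.log R ≤ VV 0 R
  vup : ∀ R : ℕ, 2 ≤ R → VV 0 R ≤ 1 / Real.log R
  /-- `∑ log p / p` -/
  m1 : ∃ c : ℝ, 0 < c ∧ ∀ y : ℕ, 1 ≤ y →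
    |∑ p ∈ (Finset.Icc 1 y).filter Nat.Prime, Real.log p / p - Real.log y| ≤ c
  /-- `∑ 1 / p` between `m` and `n` -/
  m2 : ∃ c : ℝ, 0 < c ∧ ∀ m n : ℕ, 2 ≤ m → m ≤ n →
    |∑ p ∈ (Finset.Ioc m n).filter Nat.Prime, 1 / (p : ℝ) - Real.log (Real.log n / Real.log m)| ≤
      c / Real.log m

/-! ### Smooth.lean -/

/-- Rankin bounds for smooth numbers with few primes. -/
structure SmoothSt : Prop where
  /-- number of `K`-smooth numbers -/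
  card : ∀ K X : ℕ, 2 ≤ K → 3 ≤ X → ((Sm K X).card : ℝ) ≤ 3 * (6 * Real.log X) ^ (K - 1)
  /-- the mass of the `K`-smooth numbers up to `X` is at most 1 -/
  mass : ∀ K X : ℕ, VV 0 K * ∑ s ∈ Sm K X, 1 / (s : ℝ) ≤ 1
  /-- the mass of the `K`-smooth numbers above `X` is small -/
  tail : ∀ K X : ℕ, 2 ≤ K → 3 ≤ X →
    1 - 3 * (6 * Real.log X) ^ (K - 1) / X ≤ VV 0 K * ∑ s ∈ Sm K X, 1 / (s : ℝ)
  /-- `Ψ(M, w)` for `log w ≥ 2` -/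
  psi : ∀ w M : ℕ, 2 ≤ Real.log w → w ≤ M →
    ((Sm w M).card : ℝ) ≤ M * Real.exp (-(Real.log M / Real.log w)) * (1 + Real.log w) ^ 36

/-! ### SieveAP.lean -/

/-- Selberg's sieve for an arithmetic progression, primes in `(R, R₁]`. -/
def SieveSt : Prop := ∀ (R R₁ J Q : ℕ) (α : ℤ), 2 ≤ R → 2 ≤ R₁ →
  (∀ p : ℕ, p.Prime → R < p → p ≤ R₁ → ¬ p ∣ Q) →
  (((Finset.Icc 1 J).filter (fun j : ℕ => ∀ p ∈ Finset.Ioc R R₁, p.Prime →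
    ¬ (p : ℤ) ∣ α + (Q : ℤ) * (j : ℤ))).card : ℝ) ≤ J / (VV 0 R * Real.log R₁) + (R₁ : ℝ) ^ 6

/-! ### Good.lean -/

/-- A class modulo `p` with few elements of `BB K z H`. -/
def GoodSt : Prop := ∀ (K w R R₁ z H M p J : ℕ), 2 ≤ R → 2 ≤ R₁ → K ≤ w → w ≤ R → R < p →
  R ≤ z → R₁ ≤ z → R₁ < p → p.Prime → H / p + 2 ≤ M → 1 ≤ J → J * 4 ^ R ≤ p →
  ∃ a : ℤ, (((BB K z H).filter (fun n => (p : ℤ) ∣ n - a)).card : ℝ) ≤
    VV K w * (BB w R M).card * (1 / (VV 0 R * Real.log R₁) + (R₁ : ℝ) ^ 6 / J)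

/-! ### Loss.lean -/

/-- The total loss at the primes above `zz k` is negligible, uniformly in `K ≤ (loglog k)^(1/4)`. -/
def LossSt : Prop := ∀ ε : ℝ, 0 < ε → ∃ k₀ : ℕ, ∀ k ≥ k₀, ∀ K : ℕ, 2 ≤ K →
  (K : ℝ) ≤ L2 k ^ (1 / 4 : ℝ) → ∃ η : ℕ → ℝ,
  (∀ p ∈ Finset.Ioc (zz k) k, p.Prime → ∃ a : ℤ,
    (((BB K (zz k) ((k - 1) / 2)).filter (fun n => (p : ℤ) ∣ n - a)).card : ℝ) ≤ η p) ∧
  ∑ p ∈ (Finset.Ioc (zz k) k).filter Nat.Prime, η p ≤ ε * k / L1 k ^ 2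

/-! ### Lower.lean -/

/-- The lower bound for `max h_m(k)` through primes. -/
def LowerSt : Prop := ∀ ε : ℝ, 0 < ε → ∃ k₀ : ℕ, ∀ k ≥ k₀, ∀ K : ℕ, 2 ≤ K →
  (K : ℝ) ≤ L2 k ^ (1 / 4 : ℝ) → ∃ m : ℕ,
  2 * VV 0 K * ∑ s ∈ Sm K (XX k), (Nat.primeCounting ((k - 1) / 2 / s) : ℝ) -
    ε * k / L1 k ^ 2 ≤ hh m k

/-! ### Main.lean -/

/-- The main theorem (infinitely many `k`). -/
def MainSt : Prop := ∃ c : ℝ, 0 < c ∧ ∀ N : ℕ, ∃ k ≥ N, ∃ m : ℕ,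
  (Nat.primeCounting k : ℝ) + c * k * Real.log (L2 k) / L1 k ^ 2 ≤ hh m k

/-- Prime number theorem with error term `O(x/log² x)`. -/
def PNTSt : Prop := ∃ C : ℝ, 0 < C ∧ ∀ x : ℝ, 2 ≤ x →
  |(Nat.primeCounting ⌊x⌋₊ : ℝ) - x / Real.log x| ≤ C * x / Real.log x ^ 2

/-- The main theorem for all large `k`. -/
def MainStrongSt : Prop := ∃ c : ℝ, 0 < c ∧ ∃ k₀ : ℕ, ∀ k ≥ k₀, ∃ m : ℕ,
  (Nat.primeCounting k : ℝ) + c * k * Real.log (L2 k) / L1 k ^ 2 ≤ hh m k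

end Pool.Agent.H61.Adm
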