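import Pool.Agent.H61.Adm.Defs

/-!
# The gain `VV 0 K ∑ (log s)/s` over the `K`-smooth numbers
-/

set_option autoImplicit false

namespace Pool.Agent.H61.Adm.Gain

open Finset

theorem mem_Sm {K X s : ℕ} : s ∈ Sm K X ↔ 1 ≤ s ∧ s ≤ X ∧ ∀ p ∈ s.primeFactors, p ≤ K := by
  unfold Sm
  rw [mem_filter, mem_Icc, and_assoc]

theorem VV_nonneg (a b : ℕ) : 0 ≤ VV a b := by
  unfold VV
  refine prod_nonneg fun p hp => ?_
  rw [mem_filter] at hp
  have h2 : (2 : ℝ) ≤ p := by exact_mod_cast hp.2.two_le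
  have : 1 / (p : ℝ) ≤ 1 := by
    rw [div_le_one (by linarith)]
    linarith
  linarith

theorem sum_log_le (n : ℕ) (hn : n ≠ 0) :
    ∑ q ∈ n.primeFactors, Real.log q ≤ Real.log n := by
  have h1 : ∏ q ∈ n.primeFactors, q ≤ n :=
    Nat.le_of_dvd (Nat.pos_of_ne_zero hn) (Nat.prod_primeFactors_dvd n)
  have h2 : ∑ q ∈ n.primeFactors, Real.log q = Real.log ((∏ q ∈ n.primeFactors, q : ℕ) : ℝ) := by
    rw [Nat.cast_prod, Real.log_prod]
    intro q hq
    exact_mod_cast (Nat.prime_of_mem_primeFactors hq).ne_zero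
  rw [h2]
  apply Real.log_le_log
  · exact_mod_cast Finset.prod_pos fun q hq => (Nat.prime_of_mem_primeFactors hq).pos
  · exact_mod_cast h1

/-- the multiples of `p` in `Sm K X` -/
theorem Sm_mul {K X p : ℕ} (hp : p.Prime) (hpK : p ≤ K) :
    (Sm K (X / p)).image (fun t => p * t) ⊆ (Sm K X).filter (fun s => p ∈ s.primeFactors) := by
  intro s hs
  rw [mem_image] at hs
  obtain ⟨t, ht, rfl⟩ := hs
  rw [mem_Sm] at ht
  obtain ⟨h1, h2, h3⟩ := ht
  have hpt : p * t ≠ 0 := Nat.mul_ne_zero hp.ne_zero (by omega)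
  rw [mem_filter, mem_Sm]
  refine ⟨⟨Nat.pos_of_ne_zero hpt, ?_, ?_⟩, ?_⟩
  · have := Nat.mul_le_mul_left p h2
    exact this.trans (Nat.mul_div_le X p)
  · intro q hq
    rw [Nat.primeFactors_mul hp.ne_zero (by omega), mem_union, hp.primeFactors,
      mem_singleton] at hq
    rcases hq with rfl | hq
    · exact hpK
    · exact h3 q hq
  · rw [Nat.mem_primeFactors]
    exact ⟨hp, dvd_mul_right _ _, hpt⟩

theorem gain (K X : ℕ) :
    ∑ p ∈ (Icc 1 K).filter Nat.Prime, Real.log p / p * ∑ t ∈ Sm K (X / p), 1 / (t : ℝ) ≤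
      ∑ s ∈ Sm K X, Real.log s / s := by
  have h1 : ∀ s ∈ Sm K X, ∑ p ∈ (Icc 1 K).filter Nat.Prime,
      (if p ∈ s.primeFactors then Real.log p / s else 0) ≤ Real.log s / s := by
    intro s hs
    rw [mem_Sm] at hs
    obtain ⟨hs1, hs2, hs3⟩ := hs
    have hs0 : (0 : ℝ) < s := by exact_mod_cast hs1
    rw [← sum_filter]
    have h2 : ((Icc 1 K).filter Nat.Prime).filter (fun p => p ∈ s.primeFactors) = s.primeFactors := by
      ext p
      rw [mem_filter, mem_filter, mem_Icc]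
      constructor
      · exact fun h => h.2
      · intro h
        have hp := Nat.prime_of_mem_primeFactors h
        exact ⟨⟨⟨hp.one_le, hs3 p h⟩, hp⟩, h⟩
    rw [h2, ← sum_div]
    gcongr
    exact sum_log_le s (by omega)
  calc ∑ p ∈ (Icc 1 K).filter Nat.Prime, Real.log p / p * ∑ t ∈ Sm K (X / p), 1 / (t : ℝ)
      ≤ ∑ p ∈ (Icc 1 K).filter Nat.Prime, ∑ s ∈ Sm K X,
          (if p ∈ s.primeFactors then Real.log p / s else 0) := by
        refine sum_le_sum fun p hp => ?_
        rw [mem_filter, mem_Icc] at hp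
        obtain ⟨⟨_, hpK⟩, hpp⟩ := hp
        have hp0 : (0 : ℝ) < p := by exact_mod_cast hpp.pos
        have hlog : 0 ≤ Real.log p := Real.log_natCast_nonneg p
        rw [mul_sum, ← sum_filter]
        have h3 : ∑ t ∈ Sm K (X / p), Real.log p / p * (1 / (t : ℝ)) =
            ∑ s ∈ (Sm K (X / p)).image (fun t => p * t), Real.log p / (s : ℝ) := by
          rw [sum_image]
          · refine sum_congr rfl fun t _ => ?_
            rw [Nat.cast_mul]
            field_simp
          · intro a _ b _ hab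
            exact Nat.eq_of_mul_eq_mul_left hpp.pos hab
        rw [h3]
        exact sum_le_sum_of_subset_of_nonneg (Sm_mul hpp hpK) fun s _ _ => by positivity
    _ = ∑ s ∈ Sm K X, ∑ p ∈ (Icc 1 K).filter Nat.Prime,
          (if p ∈ s.primeFactors then Real.log p / s else 0) := sum_comm
    _ ≤ _ := sum_le_sum h1

end Pool.Agent.H61.Adm.Gain
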