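import Pool.Agent.H61.Adm.Gain
import Pool.Agent.H61.Adm.Asym

/-!
# Pieces of the loss estimate
-/

set_option autoImplicit false

namespace Pool.Agent.H61.Adm.LossA

open Finset Filter

/-- the sum of `π(N/s)` over `s ≤ N/b` -/
theorem sum_pi {Cc : ℝ} (hCc : 0 < Cc)
    (hch : ∀ n : ℕ, 2 ≤ n → (Nat.primeCounting n : ℝ) ≤ Cc * n / Real.log n)
    (a b N : ℕ) (hb : 2 ≤ b) :
    ∑ s ∈ Sm a (N / b), (Nat.primeCounting (N / s) : ℝ) ≤
      Cc * N / Real.log b * ∑ s ∈ Sm a (N / b), 1 / (s : ℝ) := by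
  rw [mul_sum]
  refine sum_le_sum fun s hs => ?_
  rw [Gain.mem_Sm] at hs
  obtain ⟨hs1, hs2, -⟩ := hs
  have hs0 : (0 : ℝ) < s := by exact_mod_cast hs1
  have hb0 : 0 < b := by omega
  have hbs : b ≤ N / s := by
    rw [Nat.le_div_iff_mul_le (by omega)]
    rw [Nat.le_div_iff_mul_le hb0] at hs2
    rwa [mul_comm]
  have hlb : 0 < Real.log b := Real.log_pos (by exact_mod_cast (by omega : 1 < b))
  have h1 := hch (N / s) (by omega)
  have h2 : Real.log b ≤ Real.log ((N / s : ℕ) : ℝ) :=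
    Real.log_le_log (by exact_mod_cast hb0) (by exact_mod_cast hbs)
  have h3 : ((N / s : ℕ) : ℝ) ≤ N / s := Nat.cast_div_le
  calc (Nat.primeCounting (N / s) : ℝ) ≤ Cc * ((N / s : ℕ) : ℝ) / Real.log ((N / s : ℕ) : ℝ) := h1
    _ ≤ Cc * (N / s) / Real.log b := by gcongr
    _ = Cc * N / Real.log b * (1 / s) := by field_simp

/-- harmonic sums -/
theorem sum_inv_le (a X : ℕ) :
    ∑ s ∈ Sm a X, 1 / (s : ℝ) ≤ 1 + Real.log X := by
  have h1 : ∑ s ∈ Sm a X, 1 / (s : ℝ) ≤ ∑ s ∈ Icc 1 X, 1 / (s : ℝ) :=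
    sum_le_sum_of_subset_of_nonneg (filter_subset _ _) fun s _ _ => by positivity
  have h2 := harmonic_le_one_add_log X
  rw [harmonic_eq_sum_Icc] at h2
  push_cast at h2
  refine h1.trans (le_trans (le_of_eq ?_) h2)
  refine sum_congr rfl fun s _ => ?_
  rw [one_div]

/-- the sum over `s` is empty for `X = 0` -/
theorem sum_inv_zero (a : ℕ) : ∑ s ∈ Sm a 0, 1 / (s : ℝ) = 0 := by
  have : Sm a 0 = ∅ := by
    unfold Sm; simp
  rw [this, sum_empty]

theorem VV_split {a b c : ℕ} (h : a ≤ b) (h2 : b ≤ c) : VV a c = VV a b * VV b c := by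
  unfold VV
  rw [← prod_union]
  · congr 1
    rw [← filter_union, Finset.Ioc_union_Ioc_eq_Ioc h h2]
  · rw [Finset.disjoint_left]
    intro p hp hq
    rw [mem_filter, mem_Ioc] at hp hq
    omega

/-- a residue class with no element -/
theorem empty_class (A : Finset ℤ) (p : ℕ) (hp : A.card < p) :
    ∃ a : ℤ, A.filter (fun n => (p : ℤ) ∣ n - a) = ∅ := by
  have hp0 : (0 : ℤ) < p := by exact_mod_cast (by omega : 0 < p)
  have h1 : ∃ r ∈ Finset.Ico (0 : ℤ) p, r ∉ A.image (fun n : ℤ => n % (p : ℤ)) := by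
    by_contra hc
    push Not at hc
    have h2 : Finset.Ico (0 : ℤ) p ⊆ A.image (fun n : ℤ => n % (p : ℤ)) := fun r hr => hc r hr
    have h3 := card_le_card h2
    rw [Int.card_Ico] at h3
    have h4 := card_image_le (s := A) (f := fun n : ℤ => n % (p : ℤ))
    simp at h3
    omega
  obtain ⟨r, hr, hrn⟩ := h1
  refine ⟨r, ?_⟩
  rw [filter_eq_empty_iff]
  intro n hn hd
  apply hrn
  rw [mem_image]
  refine ⟨n, hn, ?_⟩
  rw [mem_Ico] at hr
  have h5 : n % p = r % p :=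
    Int.emod_eq_emod_iff_emod_sub_eq_zero.2 (Int.emod_eq_zero_of_dvd hd)
  rw [h5]
  exact Int.emod_eq_of_lt hr.1 hr.2

/-- numerical facts, `L = exp l` -/
structure Num (C1 c2 ε : ℝ) (l : ℝ) : Prop where
  n1 : 125 ≤ l
  n2 : l ^ (1 / 3 : ℝ) ≤ l
  n3 : Real.exp (3 / 4 * Real.exp l) + 2 ≤
    Real.exp (Real.exp l) / (Real.exp l * Real.exp (l ^ (1 / 3 : ℝ)))
  n4 : 2 * Real.exp (Real.exp l / 2) + 1 ≤ Real.exp (Real.exp l) / Real.exp l
  n5 : Real.log 3 + l ^ (1 / 4 : ℝ) * (Real.log 6 + l) ≤ Real.exp l / 2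
  n6 : Real.exp (l ^ (5 / 6 : ℝ)) ≤ Real.exp l / 16
  n7 : Real.exp (-(l ^ (1 / 6 : ℝ))) * (1 + l ^ (5 / 6 : ℝ)) ^ 36 ≤ l ^ (-(2 / 3) : ℝ)
  n8 : l ^ (2 / 3 : ℝ) ≤ Real.exp l
  n9 : 2 * Real.exp (-(Real.exp l / 4)) ≤ l / Real.exp l
  n10 : 128 * Real.exp (l ^ (1 / 3 : ℝ)) < Real.exp l
  n11 : Real.log C1 + Real.log (1 + Real.log l) + Real.log 2 ≤ l ^ (1 / 3 : ℝ)
  n12 : C1 * (1 + Real.log l) ^ 2 * l ^ (-(1 / 6) : ℝ) ≤ ε
  n13 : 2 * c2 ≤ l ^ (1 / 3 : ℝ)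

/-- the window -/
theorem window {Cc : ℝ} (hCc : 0 < Cc)
    (hch : ∀ n : ℕ, 2 ≤ n → (Nat.primeCounting n : ℝ) ≤ Cc * n / Real.log n)
    (S : SmoothSt) (U : BBUpperSt) {C1 c2 ε l : ℝ} (E : Num C1 c2 ε l) (w R M : ℕ)
    (hR : Real.exp l / 16 ≤ R) (hR2 : Real.exp l / 8 < R + 1) (hw : 2 ≤ Real.log w)
    (hw2 : Real.log w ≤ l ^ (5 / 6 : ℝ)) (hwM : w ≤ M)
    (hM1 : Real.exp l ≤ M) (hM2 : (M : ℝ) ≤ 2 * Real.exp l * Real.exp (l ^ (1 / 3 : ℝ))) :
    ((BB w R M).card : ℝ) ≤ (8 * Cc + 3) * M * l ^ (-(2 / 3) : ℝ) := by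
  have hl := E.n1
  have hl0 : 0 < l := by linarith
  have hL0 : 0 < Real.exp l := Real.exp_pos l
  have h7L : l + 1 ≤ Real.exp l := Real.add_one_le_exp l
  set L := Real.exp l with hL
  set c := l ^ (1 / 3 : ℝ) with hc
  have hc5 : 5 ≤ c := by
    have : (5 : ℝ) = 125 ^ (1 / 3 : ℝ) := by
      rw [show (125 : ℝ) = 5 ^ (3 : ℝ) by norm_num, ← Real.rpow_mul (by norm_num)]
      norm_num
    rw [hc, this]
    exact Real.rpow_le_rpow (by norm_num) hl (by norm_num)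
  have hR7 : (7 : ℝ) < R := by linarith
  have hR2' : 2 ≤ R := by
    have : (2 : ℝ) ≤ R := by linarith
    exact_mod_cast this
  have hR0 : (0 : ℝ) < R := by linarith
  have hexpc : 0 < Real.exp c := Real.exp_pos c
  -- M < (R+1)^2
  have hMR : M < (R + 1) ^ 2 := by
    have h1 : (M : ℝ) < ((R : ℝ) + 1) ^ 2 := by
      have h2 : (L / 8) ^ 2 < ((R : ℝ) + 1) ^ 2 := by
        apply pow_lt_pow_left₀ hR2 (by positivity) (by norm_num)
      have h3 : 2 * L * Real.exp c < (L / 8) ^ 2 := by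
        have := E.n10
        nlinarith
      linarith
    exact_mod_cast h1
  have hU := U w R M (by omega) hMR
  have hS1 := sum_pi hCc hch w R M hR2'
  have hS2 := sum_inv_le w (M / R)
  have hM0 : (0 : ℝ) < M := by linarith
  -- log (M / R)
  have hlogMR : Real.log ((M / R : ℕ) : ℝ) ≤ 2 * c - 1 := by
    have h1 : ((M / R : ℕ) : ℝ) ≤ 32 * Real.exp c := by
      refine Nat.cast_div_le.trans ?_
      rw [div_le_iff₀ hR0]
      have h2 : 32 * Real.exp c * (L / 16) ≤ 32 * Real.exp c * R := by gcongr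
      linarith
    rcases Nat.eq_zero_or_pos (M / R) with h0 | h0
    · rw [h0, Nat.cast_zero, Real.log_zero]; linarith
    · have h2 : Real.log ((M / R : ℕ) : ℝ) ≤ Real.log (32 * Real.exp c) :=
        Real.log_le_log (by exact_mod_cast h0) h1
      rw [Real.log_mul (by norm_num) hexpc.ne', Real.log_exp] at h2
      have h3 : Real.log 32 ≤ 4 := by
        rw [show (32 : ℝ) = 2 ^ 5 by norm_num, Real.log_pow]
        have := Real.log_two_lt_d9
        push_cast; linarith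
      linarith
  have hlogR : l / 2 ≤ Real.log R := by
    have h1 : Real.log (L / 16) ≤ Real.log R := Real.log_le_log (by positivity) hR
    rw [Real.log_div hL0.ne' (by norm_num), hL, Real.log_exp] at h1
    have h3 : Real.log 16 ≤ 3 := by
      rw [show (16 : ℝ) = 2 ^ 4 by norm_num, Real.log_pow]
      have := Real.log_two_lt_d9
      push_cast; linarith
    linarith
  have hlogR0 : 0 < Real.log R := by linarith
  set σ := ∑ s ∈ Sm w (M / R), 1 / (s : ℝ) with hσ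
  have hσ0 : 0 ≤ σ := sum_nonneg fun s _ => by positivity
  have hσ2 : σ ≤ 2 * c := by linarith
  have e1 : ∑ s ∈ Sm w (M / R), (Nat.primeCounting (M / s) : ℝ) ≤
      4 * Cc * M * l ^ (-(2 / 3) : ℝ) := by
    refine hS1.trans ?_
    have h1 : Cc * M / Real.log R * σ ≤ Cc * M / (l / 2) * (2 * c) := by gcongr
    refine h1.trans (le_of_eq ?_)
    have h2 : c = l ^ (-(2 / 3) : ℝ) * l := by
      rw [hc, ← Real.rpow_add_one hl0.ne']; norm_num
    rw [h2]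
    field_simp
    ring
  have e2 : ((Sm w M).card : ℝ) ≤ M * l ^ (-(2 / 3) : ℝ) := by
    refine (S.psi w M hw hwM).trans ?_
    have hlogM : l ≤ Real.log M := by
      rw [Real.le_log_iff_exp_le hM0]; exact hM1
    have hw0 : 0 < Real.log w := by linarith
    have h1 : l ^ (1 / 6 : ℝ) ≤ Real.log M / Real.log w := by
      rw [le_div_iff₀ hw0]
      calc l ^ (1 / 6 : ℝ) * Real.log w ≤ l ^ (1 / 6 : ℝ) * l ^ (5 / 6 : ℝ) := by gcongr
        _ = l := by rw [← Real.rpow_add hl0]; norm_num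
        _ ≤ _ := hlogM
    have h2 : Real.exp (-(Real.log M / Real.log w)) ≤ Real.exp (-(l ^ (1 / 6 : ℝ))) :=
      Real.exp_le_exp.2 (by linarith)
    have h3 : (1 + Real.log w) ^ 36 ≤ (1 + l ^ (5 / 6 : ℝ)) ^ 36 :=
      pow_le_pow_left₀ (by linarith) (by linarith) _
    calc M * Real.exp (-(Real.log M / Real.log w)) * (1 + Real.log w) ^ 36
        ≤ M * Real.exp (-(l ^ (1 / 6 : ℝ))) * (1 + l ^ (5 / 6 : ℝ)) ^ 36 := by gcongr
      _ = M * (Real.exp (-(l ^ (1 / 6 : ℝ))) * (1 + l ^ (5 / 6 : ℝ)) ^ 36) := by ring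
      _ ≤ _ := mul_le_mul_of_nonneg_left E.n7 hM0.le
  have e3 : (1 : ℝ) ≤ M * l ^ (-(2 / 3) : ℝ) := by
    rw [Real.rpow_neg hl0.le, ← div_eq_mul_inv, one_le_div (by positivity)]
    exact E.n8.trans hM1
  have h9 : (8 * Cc + 3) * (M : ℝ) * l ^ (-(2 / 3) : ℝ) = 2 * (4 * Cc * M * l ^ (-(2 / 3) : ℝ)) +
    2 * (M * l ^ (-(2 / 3) : ℝ)) + M * l ^ (-(2 / 3) : ℝ) := by ring
  rw [h9]
  linarith

/-- the bound for all survivors -/
theorem total {Cc cv : ℝ} (hCc : 0 < Cc) (hcv : 0 < cv)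
    (hch : ∀ n : ℕ, 2 ≤ n → (Nat.primeCounting n : ℝ) ≤ Cc * n / Real.log n)
    (hv : ∀ R : ℕ, 2 ≤ R → cv / Real.log R ≤ VV 0 R)
    (S : SmoothSt) (U : BBUpperSt) {C1 c2 ε l : ℝ} (E : Num C1 c2 ε l) (K z H : ℕ) (k : ℝ)
    (hk : k = Real.exp (Real.exp l)) (hK : 2 ≤ K) (hKl : (K : ℝ) ≤ l ^ (1 / 4 : ℝ))
    (hz1 : Real.exp (Real.exp l / 2) ≤ z) (hH : (H : ℝ) ≤ k / 2) (hHz : H < (z + 1) ^ 2)
    (hH3 : 3 ≤ H) :
    ((BB K z H).card : ℝ) ≤ (2 * Cc / cv + 1) * (1 + Real.log l) * (k / Real.exp l) := by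
  have hl := E.n1
  have hl0 : 0 < l := by linarith
  have hL0 : 0 < Real.exp l := Real.exp_pos l
  have h7L : l + 1 ≤ Real.exp l := Real.add_one_le_exp l
  set L := Real.exp l with hL
  have hk0 : 0 < k := by rw [hk]; exact Real.exp_pos _
  have hz2r : (2 : ℝ) ≤ z := by
    have := Real.add_one_le_exp (L / 2)
    linarith
  have hz2 : 2 ≤ z := by exact_mod_cast hz2r
  have hlz : L / 2 ≤ Real.log z := by
    rw [Real.le_log_iff_exp_le (by linarith)]; exact hz1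
  have hU := U K z H (by omega) hHz
  have hS1 := sum_pi hCc hch K z H hz2
  have hK2r : (2 : ℝ) ≤ K := by exact_mod_cast hK
  have hlK0 : 0 < Real.log K := Real.log_pos (by linarith)
  have hVK : 0 < VV 0 K := lt_of_lt_of_le (by positivity) (hv K hK)
  have hlK : Real.log K ≤ 1 + Real.log l := by
    have h1 : Real.log K ≤ Real.log (l ^ (1 / 4 : ℝ)) := Real.log_le_log (by linarith) hKl
    rw [Real.log_rpow hl0] at h1
    have h2 : 0 ≤ Real.log l := Real.log_nonneg (by linarith)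
    linarith
  set σ := ∑ s ∈ Sm K (H / z), 1 / (s : ℝ) with hσ
  have hσ1 : σ ≤ Real.log K / cv := by
    have h1 := S.mass K (H / z)
    have h2 := hv K hK
    have h3 : cv / Real.log K * σ ≤ 1 := by
      have hσ0 : 0 ≤ σ := sum_nonneg fun s _ => by positivity
      have : cv / Real.log K * σ ≤ VV 0 K * σ := mul_le_mul_of_nonneg_right h2 hσ0
      linarith
    rw [le_div_iff₀ hcv]
    have h4 : cv / Real.log K * σ * Real.log K = σ * cv := by field_simp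
    nlinarith
  have e1 : ∑ s ∈ Sm K (H / z), (Nat.primeCounting (H / s) : ℝ) ≤
      Cc / cv * (1 + Real.log l) * (k / L) := by
    refine hS1.trans ?_
    have hσ0 : 0 ≤ σ := sum_nonneg fun s _ => by positivity
    calc Cc * H / Real.log z * σ ≤ Cc * (k / 2) / (L / 2) * (Real.log K / cv) := by gcongr
      _ ≤ Cc * (k / 2) / (L / 2) * ((1 + Real.log l) / cv) := by gcongr
      _ = _ := by field_simp
  have e2 : ((Sm K H).card : ℝ) ≤ Real.exp (L / 2) := by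
    refine (S.card K H hK hH3).trans ?_
    have hH0 : (0 : ℝ) < H := by exact_mod_cast (by omega : 0 < H)
    have h1 : Real.log H ≤ L := by
      have : Real.log H ≤ Real.log k := Real.log_le_log hH0 (by linarith)
      rwa [hk, Real.log_exp] at this
    have h0 : 0 ≤ Real.log H := Real.log_natCast_nonneg H
    have h2 : (6 * Real.log H) ^ (K - 1) ≤ (6 * L) ^ (K - 1) :=
      pow_le_pow_left₀ (by positivity) (by linarith) _
    have h3 : ((K - 1 : ℕ) : ℝ) ≤ l ^ (1 / 4 : ℝ) := by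
      have : ((K - 1 : ℕ) : ℝ) ≤ K := by exact_mod_cast Nat.sub_le K 1
      linarith
    have h4 : (6 * L) ^ (K - 1) = Real.exp (((K - 1 : ℕ) : ℝ) * (Real.log 6 + l)) := by
      rw [← Real.rpow_natCast, Real.rpow_def_of_pos (by positivity),
        Real.log_mul (by norm_num) hL0.ne', hL, Real.log_exp]
      congr 1; ring
    have hlog6 : 0 ≤ Real.log 6 := Real.log_nonneg (by norm_num)
    have h5 : Real.exp (((K - 1 : ℕ) : ℝ) * (Real.log 6 + l)) ≤
        Real.exp (l ^ (1 / 4 : ℝ) * (Real.log 6 + l)) :=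
      Real.exp_le_exp.2 (mul_le_mul_of_nonneg_right h3 (by positivity))
    have h6 : (3 : ℝ) = Real.exp (Real.log 3) := (Real.exp_log (by norm_num)).symm
    calc 3 * (6 * Real.log H) ^ (K - 1) ≤ 3 * Real.exp (l ^ (1 / 4 : ℝ) * (Real.log 6 + l)) := by
          linarith [h2, h4.le, h5]
      _ = Real.exp (Real.log 3 + l ^ (1 / 4 : ℝ) * (Real.log 6 + l)) := by
          rw [Real.exp_add, ← h6]
      _ ≤ _ := Real.exp_le_exp.2 E.n5
  have e3 : 2 * Real.exp (L / 2) + 1 ≤ k / L := by rw [hk]; exact E.n4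
  have e4 : k / L ≤ (1 + Real.log l) * (k / L) := by
    apply le_mul_of_one_le_left (by positivity)
    have h2 : 0 ≤ Real.log l := Real.log_nonneg (by linarith)
    linarith
  calc ((BB K z H).card : ℝ) ≤ 2 * (Cc / cv * (1 + Real.log l) * (k / L)) +
        (1 + Real.log l) * (k / L) := by linarith
    _ = _ := by ring

/-- `VV K w` -/
theorem VV_Kw {cv : ℝ} (hcv : 0 < cv) (hv : ∀ R : ℕ, 2 ≤ R → cv / Real.log R ≤ VV 0 R)
    (hvu : ∀ R : ℕ, 2 ≤ R → VV 0 R ≤ 1 / Real.log R) {l : ℝ} (hl : 1 ≤ l) (K w : ℕ) (hK : 2 ≤ K)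
    (hKl : (K : ℝ) ≤ l ^ (1 / 4 : ℝ)) (hKw : K ≤ w) (hw : l ^ (5 / 6 : ℝ) / 2 ≤ Real.log w) :
    VV K w ≤ 2 / cv * (1 + Real.log l) * l ^ (-(5 / 6) : ℝ) := by
  have hl0 : 0 < l := by linarith
  have hK2r : (2 : ℝ) ≤ K := by exact_mod_cast hK
  have hlK0 : 0 < Real.log K := Real.log_pos (by linarith)
  have hVK : 0 < VV 0 K := lt_of_lt_of_le (by positivity) (hv K hK)
  have hlK : Real.log K ≤ 1 + Real.log l := by
    have h1 : Real.log K ≤ Real.log (l ^ (1 / 4 : ℝ)) := Real.log_le_log (by linarith) hKl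
    rw [Real.log_rpow hl0] at h1
    have h2 : 0 ≤ Real.log l := Real.log_nonneg hl
    linarith
  have h1 := VV_split (Nat.zero_le K) hKw
  have h2 := hvu w (by omega)
  have h56 : 0 < l ^ (5 / 6 : ℝ) := by positivity
  have h3 : VV 0 w ≤ 2 * l ^ (-(5 / 6) : ℝ) := by
    refine h2.trans ?_
    rw [Real.rpow_neg hl0.le, div_le_iff₀ (by linarith)]
    have : 2 * (l ^ (5 / 6 : ℝ))⁻¹ * (l ^ (5 / 6 : ℝ) / 2) ≤
        2 * (l ^ (5 / 6 : ℝ))⁻¹ * Real.log w := by gcongr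
    refine le_trans (le_of_eq ?_) this
    field_simp
  have h4 : VV K w = VV 0 w / VV 0 K := by
    rw [h1]; field_simp
  rw [h4, div_le_iff₀ hVK]
  have h5 := hv K hK
  have hll : 0 ≤ 1 + Real.log l := by
    have := Real.log_nonneg hl
    linarith
  have h6 : 1 ≤ (1 + Real.log l) / cv * VV 0 K := by
    have : Real.log K / cv * (cv / Real.log K) ≤ (1 + Real.log l) / cv * VV 0 K := by
      gcongr
    refine le_trans (le_of_eq ?_) this
    field_simp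
  have h7 : 0 ≤ 2 * l ^ (-(5 / 6) : ℝ) := by positivity
  calc VV 0 w ≤ 2 * l ^ (-(5 / 6) : ℝ) := h3
    _ = 2 * l ^ (-(5 / 6) : ℝ) * 1 := (mul_one _).symm
    _ ≤ 2 * l ^ (-(5 / 6) : ℝ) * ((1 + Real.log l) / cv * VV 0 K) := by gcongr
    _ = _ := by ring

/-- the sieve factor -/
theorem sfac {cv : ℝ} (hcv : 0 < cv) (hv : ∀ R : ℕ, 2 ≤ R → cv / Real.log R ≤ VV 0 R)
    {l L : ℝ} (hl : 1 ≤ l) (hL : 0 < L) (R R₁ J : ℕ) (hR : 2 ≤ R) (hlR : Real.log R ≤ l)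
    (hR1 : L / 48 ≤ Real.log R₁) (hR1' : (R₁ : ℝ) ≤ Real.exp (L / 24))
    (hJ : Real.exp (L / 2) / 2 ≤ J) (h9 : 2 * Real.exp (-(L / 4)) ≤ l / L) :
    1 / (VV 0 R * Real.log R₁) + (R₁ : ℝ) ^ 6 / J ≤ (48 / cv + 1) * (l / L) := by
  have hl0 : 0 < l := by linarith
  have hR2r : (2 : ℝ) ≤ R := by exact_mod_cast hR
  have hlR0 : 0 < Real.log R := Real.log_pos (by linarith)
  have h1 : 1 / (VV 0 R * Real.log R₁) ≤ 48 / cv * (l / L) := by
    have h2 : cv / l ≤ VV 0 R := by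
      refine le_trans ?_ (hv R hR)
      gcongr
    have h3 : cv / l * (L / 48) ≤ VV 0 R * Real.log R₁ :=
      mul_le_mul h2 hR1 (by positivity) (Gain.VV_nonneg 0 R)
    have h4 : 0 < cv / l * (L / 48) := by positivity
    calc 1 / (VV 0 R * Real.log R₁) ≤ 1 / (cv / l * (L / 48)) := one_div_le_one_div_of_le h4 h3
      _ = _ := by field_simp
  have h5 : (R₁ : ℝ) ^ 6 / J ≤ l / L := by
    refine le_trans ?_ h9
    have hJ0 : (0 : ℝ) < J := lt_of_lt_of_le (by positivity) hJ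
    rw [div_le_iff₀ hJ0]
    have h6 : (R₁ : ℝ) ^ 6 ≤ Real.exp (L / 24) ^ 6 := pow_le_pow_left₀ (Nat.cast_nonneg _) hR1' 6
    have h7 : Real.exp (L / 24) ^ 6 = 2 * Real.exp (-(L / 4)) * (Real.exp (L / 2) / 2) := by
      rw [← Real.exp_nat_mul]
      have : Real.exp (-(L / 4)) * Real.exp (L / 2) = Real.exp ((6 : ℕ) * (L / 24)) := by
        rw [← Real.exp_add]; congr 1; push_cast; ring
      rw [← this]; ring
    calc (R₁ : ℝ) ^ 6 ≤ 2 * Real.exp (-(L / 4)) * (Real.exp (L / 2) / 2) := by rw [← h7]; exact h6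
      _ ≤ _ := by gcongr
  linarith

/-- the floor of an exponential -/
theorem floor_exp {x : ℝ} (hx : 2 ≤ x) : Real.exp x / 2 ≤ (⌊Real.exp x⌋₊ : ℝ) ∧
    x / 2 ≤ Real.log (⌊Real.exp x⌋₊ : ℝ) ∧ (⌊Real.exp x⌋₊ : ℝ) ≤ Real.exp x ∧
    Real.log (⌊Real.exp x⌋₊ : ℝ) ≤ x := by
  have h0 : x + 1 ≤ Real.exp x := Real.add_one_le_exp x
  have h1 : Real.exp x < (⌊Real.exp x⌋₊ : ℝ) + 1 := Nat.lt_floor_add_one _
  have h2 : Real.exp x / 2 ≤ (⌊Real.exp x⌋₊ : ℝ) := by linarith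
  have h3 : (⌊Real.exp x⌋₊ : ℝ) ≤ Real.exp x := Nat.floor_le (Real.exp_pos x).le
  have h4 : (0 : ℝ) < (⌊Real.exp x⌋₊ : ℝ) := by linarith
  refine ⟨h2, ?_, h3, ?_⟩
  · rw [Real.le_log_iff_exp_le h4]
    refine le_trans ?_ h2
    have h5 : Real.exp x = Real.exp (x / 2) * Real.exp (x / 2) := by
      rw [← Real.exp_add]; ring_nf
    have h6 : x / 2 + 1 ≤ Real.exp (x / 2) := Real.add_one_le_exp _
    rw [h5]
    nlinarith [Real.exp_pos (x / 2)]
  · have := Real.log_le_log h4 h3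
    rwa [Real.log_exp] at this

end Pool.Agent.H61.Adm.LossA
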