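import Pool.Agent.H61.Adm.Defs

/-!
# Averaging over the shifts (module Shift of MP_cbf366_nt)
-/

set_option autoImplicit false

namespace Pool.Agent.H61.Adm

open Finset

namespace Shift

/-- The product of the primes in `(a, b]`. -/
noncomputable def QQ (a b : ℕ) : ℕ := ∏ p ∈ (Finset.Ioc a b).filter Nat.Prime, p

theorem QQ_pos (a b : ℕ) : 0 < QQ a b :=
  Finset.prod_pos fun _ hp => (mem_filter.mp hp).2.pos

theorem VV_eq (a b : ℕ) : ((QQ a b).totient : ℝ) = QQ a b * VV a b := by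
  have h1 := Nat.totient_eq_mul_prod_factors (QQ a b)
  have h2 : (QQ a b).primeFactors = (Finset.Ioc a b).filter Nat.Prime :=
    Nat.primeFactors_prod fun p hp => (mem_filter.mp hp).2
  rw [h2] at h1
  have h3 : (((QQ a b).totient : ℚ) : ℝ) =
      (((QQ a b : ℚ) * ∏ p ∈ (Finset.Ioc a b).filter Nat.Prime, (1 - (p : ℚ)⁻¹) : ℚ) : ℝ) := by
    rw [h1]
  push_cast at h3
  rw [h3]
  unfold VV
  congr 1
  apply Finset.prod_congr rfl
  intro p _
  rw [one_div]

/-- The admissible shifts. -/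
def Ok (a b : ℕ) (x : ℤ) : Prop := ∀ p ∈ Finset.Ioc a b, p.Prime → ¬ (p : ℤ) ∣ x

theorem ok_iff (a b : ℕ) (n : ℕ) : Ok a b (n : ℤ) ↔ (QQ a b).Coprime n := by
  unfold QQ Ok
  rw [Nat.coprime_prod_left_iff]
  constructor
  · intro h p hp
    obtain ⟨h1, h2⟩ := mem_filter.mp hp
    rw [Nat.Prime.coprime_iff_not_dvd h2]
    intro h3
    exact h p h1 h2 (Int.natCast_dvd_natCast.mpr h3)
  · intro h p h1 h2 h3
    have h4 := h p (mem_filter.mpr ⟨h1, h2⟩)
    rw [Nat.Prime.coprime_iff_not_dvd h2] at h4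
    exact h4 (Int.natCast_dvd_natCast.mp h3)

theorem ok_congr (a b : ℕ) {x y : ℤ} (h : ((QQ a b : ℕ) : ℤ) ∣ x - y) : Ok a b x ↔ Ok a b y := by
  have key : ∀ x y : ℤ, ((QQ a b : ℕ) : ℤ) ∣ x - y → Ok a b x → Ok a b y := by
    intro x y h hx p hp hpp hd
    apply hx p hp hpp
    have h1 : (p : ℤ) ∣ ((QQ a b : ℕ) : ℤ) := by
      apply Int.natCast_dvd_natCast.mpr
      exact Finset.dvd_prod_of_mem _ (mem_filter.mpr ⟨hp, hpp⟩)
    have h2 : (p : ℤ) ∣ (x - y) + y := dvd_add (h1.trans h) hd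
    simpa using h2
  constructor
  · exact key x y h
  · apply key y x
    have := (dvd_neg (α := ℤ)).mpr h
    simpa using this

open Classical in
theorem count (a b : ℕ) (t : ℤ) :
    ((range (QQ a b)).filter (fun c : ℕ => Ok a b (t - (c : ℤ)))).card = (QQ a b).totient := by
  have hQ := QQ_pos a b
  set Q := QQ a b with hQdef
  obtain ⟨M, hM1, hM2⟩ : ∃ M : ℕ, Q ≤ M ∧ ((Q : ℕ) : ℤ) ∣ t - M := by
    refine ⟨(t % Q).toNat + Q, by omega, ?_⟩
    have h1 : 0 ≤ t % Q := Int.emod_nonneg t (by omega)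
    have h2 := Int.emod_add_mul_ediv t Q
    push_cast
    rw [Int.toNat_of_nonneg h1]
    refine ⟨t / Q - 1, ?_⟩
    have h3 : (Q : ℤ) * (t / Q - 1) = (Q : ℤ) * (t / Q) - Q := by ring
    rw [h3]
    linarith
  rw [← Nat.filter_coprime_Ico_eq_totient Q (M + 1 - Q)]
  apply Finset.card_bij (fun c _ => M - c)
  · intro c hc
    rw [mem_filter, mem_range] at hc
    rw [mem_filter, mem_Ico]
    refine ⟨by omega, ?_⟩
    rw [← ok_iff]
    have h1 : ((M - c : ℕ) : ℤ) = (M : ℤ) - c := by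
      push_cast [Nat.cast_sub (show c ≤ M by omega)]
      ring
    rw [h1]
    refine (ok_congr a b ?_).mp hc.2
    have h2 : t - (c : ℤ) - ((M : ℤ) - c) = t - M := by ring
    rw [h2]
    exact hM2
  · intro c hc d hd h
    rw [mem_filter, mem_range] at hc hd
    have h' : M - c = M - d := h
    omega
  · intro x hx
    rw [mem_filter, mem_Ico, ← ok_iff] at hx
    refine ⟨M - x, ?_, by omega⟩
    rw [mem_filter, mem_range]
    refine ⟨by omega, ?_⟩
    have h1 : ((M - x : ℕ) : ℤ) = (M : ℤ) - x := by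
      push_cast [Nat.cast_sub (show x ≤ M by omega)]
      ring
    rw [h1]
    refine (ok_congr a b ?_).mpr hx.2
    have h2 : t - ((M : ℤ) - x) - x = t - M := by ring
    rw [h2]
    exact hM2

open Classical in
theorem total (S : Finset ℤ) (a b : ℕ) :
    ∑ c ∈ range (QQ a b), (((S.filter (fun t => Ok a b (t - (c : ℤ)))).card : ℕ) : ℝ) =
      ∑ _c ∈ range (QQ a b), VV a b * (S.card : ℝ) := by
  have h1 : ∑ c ∈ range (QQ a b), (S.filter (fun t => Ok a b (t - (c : ℤ)))).card =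
      S.card * (QQ a b).totient := by
    simp only [Finset.card_filter]
    rw [Finset.sum_comm]
    have h2 : ∀ t ∈ S, ∑ c ∈ range (QQ a b), (if Ok a b (t - (c : ℤ)) then 1 else 0) =
        (QQ a b).totient := by
      intro t _
      rw [← Finset.card_filter]
      exact count a b t
    rw [Finset.sum_congr rfl h2, Finset.sum_const, smul_eq_mul]
  rw [← Nat.cast_sum, h1, Finset.sum_const, card_range, nsmul_eq_mul]
  push_cast
  rw [VV_eq]
  ring

end Shift

open Shift in
theorem shift : ShiftSt := by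
  classical
  intro S a b
  have hne : (range (QQ a b)).Nonempty := by
    rw [Finset.nonempty_range_iff]
    exact (QQ_pos a b).ne'
  have h := total S a b
  have e : ∀ c : ℤ, (S.filter (fun t => ∀ p ∈ Finset.Ioc a b, p.Prime → ¬ (p : ℤ) ∣ t - c)) =
      S.filter (fun t => Ok a b (t - c)) := by
    intro c
    ext t
    simp only [mem_filter]
    rfl
  constructor
  · obtain ⟨c, -, hc⟩ := Finset.exists_le_of_sum_le hne h.le
    refine ⟨c, ?_⟩
    rw [e]
    exact hc
  · obtain ⟨c, -, hc⟩ := Finset.exists_le_of_sum_le hne h.ge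
    refine ⟨c, ?_⟩
    rw [e]
    exact hc

end Pool.Agent.H61.Adm
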